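import Mathlib
import Pool.Agent.H711R2.KG.Props
import Pool.Agent.H226R2.Kad4.Dix

/-!
Task B1 (B_step): one averaging step in a fibre algebra (helper998).
-/

open scoped ComplexOrder InnerProductSpace ComplexConjugate
open Finset

noncomputable section

namespace H711R2.KG

open H759R2.Kad

universe u v

namespace P_B1

variable {B : Type u} [CStarAlgebra B] [PartialOrder B] [StarOrderedRing B]

/-- translation of the estimates by a scalar -/
theorem shift {a u : B} {m : ℝ} (huu : u * u = 1) :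
    (1 / 2 : ℝ) • (a + u * a * u) =
      (2 : ℝ)⁻¹ • ((a - m • (1 : B)) + u * (a - m • (1 : B)) * u) + m • (1 : B) := by
  have e1 : u * (a - m • (1 : B)) * u = u * a * u - m • (1 : B) := by
    rw [mul_sub, sub_mul, mul_smul_comm, smul_mul_assoc, mul_one, huu]
  rw [e1]
  have e2 : a - m • (1 : B) + (u * a * u - m • (1 : B)) =
      (a + u * a * u) - (2 * m) • (1 : B) := by
    rw [two_mul, add_smul]; abel
  rw [e2, smul_sub, smul_smul]
  have e3 : (2 : ℝ)⁻¹ * (2 * m) = m := by ring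
  rw [e3, one_div]
  abel

theorem main (hB : IsFib B) (a : B) (α β : ℝ) (ha : IsSelfAdjoint a) (hαβ : α ≤ β)
    (h1 : α • (1 : B) ≤ a) (h2 : a ≤ β • (1 : B)) :
    ∃ (w : unitary B) (α' β' : ℝ), α' ≤ β' ∧ β' - α' ≤ 3 / 4 * (β - α) ∧
      α' • (1 : B) ≤ (1 / 2 : ℝ) • (a + (w : B) * a * star (w : B)) ∧
      (1 / 2 : ℝ) • (a + (w : B) * a * star (w : B)) ≤ β' • (1 : B) := by
  set m : ℝ := (α + β) / 2 with hm
  set δ : ℝ := (β - α) / 2 with hδ
  have hδ0 : 0 ≤ δ := by rw [hδ]; linarith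
  obtain ⟨p, ⟨hp, hpp⟩, -, hpa, hs1, hs2⟩ := hB.spec 1 ⟨star_one B, mul_one 1⟩ a ha (one_mul a) m
  set h : B := a - m • (1 : B) with hh
  have hph : p * h = h * p := by
    rw [hh, mul_sub p, sub_mul a, hpa, mul_smul_comm, smul_mul_assoc, mul_one, one_mul]
  have hq : star (1 - p) = 1 - p := by rw [star_sub, star_one, hp]
  have hqq : (1 - p) * (1 - p) = 1 - p := by
    have : (1 - p) * (1 - p) = 1 - p - p + p * p := by noncomm_ring
    rw [this, hpp]; abel
  have hqh : (1 - p) * h = h * (1 - p) := by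
    have e1 : (1 - p) * h = h - p * h := by rw [sub_mul (1 : B) p h, one_mul]
    have e2 : h * (1 - p) = h - h * p := by rw [mul_sub h 1 p, mul_one]
    rw [e1, e2, hph]
  have hh1 : -(δ • (1 : B)) ≤ h := by
    have e : -(δ • (1 : B)) = α • (1 : B) - m • (1 : B) := by
      rw [← neg_smul, ← sub_smul]; congr 1; rw [hδ, hm]; ring
    rw [e, hh]
    exact sub_le_sub_right h1 _
  have hh2 : h ≤ δ • (1 : B) := by
    have e : δ • (1 : B) = β • (1 : B) - m • (1 : B) := by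
      rw [← sub_smul]; congr 1; rw [hδ, hm]; ring
    rw [e, hh]
    exact sub_le_sub_right h2 _
  -- `p h ≥ 0`, `(1 - p) h ≤ 0`
  have hp0 : 0 ≤ p * h := by
    rw [hh, mul_sub, mul_smul_comm, mul_one, sub_nonneg]
    exact hs1
  have hq0 : (1 - p) * h ≤ 0 := by
    rw [hh, mul_sub, mul_smul_comm, mul_one, sub_nonpos]
    exact hs2
  have hdec : h = p * h + (1 - p) * h := by
    rw [sub_mul, one_mul]; abel
  have hphp : p * h * p = p * h := by
    rw [mul_assoc, ← hph, ← mul_assoc, hpp]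
  have hqhq : (1 - p) * h * (1 - p) = (1 - p) * h := by
    rw [mul_assoc, ← hqh, ← mul_assoc, hqq]
  have hA : h ≤ δ • p := by
    have e2 := star_left_conjugate_le_conjugate hh2 p
    rw [hp, hphp, mul_smul_comm, smul_mul_assoc, mul_one, hpp] at e2
    calc h = p * h + (1 - p) * h := hdec
      _ ≤ p * h + 0 := add_le_add le_rfl hq0
      _ = p * h := add_zero _
      _ ≤ δ • p := e2
  have hB' : -h ≤ δ • (1 - p) := by
    have e0 : -h ≤ δ • (1 : B) := by
      have := neg_le_neg hh1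
      rwa [neg_neg] at this
    have e2 := star_left_conjugate_le_conjugate e0 (1 - p)
    rw [hq, mul_neg, neg_mul, hqhq, mul_smul_comm, smul_mul_assoc, mul_one, hqq] at e2
    calc -h = -(p * h) + -((1 - p) * h) := by rw [← neg_add, ← hdec]
      _ ≤ 0 + -((1 - p) * h) := add_le_add (neg_nonpos.2 hp0) le_rfl
      _ = -((1 - p) * h) := zero_add _
      _ ≤ δ • (1 - p) := e2
  rcases hB.comp p (1 - p) ⟨hp, hpp⟩ ⟨hq, hqq⟩ with ⟨v, hv1, hv2⟩ | ⟨v, hv1, hv2⟩
  · obtain ⟨u, hu1, hu2, hu3, hu4⟩ := F06.step0 hδ0 hp hpp hh1 hA hv1 hv2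
    have huM : u ∈ unitary B := by
      rw [Unitary.mem_iff, hu1]
      exact ⟨hu2, hu2⟩
    refine ⟨⟨u, huM⟩, α, m + δ / 2, ?_, ?_, ?_, ?_⟩
    · rw [hm, hδ]; linarith
    · rw [hm, hδ]; linarith
    · show α • (1 : B) ≤ (1 / 2 : ℝ) • (a + u * a * star u)
      rw [hu1, shift (m := m) hu2]
      calc α • (1 : B) = -(δ • (1 : B)) + m • (1 : B) := by
            rw [← neg_smul, ← add_smul]; congr 1; rw [hδ, hm]; ring
        _ ≤ _ := add_le_add hu3 le_rfl
    · show (1 / 2 : ℝ) • (a + u * a * star u) ≤ (m + δ / 2) • (1 : B)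
      rw [hu1, shift (m := m) hu2]
      calc (2 : ℝ)⁻¹ • ((a - m • (1 : B)) + u * (a - m • (1 : B)) * u) + m • (1 : B)
          ≤ (δ / 2) • (1 : B) + m • (1 : B) := add_le_add hu4 le_rfl
        _ = (m + δ / 2) • (1 : B) := by rw [← add_smul]; congr 1; ring
  · obtain ⟨u, hu1, hu2, hu3, hu4⟩ := F06.step0 (h := -h) (p := 1 - p) (v := v) hδ0 hq hqq
      (neg_le_neg hh2) hB' hv1 (by rw [sub_sub_cancel]; exact hv2)
    have e : (2 : ℝ)⁻¹ • (-h + u * -h * u) = -((2 : ℝ)⁻¹ • (h + u * h * u)) := by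
      rw [← smul_neg]
      congr 1
      noncomm_ring
    rw [e] at hu3 hu4
    have hu5 : (2 : ℝ)⁻¹ • (h + u * h * u) ≤ δ • (1 : B) := neg_le_neg_iff.1 hu3
    have hu6 : -((δ / 2) • (1 : B)) ≤ (2 : ℝ)⁻¹ • (h + u * h * u) := by
      have := neg_le_neg hu4
      rwa [neg_neg] at this
    have huM : u ∈ unitary B := by
      rw [Unitary.mem_iff, hu1]
      exact ⟨hu2, hu2⟩
    refine ⟨⟨u, huM⟩, m - δ / 2, β, ?_, ?_, ?_, ?_⟩
    · rw [hm, hδ]; linarith
    · rw [hm, hδ]; linarith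
    · show (m - δ / 2) • (1 : B) ≤ (1 / 2 : ℝ) • (a + u * a * star u)
      rw [hu1, shift (m := m) hu2]
      calc (m - δ / 2) • (1 : B) = -((δ / 2) • (1 : B)) + m • (1 : B) := by
            rw [← neg_smul, ← add_smul]; congr 1; ring
        _ ≤ _ := add_le_add hu6 le_rfl
    · show (1 / 2 : ℝ) • (a + u * a * star u) ≤ β • (1 : B)
      rw [hu1, shift (m := m) hu2]
      calc (2 : ℝ)⁻¹ • ((a - m • (1 : B)) + u * (a - m • (1 : B)) * u) + m • (1 : B)
          ≤ δ • (1 : B) + m • (1 : B) := add_le_add hu5 le_rfl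
        _ = β • (1 : B) := by rw [← add_smul]; congr 1; rw [hδ, hm]; ring

end P_B1

/-- Task B1. -/
theorem p_B_step : B_step.{u} := by
  intro B _ _ _ hB a α β ha hαβ h1 h2
  exact P_B1.main hB a α β ha hαβ h1 h2

end H711R2.KG
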