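import Mathlib
import Pool.Agent.H711R2.KG.Props
import Pool.Agent.H226R2.Kad4.Dix

/-!
Task B2 of h711k_tasks: the Dixmier property of fibre algebras.
-/

open scoped ComplexOrder InnerProductSpace ComplexConjugate
open Finset

noncomputable section

namespace H711R2.KG

open H759R2.Kad

universe u v

namespace P_B2

open H759R2.Kad.F06

variable {A : Type u} [CStarAlgebra A] [PartialOrder A] [StarOrderedRing A]

theorem av_step {a x : A} (h : Av a x) (w : unitary A) :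
    Av a ((1 / 2 : ℝ) • (x + (w : A) * x * star (w : A))) := by
  obtain ⟨ι, _, _, g, hg⟩ := h
  refine ⟨ι ⊕ ι, inferInstance, inferInstance, Sum.elim g (fun i => w * g i), ?_⟩
  rw [Fintype.sum_sum_type, Fintype.card_sum]
  simp only [Sum.elim_inl, Sum.elim_inr]
  have e1 : ∑ i, (((w * g i : unitary A) : A) * a * star ((w * g i : unitary A) : A)) =
      w * (∑ i, (g i : A) * a * star (g i : A)) * star (w : A) := by
    rw [Finset.mul_sum, Finset.sum_mul]
    apply Finset.sum_congr rfl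
    intro i _
    rw [Submonoid.coe_mul, star_mul]
    noncomm_ring
  rw [e1, hg]
  set S := ∑ i, (g i : A) * a * star (g i : A) with hS
  rw [mul_smul_comm, smul_mul_assoc, ← smul_add]
  have hc : (Fintype.card ι : ℂ) ≠ 0 := by
    have : 0 < Fintype.card ι := Fintype.card_pos
    exact_mod_cast this.ne'
  have e2 : (1 / 2 : ℝ) • ((Fintype.card ι : ℂ)⁻¹ • (S + w * S * star (w : A))) =
      (2 : ℂ)⁻¹ • ((Fintype.card ι : ℂ)⁻¹ • (S + w * S * star (w : A))) := by
    have : ((2 : ℂ)⁻¹) = (((1 / 2 : ℝ) : ℝ) : ℂ) := by norm_num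
    rw [this, Complex.coe_smul]
  rw [e2, smul_smul]
  congr 1
  push_cast
  field_simp
  norm_num

theorem sa_step {x : A} (hx : IsSelfAdjoint x) (w : unitary A) :
    IsSelfAdjoint ((1 / 2 : ℝ) • (x + (w : A) * x * star (w : A))) := by
  apply IsSelfAdjoint.smul (IsSelfAdjoint.all _)
  exact hx.add (hx.conjugate _)

theorem iter' (hstep : B_step.{u}) (hF : IsFib A) {a : A} (ha : IsSelfAdjoint a) (k : ℕ) :
    ∃ (x : A) (α β : ℝ), Av a x ∧ IsSelfAdjoint x ∧ α ≤ β ∧ β - α ≤ (3 / 4) ^ k * (2 * ‖a‖) ∧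
      α • (1 : A) ≤ x ∧ x ≤ β • (1 : A) := by
  induction k with
  | zero =>
    refine ⟨a, -‖a‖, ‖a‖, Av.refl a, ha, ?_, ?_, ?_, ?_⟩
    · linarith [norm_nonneg a]
    · rw [pow_zero]; linarith
    · rw [neg_smul, ← Algebra.algebraMap_eq_smul_one]
      exact ha.neg_algebraMap_norm_le_self
    · rw [← Algebra.algebraMap_eq_smul_one]
      exact ha.le_algebraMap_norm_self
  | succ k ih =>
    obtain ⟨x, α, β, hx, hxs, hab, hd, h1, h2⟩ := ih
    obtain ⟨w, α', β', hab', hd', h3, h4⟩ := hstep A hF x α β hxs hab h1 h2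
    refine ⟨_, α', β', av_step hx w, sa_step hxs w, hab', ?_, h3, h4⟩
    rw [pow_succ]
    linarith

theorem tau_bd {τ : A →ₗ[ℂ] ℂ} (hτ : IsTracialState τ) {y : A} {α β : ℝ}
    (h1 : α • (1 : A) ≤ y) (h2 : y ≤ β • (1 : A)) : ‖τ y - (α : ℂ)‖ ≤ β - α := by
  have hr : ∀ r : ℝ, τ (r • (1 : A)) = (r : ℂ) := by
    intro r
    have : r • (1 : A) = (r : ℂ) • (1 : A) := (Complex.coe_smul r (1 : A)).symm
    rw [this, map_smul, hτ.one, smul_eq_mul, mul_one]
  have h3 := tau_nonneg hτ (sub_nonneg.2 h2)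
  have h4 := tau_nonneg hτ (sub_nonneg.2 h1)
  rw [map_sub, hr] at h3 h4
  rw [Complex.nonneg_iff] at h3 h4
  simp only [Complex.sub_re, Complex.ofReal_re, Complex.sub_im, Complex.ofReal_im] at h3 h4
  have him : (τ y).im = 0 := by linarith [h3.2]
  have : τ y - (α : ℂ) = (((τ y).re - α : ℝ) : ℂ) := by
    apply Complex.ext <;> simp [him]
  rw [this, Complex.norm_real, Real.norm_eq_abs, abs_le]
  constructor <;> linarith [h3.1, h4.1]

end P_B2

open P_B2 H759R2.Kad.F06 in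
theorem p_B_dix (hstep : B_step.{u}) : B_dix.{u} := by
  intro A _ _ _ hF τ hτ a ha ε hε
  haveI : Nontrivial A := ⟨1, 0, hF.nontriv⟩
  obtain ⟨k, hk⟩ : ∃ k : ℕ, (3 / 4 : ℝ) ^ k * (2 * ‖a‖) ≤ ε / 2 := by
    have h1 : Filter.Tendsto (fun k : ℕ => (3 / 4 : ℝ) ^ k * (2 * ‖a‖)) Filter.atTop
        (nhds (0 * (2 * ‖a‖))) :=
      (tendsto_pow_atTop_nhds_zero_of_lt_one (by norm_num) (by norm_num)).mul_const _
    rw [zero_mul] at h1
    exact (h1.eventually_le_const (by linarith : (0 : ℝ) < ε / 2)).exists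
  obtain ⟨x, α, β, hx, hxs, hab, hd, h1, h2⟩ := iter' hstep hF ha k
  have h3 := tau_bd hτ h1 h2
  rw [hx.trace hτ] at h3
  have h4 : ‖x - α • (1 : A)‖ ≤ β - α := by
    have hs : IsSelfAdjoint (x - α • (1 : A)) :=
      hxs.sub ((IsSelfAdjoint.all α).smul (IsSelfAdjoint.one A))
    have h5 : 0 ≤ x - α • (1 : A) := sub_nonneg.2 h1
    have h6 : x - α • (1 : A) ≤ (β - α) • (1 : A) := by
      rw [sub_smul]; exact sub_le_sub_right h2 _
    rw [← Algebra.algebraMap_eq_smul_one (β - α)] at h6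
    exact (CStarAlgebra.norm_le_iff_le_algebraMap _ (by linarith) h5).2 h6
  have h5 : ‖x - algebraMap ℂ A (τ a)‖ ≤ ε := by
    have e : x - algebraMap ℂ A (τ a) = (x - α • (1 : A)) - algebraMap ℂ A (τ a - α) := by
      rw [map_sub, Algebra.algebraMap_eq_smul_one (α : ℂ), Complex.coe_smul]
      abel
    rw [e]
    refine (norm_sub_le _ _).trans ?_
    rw [norm_algebraMap']
    linarith
  obtain ⟨ι, _, _, g, hg⟩ := hx
  obtain ⟨N, hN⟩ : ∃ N, Fintype.card ι = N + 1 :=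
    ⟨Fintype.card ι - 1, by have : 0 < Fintype.card ι := Fintype.card_pos; omega⟩
  have eq : ι ≃ Fin (N + 1) := Fintype.equivFinOfCardEq hN
  refine ⟨N, fun i => g (eq.symm i), ?_⟩
  have e6 : ∑ i, (g (eq.symm i) : A) * a * star (g (eq.symm i) : A) =
      ∑ i, (g i : A) * a * star (g i : A) :=
    Equiv.sum_comp eq.symm (fun i => (g i : A) * a * star (g i : A))
  rw [e6]
  have e7 : ((N : ℂ) + 1) = (Fintype.card ι : ℂ) := by rw [hN]; push_cast; rfl
  rw [e7, ← hg]
  exact h5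

end H711R2.KG
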