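import Mathlib
import Pool.Agent.H711R2.KG.Props

/-! Lifting projections through surjective *-homomorphisms of von Neumann algebras. -/

open scoped ComplexOrder InnerProductSpace ComplexConjugate
open Finset

noncomputable section

namespace H711R2.KG

open H759R2.Kad

universe u v

namespace P_Q1

variable {B : Type u} [CStarAlgebra B] [PartialOrder B] [StarOrderedRing B]

/-- a projection `d` with `d / 2 ≤ 0` vanishes -/
lemma prj_zero {d : B} (hd : IsPrj d) (h : (1 / 2 : ℝ) • d ≤ 0) : d = 0 := by
  have h0 : 0 ≤ d := by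
    have := star_mul_self_nonneg d
    rwa [hd.1, hd.2] at this
  have h1 : d ≤ 0 := by
    have h2 : (2 : ℝ) • ((1 / 2 : ℝ) • d) ≤ (2 : ℝ) • (0 : B) :=
      smul_le_smul_of_nonneg_left h (by norm_num)
    rw [smul_smul, smul_zero] at h2
    norm_num at h2
    exact h2
  exact le_antisymm h1 h0

lemma key {e p q : B} (hp : IsPrj p) (hq : IsPrj q) (hep : e * p = p)
    (heq : e * q = q) (hc : p * q = q * p) (h1 : (1 / 2 : ℝ) • p ≤ p * q)
    (h2 : (e - p) * q ≤ (1 / 2 : ℝ) • (e - p)) : p = q := by
  obtain ⟨hp1, hp2⟩ := hp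
  obtain ⟨hq1, hq2⟩ := hq
  -- p * q = p
  have hpq : p - q * p = 0 := by
    have hs : star (1 - q) = 1 - q := by rw [star_sub, star_one, hq1]
    have hpr : IsPrj (p - q * p) := by
      constructor
      · rw [star_sub, star_mul, hp1, hq1, hc]
      · have e1 : (p - q * p) * (p - q * p) = p * p - p * q * p - q * (p * p) + q * (p * q) * p := by
          noncomm_ring
        rw [e1, hc, hp2]
        have e2 : q * p * p = q * p := by rw [mul_assoc, hp2]
        have e3 : q * (q * p) * p = q * p := by
          rw [← mul_assoc, hq2, mul_assoc, hp2]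
        rw [e2, e3]
        abel
    apply prj_zero hpr
    have h3 := star_left_conjugate_le_conjugate h1 (1 - q)
    rw [hs] at h3
    have e1 : (1 - q) * ((1 / 2 : ℝ) • p) * (1 - q) = (1 / 2 : ℝ) • (p - q * p) := by
      rw [mul_smul_comm, smul_mul_assoc]
      congr 1
      have e2 : (1 - q) * p * (1 - q) = p - p * q - q * p + q * (p * q) := by noncomm_ring
      rw [e2, hc, ← mul_assoc, hq2]
      abel
    have e2 : (1 - q) * (p * q) * (1 - q) = 0 := by
      have e3 : (1 - q) * (p * q) * (1 - q) = (1 - q) * (p * (q - q * q)) := by noncomm_ring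
      rw [e3, hq2, sub_self, mul_zero, mul_zero]
    rw [e1, e2] at h3
    exact h3
  have hqp : q * p = p := (sub_eq_zero.1 hpq).symm
  have hpq' : p * q = p := hc.trans hqp
  have hd : IsPrj (q - p) := by
    constructor
    · rw [star_sub, hp1, hq1]
    · have e1 : (q - p) * (q - p) = q * q - q * p - p * q + p * p := by noncomm_ring
      rw [e1, hq2, hqp, hpq', hp2]
      abel
  have hz : q - p = 0 := by
    apply prj_zero hd
    have h3 := star_left_conjugate_le_conjugate h2 (q - p)
    rw [hd.1] at h3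
    have e1 : (e - p) * q = q - p := by rw [sub_mul, heq, hpq']
    rw [e1] at h3
    have e2 : (q - p) * (q - p) * (q - p) = q - p := by rw [hd.2, hd.2]
    have e4 : (e - p) * (q - p) = q - p := by
      rw [sub_mul, mul_sub, mul_sub, heq, hep, hpq', hp2, sub_self, sub_zero]
    have e3 : (q - p) * ((1 / 2 : ℝ) • (e - p)) * (q - p) = (1 / 2 : ℝ) • (q - p) := by
      rw [mul_smul_comm, smul_mul_assoc, mul_assoc, e4, hd.2]
    rw [e2, e3] at h3
    have h4 := sub_le_sub_right h3 ((1 / 2 : ℝ) • (q - p))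
    rw [sub_self] at h4
    have e5 : (q - p) - (1 / 2 : ℝ) • (q - p) = (1 / 2 : ℝ) • (q - p) := by
      have : (q - p) = (1 : ℝ) • (q - p) := (one_smul ℝ _).symm
      nth_rewrite 1 [this]
      rw [← sub_smul]
      norm_num
    rwa [e5] at h4
  exact (sub_eq_zero.1 hz).symm

end P_Q1

theorem p_Q_lift : Q_lift.{u} := by
  intro M _ _ _ B _ _ _ φ hVN hφ e he q hq heq
  have hsm : ∀ (r : ℝ) (y : M), φ (r • y) = r • φ y := fun r y =>
    LinearMap.map_smul_of_tower φ.toAlgHom.toLinearMap r y
  obtain ⟨b, hb⟩ := hφ q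
  have hqe : q * φ e = q := by
    have h := congrArg star heq
    rw [star_mul, hq.1, ← map_star, he.1] at h
    exact h
  set c : M := (1 / 2 : ℝ) • (b + star b) with hc
  have hcs : star c = c := by
    rw [hc, star_smul, star_add, star_star, add_comm]
    simp
  have hφc : φ c = q := by
    have h1 : φ c = (1 / 2 : ℝ) • φ (b + star b) := by
      rw [hc]
      exact hsm (1 / 2 : ℝ) (b + star b)
    rw [h1, map_add, map_star, hb, hq.1, ← two_smul ℝ q, smul_smul]
    norm_num
  have hx : IsSelfAdjoint (e * c * e) := by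
    rw [isSelfAdjoint_iff, star_mul, star_mul, he.1, hcs, mul_assoc]
  have hex : e * (e * c * e) = e * c * e := by
    rw [← mul_assoc, ← mul_assoc, he.2]
  have hφx : φ (e * c * e) = q := by
    rw [map_mul, map_mul, hφc, heq, hqe]
  obtain ⟨P, hP, heP, hPx, h1, h2⟩ := hVN.spec e he (e * c * e) hx hex (1 / 2)
  refine ⟨P, hP, heP, ?_⟩
  have hmono : Monotone φ := OrderHomClass.mono φ
  have g1 := hmono h1
  have g2 := hmono h2
  rw [hsm, map_mul, hφx] at g1
  rw [hsm, map_mul, map_sub, hφx] at g2
  refine P_Q1.key (e := φ e) ⟨?_, ?_⟩ hq ?_ heq ?_ g1 g2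
  · rw [← map_star, hP.1]
  · rw [← map_mul, hP.2]
  · rw [← map_mul, heP]
  · have := congrArg φ hPx
    rwa [map_mul φ P, map_mul φ (e * c * e) P, hφx] at this

end H711R2.KG
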