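import Mathlib
import Pool.Agent.H711R2.KG.Props

/-!
Q_fib: images of von Neumann algebras whose centre becomes scalar are fibre algebras.
-/

open scoped ComplexOrder InnerProductSpace ComplexConjugate
open Finset

noncomputable section

namespace H711R2.KG

open H759R2.Kad

universe u v

namespace P_Q2

section

variable {M : Type u} [CStarAlgebra M]
  {B : Type u} [CStarAlgebra B] (φ : M →⋆ₐ[ℂ] B)

lemma prj_one : IsPrj (1 : M) := ⟨star_one M, one_mul 1⟩

lemma prj_map {p : M} (hp : IsPrj p) : IsPrj (φ p) :=
  ⟨by rw [← map_star, hp.1], by rw [← map_mul, hp.2]⟩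

lemma sub_map {p q : M} (h : Sub p q) : Sub (φ p) (φ q) := by
  obtain ⟨v, h1, h2⟩ := h
  exact ⟨φ v, by rw [← map_star, ← map_mul, h1], by rw [← map_mul, h2]⟩

lemma cent_cases (h1 : (1 : B) ≠ 0)
    (hz : ∀ z : M, (∀ a, z * a = a * z) → ∃ l : ℂ, φ z = algebraMap ℂ B l)
    (z : M) (hp : IsPrj z) (hc : ∀ a, z * a = a * z) : φ z = 0 ∨ φ z = 1 := by
  haveI : Nontrivial B := ⟨1, 0, h1⟩
  obtain ⟨l, hl⟩ := hz z hc
  have h2 : (φ z) * φ z = φ z := by rw [← map_mul, hp.2]
  rw [hl, ← map_mul] at h2
  have h3 : l * l = l := FaithfulSMul.algebraMap_injective ℂ B h2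
  have h4 : l * (l - 1) = 0 := by rw [mul_sub, h3, mul_one, sub_self]
  rcases mul_eq_zero.mp h4 with h5 | h5
  · left; rw [hl, h5, map_zero]
  · right; rw [hl, sub_eq_zero.mp h5, map_one]

/-- `v* v = p` a projection gives `v p = v`. -/
lemma pi_mul {v : M} (hp : IsPrj (star v * v)) : v * (star v * v) = v := by
  have h : star (v - v * (star v * v)) * (v - v * (star v * v)) = 0 := by
    have e1 : star (v - v * (star v * v)) * (v - v * (star v * v)) =
        star v * v - (star v * v) * (star v * v) - (star v * v) * (star v * v) +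
          (star v * v) * (star v * v) * (star v * v) := by
      rw [star_sub, star_mul, star_mul, star_star]
      noncomm_ring
    rw [e1, hp.2, hp.2]
    abel
  have h2 : v - v * (star v * v) = 0 := CStarRing.star_mul_self_eq_zero_iff _ |>.mp h
  exact (sub_eq_zero.mp h2).symm

end

section

variable {M : Type u} [CStarAlgebra M] [PartialOrder M] [StarOrderedRing M]
  {B : Type u} [CStarAlgebra B] [PartialOrder B] [StarOrderedRing B] (φ : M →⋆ₐ[ℂ] B)

lemma map_le' {x y : M} (h : x ≤ y) : φ x ≤ φ y := OrderHomClass.mono φ h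

lemma map_rsmul (t : ℝ) (x : M) : φ (t • x) = t • φ x := by
  have e1 : t • x = (t : ℂ) • x := (Complex.coe_smul t x).symm
  have e2 : t • φ x = (t : ℂ) • φ x := (Complex.coe_smul t (φ x)).symm
  rw [e1, map_smul, e2]

end

end P_Q2

open P_Q2 in
theorem p_Q_fib (hlift : Q_lift.{u}) : Q_fib.{u} := by
  intro M _ _ _ B _ _ _ φ hM hsurj h1 hz
  have hcc := P_Q2.cent_cases φ h1 hz
  have lift1 : ∀ q : B, IsPrj q → ∃ p : M, IsPrj p ∧ φ p = q := by
    intro q hq
    obtain ⟨p, hp, -, h⟩ := hlift M B φ hM hsurj 1 prj_one q hq (by rw [map_one, one_mul])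
    exact ⟨p, hp, h⟩
  refine ⟨h1, ?_, ?_, ?_⟩
  · intro e he a ha hea t
    obtain ⟨E, hE, hφE⟩ := lift1 e he
    obtain ⟨b, hb⟩ := hsurj a
    have hae : a * e = a := by
      have := congrArg star hea
      rwa [star_mul, ha.star_eq, he.1] at this
    set x : M := E * ((1 / 2 : ℝ) • (b + star b)) * E with hx
    have hxs : IsSelfAdjoint x := by
      rw [IsSelfAdjoint, hx, star_mul, star_mul, star_smul, star_add, star_star, hE.1,
        star_trivial, add_comm (star b) b, mul_assoc]
    have hEx : E * x = x := by
      rw [hx, ← mul_assoc, ← mul_assoc, hE.2]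
    have hφx : φ x = a := by
      rw [hx, map_mul, map_mul, hφE, P_Q2.map_rsmul, map_add, map_star, hb, ha.star_eq]
      have : (1 / 2 : ℝ) • (a + a) = a := by
        rw [← two_smul ℝ a, smul_smul]; norm_num
      rw [this, hea, hae]
    obtain ⟨p, hp1, hp2, hp3, hp4, hp5⟩ := hM.spec E hE x hxs hEx t
    refine ⟨φ p, prj_map φ hp1, ?_, ?_, ?_, ?_⟩
    · rw [← hφE, ← map_mul, hp2]
    · rw [← hφx, ← map_mul, hp3, map_mul]
    · have := P_Q2.map_le' φ hp4
      rwa [P_Q2.map_rsmul, map_mul, hφx] at this
    · have := P_Q2.map_le' φ hp5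
      rwa [P_Q2.map_rsmul, map_mul, map_sub, hφx, hφE] at this
  · intro p q hp hq
    obtain ⟨P, hP, rfl⟩ := lift1 p hp
    obtain ⟨Q, hQ, rfl⟩ := lift1 q hq
    obtain ⟨z, hzp, hzc, hs1, hs2⟩ := hM.comp P Q hP hQ
    rcases hcc z hzp hzc with h | h
    · right
      have := sub_map φ hs2
      simpa [map_mul, map_sub, h] using this
    · left
      have := sub_map φ hs1
      simpa [map_mul, h] using this
  · intro e he
    obtain ⟨E, hE, rfl⟩ := lift1 e he
    obtain ⟨v, hv1, hv2, hv3, hv4, hv5⟩ := hM.half E hE
    have hE0 : IsPrj (E - star v * v - v * star v) := by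
      have a1 : v * (star v * v) = v := pi_mul hv4
      have a2 : (star v * v) * star v = star v := by
        have := congrArg star a1
        rwa [star_mul, star_mul, star_star] at this
      have b1 : E * star v = star v := by
        have := congrArg star hv2
        rwa [star_mul, hE.1] at this
      have b2 : star v * E = star v := by
        have := congrArg star hv1
        rwa [star_mul, hE.1] at this
      have b3 : star v * star v = 0 := by
        have := congrArg star hv3
        rwa [star_mul, star_zero] at this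
      constructor
      · rw [star_sub, star_sub, star_mul, star_mul, star_star, hE.1]
      · have c1 : E * (star v * v) = star v * v := by rw [← mul_assoc, b1]
        have c2 : E * (v * star v) = v * star v := by rw [← mul_assoc, hv1]
        have c3 : (star v * v) * E = star v * v := by rw [mul_assoc, hv2]
        have c4 : (v * star v) * E = v * star v := by rw [mul_assoc, b2]
        have c5 : (star v * v) * (v * star v) = 0 := by
          rw [mul_assoc, ← mul_assoc v v, hv3, zero_mul, mul_zero]
        have c6 : (v * star v) * (star v * v) = 0 := by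
          rw [mul_assoc, ← mul_assoc (star v) (star v), b3, zero_mul, mul_zero]
        have c7 : (v * star v) * (v * star v) = v * star v := by
          rw [← mul_assoc, mul_assoc v (star v) v, a1]
        rw [sub_mul, sub_mul, mul_sub, mul_sub, mul_sub, mul_sub, mul_sub, mul_sub, hE.2, c1, c2,
          c3, c4, c5, c6, c7, hv4.2]
        abel
    refine ⟨φ v, by rw [← map_mul, hv1], by rw [← map_mul, hv2], by rw [← map_mul, hv3, map_zero],
      ?_, ?_⟩
    · have := prj_map φ hv4
      rwa [map_mul, map_star] at this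
    · intro p hp hpe
      have hE0φ : φ (E - star v * v - v * star v) = φ E - star (φ v) * φ v - φ v * star (φ v) := by
        rw [map_sub, map_sub, map_mul, map_mul, map_star]
      obtain ⟨P, hP, hP2, hP3⟩ := hlift M B φ hM hsurj _ hE0 p hp (by rw [hE0φ, hpe])
      obtain ⟨z, hzp, hzc, hzP⟩ := hv5 P hP hP2
      have h6 : p = φ z * (φ E - star (φ v) * φ v - φ v * star (φ v)) := by
        rw [← hE0φ, ← map_mul, ← hzP, hP3]
      rcases hcc z hzp hzc with h | h
      · left; rw [h6, h, zero_mul]
      · right; rw [h6, h, one_mul]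

end H711R2.KG
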