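import Mathlib
import Pool.Agent.H711R2.KG.Props

/-!
Spectral projections in concrete von Neumann algebras (task V1, by helper790).
-/

open scoped ComplexOrder InnerProductSpace ComplexConjugate
open Finset

noncomputable section

namespace H711R2.KG

universe u

namespace P_V1

variable {A : Type u} [CStarAlgebra A] [PartialOrder A] [StarOrderedRing A]

omit [PartialOrder A] [StarOrderedRing A] in
theorem zero_of_sq {b y : A} (hb : star b = b) (h : b * b * y = 0) : b * y = 0 := by
  rw [← CStarRing.star_mul_self_eq_zero_iff, star_mul, hb]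
  have : star y * b * (b * y) = star y * (b * b * y) := by noncomm_ring
  rw [this, h, mul_zero]

theorem core {e a p : A} {t : ℝ} (he : IsPrj e) (hea : e * a = a) (ha : IsSelfAdjoint a)
    (hp : IsPrj p) (hpb : p * (a - t • e)⁺ = (a - t • e)⁺)
    (hx : ∀ x : A, x * (a - t • e)⁺ = 0 → x * p = 0) : IsSpec e a t p := by
  obtain ⟨hes, hee⟩ := he
  obtain ⟨hps, hpp⟩ := hp
  have has : star a = a := ha
  have hae : a * e = a := by
    have := congrArg star hea
    rwa [star_mul, has, hes] at this
  set x : A := a - t • e with hxdef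
  have hxs : IsSelfAdjoint x := by
    rw [hxdef]
    show star (a - t • e) = a - t • e
    rw [star_sub, star_smul, has, hes, star_trivial]
  set b := x⁺ with hb
  set n := x⁻ with hn
  have hb0 : 0 ≤ b := CFC.posPart_nonneg x
  have hn0 : 0 ≤ n := CFC.negPart_nonneg x
  have hbs : star b = b := (IsSelfAdjoint.of_nonneg hb0)
  have hns : star n = n := (IsSelfAdjoint.of_nonneg hn0)
  have hdec : b - n = x := CFC.posPart_sub_negPart x hxs
  have hnb : n * b = 0 := CFC.negPart_mul_posPart x
  have hbn : b * n = 0 := CFC.posPart_mul_negPart x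
  have hex : e * x = x := by rw [hxdef, mul_sub, hea, mul_smul_comm, hee]
  have hxe : x * e = x := by rw [hxdef, sub_mul, hae, smul_mul_assoc, hee]
  have hbb : b * b = b * x := by rw [← hdec, mul_sub, hbn, sub_zero]
  have hxb : x * b = b * b := by rw [← hdec, sub_mul, hnb, sub_zero]
  have hnn : n * n = -(n * x) := by rw [← hdec, mul_sub, hnb, zero_sub, neg_neg]
  have hbe : b * e = b := by
    have h1 : b * (1 - e) = 0 := by
      apply zero_of_sq hbs
      rw [hbb, mul_sub, mul_one, mul_assoc, hxe, sub_self]
    rw [mul_sub, mul_one, sub_eq_zero] at h1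
    exact h1.symm
  have hne : n * e = n := by
    have h1 : n * (1 - e) = 0 := by
      apply zero_of_sq hns
      rw [hnn, mul_sub, mul_one, neg_mul, mul_assoc, hxe, sub_self]
    rw [mul_sub, mul_one, sub_eq_zero] at h1
    exact h1.symm
  have heb : e * b = b := by
    have := congrArg star hbe
    rwa [star_mul, hbs, hes] at this
  have hen : e * n = n := by
    have := congrArg star hne
    rwa [star_mul, hns, hes] at this
  have hep : e * p = p := by
    have h1 : (1 - e) * p = 0 := by
      apply hx
      rw [sub_mul, one_mul, heb, sub_self]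
    rw [sub_mul, one_mul, sub_eq_zero] at h1
    exact h1.symm
  have hpe : p * e = p := by
    have := congrArg star hep
    rwa [star_mul, hps, hes] at this
  have hnp : n * p = 0 := hx _ hnb
  have hpn : p * n = 0 := by
    have := congrArg star hnp
    rwa [star_mul, hps, hns, star_zero] at this
  have hab : a * b = b * a := by
    have h1 : a = x + t • e := by rw [hxdef]; abel
    rw [h1, add_mul, mul_add, hxb, ← hbb, smul_mul_assoc, mul_smul_comm, heb, hbe]
  have hap : a * p = p * a * p := by
    have h1 : ((1 - p) * a) * p = 0 := by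
      apply hx
      rw [mul_assoc, hab, ← mul_assoc, sub_mul, one_mul, hpb, sub_self, zero_mul]
    have h2 : (1 - p) * a * p = a * p - p * a * p := by noncomm_ring
    rw [h2, sub_eq_zero] at h1
    exact h1
  have hpa : p * a = p * a * p := by
    have := congrArg star hap
    rw [star_mul, star_mul, star_mul, hps, has] at this
    exact this.trans (mul_assoc _ _ _).symm
  have hcomm : p * a = a * p := hpa.trans hap.symm
  have hpx : p * x = b := by rw [← hdec, mul_sub, hpb, hpn, sub_zero]
  refine ⟨⟨hps, hpp⟩, hep, hcomm, ?_, ?_⟩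
  · rw [← sub_nonneg]
    have : p * a - t • p = b := by
      rw [← hpx, hxdef, mul_sub, mul_smul_comm, hpe]
    rw [this]
    exact hb0
  · rw [← sub_nonneg]
    have : t • (e - p) - (e - p) * a = n := by
      have h1 : (e - p) * x = -n := by
        rw [sub_mul, hex, hpx, ← hdec]; abel
      have h2 : (e - p) * x = (e - p) * a - t • (e - p) := by
        rw [hxdef, mul_sub, mul_smul_comm, sub_mul e p e, hee, hpe]
      rw [h2] at h1
      rw [← neg_sub, h1, neg_neg]
    rw [this]
    exact hn0

theorem posPart_mem {H : Type u} [NormedAddCommGroup H] [InnerProductSpace ℂ H] [CompleteSpace H]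
    (M : VonNeumannAlgebra H) {x : H →L[ℂ] H} (hx : x ∈ M) : x⁺ ∈ M := by
  rw [← M.commutant_commutant]
  rw [VonNeumannAlgebra.mem_commutant_iff]
  intro g hg
  have h1 : Commute x g := by
    rw [VonNeumannAlgebra.mem_commutant_iff] at hg
    exact hg x hx
  have h2 : Commute (cfcₙ (fun s : ℝ => s⁺) x) g := h1.cfcₙ_real _
  have h3 : x⁺ = cfcₙ (fun s : ℝ => s⁺) x := by rw [CFC.posPart_def]
  rw [h3]
  exact h2.symm

end P_V1

/-- Spectral projections. -/
theorem p_V_spec (hr : H759R2.Kad.F_range.{u}) : V_spec.{u} := by
  intro H _ _ _ M e he hee a ha has hea t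
  have hx : a - t • e ∈ M := by
    have h1 : (t : ℂ) • e ∈ M.toStarSubalgebra := M.toStarSubalgebra.smul_mem he _
    have h2 : a - (t : ℂ) • e ∈ M.toStarSubalgebra := sub_mem ha h1
    have h3 : (t : ℂ) • e = t • e := by
      ext v
      simp
    rw [h3] at h2
    exact h2
  obtain ⟨p, hpM, hp, hpb, hy⟩ := hr H M _ (P_V1.posPart_mem M hx)
  exact ⟨p, hpM, P_V1.core hee hea has hp hpb hy⟩

end H711R2.KG
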