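import Mathlib
import Pool.Agent.H711R2.KG.Props

/-!
V2: separation of projections by a central projection.
-/

open scoped ComplexOrder InnerProductSpace ComplexConjugate
open Finset

noncomputable section

namespace H711R2.KG

open H759R2.Kad

universe u v

namespace P_V2

variable {H : Type u} [NormedAddCommGroup H] [InnerProductSpace ℂ H] [CompleteSpace H]

/-- the closed span of the vectors `a (p ξ)` -/
def K (M : VonNeumannAlgebra H) (p : H →L[ℂ] H) : Submodule ℂ H :=
  (Submodule.span ℂ {x : H | ∃ a ∈ M, ∃ ξ : H, x = a (p ξ)}).topologicalClosure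

theorem K_le {M : VonNeumannAlgebra H} {p : H →L[ℂ] H} {L : Submodule ℂ H}
    (hL : IsClosed (L : Set H)) (h : ∀ a ∈ M, ∀ ξ : H, a (p ξ) ∈ L) : K M p ≤ L := by
  refine Submodule.topologicalClosure_minimal _ ?_ hL
  refine Submodule.span_le.mpr ?_
  rintro x ⟨a, ha, ξ, rfl⟩
  exact h a ha ξ

theorem mem_K {M : VonNeumannAlgebra H} {p : H →L[ℂ] H} {a : H →L[ℂ] H} (ha : a ∈ M) (ξ : H) :
    a (p ξ) ∈ K M p :=
  Submodule.le_topologicalClosure _ (Submodule.subset_span ⟨a, ha, ξ, rfl⟩)

theorem K_closed (M : VonNeumannAlgebra H) (p : H →L[ℂ] H) : IsClosed (K M p : Set H) :=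
  Submodule.isClosed_topologicalClosure _

instance (M : VonNeumannAlgebra H) (p : H →L[ℂ] H) : CompleteSpace (K M p) :=
  (K_closed M p).completeSpace_coe

theorem K_invt {M : VonNeumannAlgebra H} {p y : H →L[ℂ] H}
    (h : ∀ a ∈ M, ∀ ξ : H, y (a (p ξ)) ∈ K M p) :
    K M p ∈ Module.End.invtSubmodule (y : H →ₗ[ℂ] H) := by
  rw [Module.End.mem_invtSubmodule]
  refine K_le ?_ ?_
  · exact (K_closed M p).preimage y.continuous
  · intro a ha ξ
    exact h a ha ξ

end P_V2

open P_V2 in
theorem p_V_cent : V_cent.{u} := by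
  intro H _ _ _ M p hp q hq hpp hqq hqap
  let z : H →L[ℂ] H := (K M p).starProjection
  have hz : IsStarProjection z := isStarProjection_starProjection
  have hrange : z.range = K M p := Submodule.range_starProjection (K M p)
  have hzM : z ∈ M := by
    rw [VonNeumannAlgebra.IsStarProjection.mem_iff hz]
    intro y hy
    rw [hrange]
    refine K_invt ?_
    intro a ha ξ
    rw [VonNeumannAlgebra.mem_commutant_iff] at hy
    have h1 : y (a (p ξ)) = a (p (y ξ)) := by
      have h2 := hy a ha
      have h3 := hy p hp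
      have h4 : a * p * y = y * (a * p) := by
        rw [mul_assoc, h3, ← mul_assoc, h2, mul_assoc]
      exact (congrArg (fun T : H →L[ℂ] H => T ξ) h4).symm
    rw [h1]
    exact mem_K ha _
  have hzC : z ∈ M.commutant := by
    rw [VonNeumannAlgebra.IsStarProjection.mem_iff hz]
    intro y hy
    rw [VonNeumannAlgebra.commutant_commutant] at hy
    rw [hrange]
    refine K_invt ?_
    intro a ha ξ
    exact mem_K (a := y * a) (mul_mem hy ha) ξ
  have hzprj : IsPrj z := ⟨hz.isSelfAdjoint, hz.isIdempotentElem⟩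
  refine ⟨z, hzM, hzprj, ?_, ?_, ?_⟩
  · intro a ha
    exact (VonNeumannAlgebra.mem_commutant_iff.mp hzC a ha).symm
  · ext ξ
    change (K M p).starProjection (p ξ) = p ξ
    rw [Submodule.starProjection_eq_self_iff]
    exact mem_K (a := 1) (one_mem M) ξ
  · have h1 : q * z = 0 := by
      have hker : K M p ≤ LinearMap.ker (q : H →ₗ[ℂ] H) := by
        refine K_le ?_ ?_
        · exact q.isClosed_ker
        · intro a ha ξ
          have h2 := hqap a ha
          exact congrArg (fun T : H →L[ℂ] H => T ξ) h2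
      ext ξ
      have h3 : z ξ ∈ K M p := by
        rw [← hrange]
        exact ⟨ξ, rfl⟩
      exact hker h3
    have h2 := congrArg star h1
    rw [star_mul, hzprj.1, hqq.1, star_zero] at h2
    exact h2

end H711R2.KG
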