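import Mathlib
import Pool.Agent.H711R2.KG.Props
import Pool.Agent.H759R2.Kad.Props5
import Pool.Agent.H956R2.Kad4.Comp

open scoped ComplexOrder InnerProductSpace ComplexConjugate
open Finset

noncomputable section

namespace H711R2.KG

open H759R2.Kad

universe u v

theorem p_V_comp (h2 : F_polar.{u}) (h3 : F_chain.{u}) (hcent : V_cent.{u}) : V_comp.{u} := by
  intro H _ _ _ M p hp q hq hpp hqq
  obtain ⟨hps, hp2⟩ := hpp
  obtain ⟨hqs, hq2⟩ := hqq
  let P : Type u := {v : H →L[ℂ] H // v ∈ M ∧ IsPI v ∧ v * p = v ∧ q * v = v}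
  have hz : (0 : H →L[ℂ] H) ∈ M := zero_mem M
  let z : P := ⟨0, hz, by simp [IsPI], by simp, by simp⟩
  obtain ⟨v, hmax⟩ : ∃ m : P, ∀ a : P, Ext m.1 a.1 → Ext a.1 m.1 := by
    apply exists_maximal_of_chains_bounded (r := fun v w : P => Ext v.1 w.1)
    · intro c hc
      rcases c.eq_empty_or_nonempty with rfl | hne
      · exact ⟨z, by simp⟩
      · obtain ⟨V, hVM, hVP, hVe, hV0⟩ := h3 H M ((fun v : P => v.1) '' c) (hne.image _)
          (by rintro _ ⟨v, _, rfl⟩; exact ⟨v.2.1, v.2.2.1⟩)
          (by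
            rintro _ ⟨v, hv, rfl⟩ _ ⟨w, hw, rfl⟩
            by_cases hvw : v = w
            · subst hvw; exact Or.inl (F5.ext_refl v.2.2.1)
            · exact hc hv hw hvw)
        refine ⟨⟨V, hVM, hVP, ?_, ?_⟩, ?_⟩
        · have := hV0 1 (1 - p) (by
            rintro _ ⟨v, _, rfl⟩
            simp [mul_sub, v.2.2.2.1])
          simp only [one_mul, mul_sub, mul_one] at this
          exact (sub_eq_zero.1 this).symm
        · have := hV0 (1 - q) 1 (by
            rintro _ ⟨v, _, rfl⟩
            simp [sub_mul, v.2.2.2.2])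
          simp only [mul_one, sub_mul, one_mul] at this
          exact (sub_eq_zero.1 this).symm
        · intro a ha
          exact hVe _ ⟨a, ha, rfl⟩
    · intro a b c hab hbc
      exact F5.ext_trans a.2.2.1 b.2.2.1 hab hbc
  obtain ⟨v, hvM, hvPI, hvp, hqv⟩ := v
  simp only at hmax
  have hv1 : v * star v * v = v := hvPI
  have hv2 := F5.pi_star hvPI
  have hpv : p * star v = star v := by
    have := congrArg star hvp
    simpa [hps] using this
  have hvq : star v * q = star v := by
    have := congrArg star hqv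
    simpa [hqs] using this
  have hsM : star v ∈ M := star_mem hvM
  set p' := p - star v * v with hp'
  set q' := q - v * star v with hq'
  have hp'M : p' ∈ M := sub_mem hp (mul_mem hsM hvM)
  have hq'M : q' ∈ M := sub_mem hq (mul_mem hvM hsM)
  have hp's : star p' = p' := by simp [hp', hps]
  have hq's : star q' = q' := by simp [hq', hqs]
  have hpp' : p * p' = p' := by
    rw [hp', mul_sub, hp2, ← mul_assoc, hpv]
  have hp'p : p' * p = p' := by
    rw [hp', sub_mul, hp2, mul_assoc, hvp]
  have hqq' : q * q' = q' := by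
    rw [hq', mul_sub, hq2, ← mul_assoc, hqv]
  have hvp' : v * p' = 0 := by
    rw [hp', mul_sub, hvp, ← mul_assoc, hv1, sub_self]
  have hvq' : star v * q' = 0 := by
    rw [hq', mul_sub, hvq, ← mul_assoc, hv2, sub_self]
  have hp'2 : p' * p' = p' := by
    nth_rewrite 1 [hp']
    rw [sub_mul, hpp', mul_assoc, hvp', mul_zero, sub_zero]
  have hq'2 : q' * q' = q' := by
    nth_rewrite 1 [hq']
    rw [sub_mul, hqq', mul_assoc, hvq', mul_zero, sub_zero]
  have hzero : ∀ a ∈ M, q' * a * p' = 0 := by
    intro a haM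
    by_contra ha
    obtain ⟨w, hwM, hwPI, hw1, hw2, hw3⟩ :=
      h2 H M (q' * a * p') (mul_mem (mul_mem hq'M haM) hp'M)
    have hw0 : w ≠ 0 := by
      intro h
      apply ha
      rw [← hw1, h]; simp
    have hq'w : q' * w = w := by
      have := hw2 (1 - q') (by
        rw [sub_mul, one_mul, ← mul_assoc, ← mul_assoc, hq'2, sub_self])
      rw [sub_mul, one_mul] at this
      exact (sub_eq_zero.1 this).symm
    have hwp' : w * p' = w := by
      have := hw3 (1 - p') (by
        rw [mul_sub, mul_one, mul_assoc (q' * a), hp'2, sub_self])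
      rw [mul_sub, mul_one] at this
      exact (sub_eq_zero.1 this).symm
    have hww : w * star w * w = w := hwPI
    have hvw : star v * w = 0 := by rw [← hq'w, ← mul_assoc, hvq', zero_mul]
    have hwv : star w * v = 0 := by
      have := congrArg star hvw
      simpa using this
    have hp'w : p' * star w = star w := by
      have := congrArg star hwp'
      simpa [hp's] using this
    have hvws : v * star w = 0 := by rw [← hp'w, ← mul_assoc, hvp', zero_mul]
    have hwvs : w * star v = 0 := by
      have := congrArg star hvws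
      simpa using this
    have hsq : star (v + w) * (v + w) = star v * v + star w * w := by
      rw [star_add, add_mul, mul_add, mul_add, hvw, hwv]; simp
    have hnPI : IsPI (v + w) := by
      show (v + w) * star (v + w) * (v + w) = v + w
      rw [mul_assoc, hsq, add_mul, mul_add, mul_add, ← mul_assoc, ← mul_assoc, ← mul_assoc,
        ← mul_assoc, hv1, hww, hvws, hwvs]
      simp
    have hnp : (v + w) * p = v + w := by
      rw [add_mul, hvp]
      nth_rewrite 1 [← hwp']
      rw [mul_assoc, hp'p, hwp']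
    have hnq : q * (v + w) = v + w := by
      rw [mul_add, hqv]
      nth_rewrite 1 [← hq'w]
      rw [← mul_assoc, hqq', hq'w]
    have hext : Ext v (v + w) := by
      show (v + w) * (star v * v) = v
      rw [add_mul, ← mul_assoc, ← mul_assoc, hv1, hwvs]; simp
    have hfin := hmax ⟨v + w, add_mem hvM hwM, hnPI, hnp, hnq⟩ hext
    have hfin' : v * (star (v + w) * (v + w)) = v + w := hfin
    rw [hsq, mul_add, ← mul_assoc, ← mul_assoc, hv1, hvws, zero_mul, add_zero] at hfin'
    exact hw0 (by simpa using hfin'.symm)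
  obtain ⟨z0, hz0M, ⟨hz0s, hz02⟩, hz0c, hz0p, hz0q⟩ :=
    hcent H M p' hp'M q' hq'M ⟨hp's, hp'2⟩ ⟨hq's, hq'2⟩ hzero
  have e1 : z0 * q = z0 * (v * star v) := by
    rw [hq', mul_sub, sub_eq_zero] at hz0q
    exact hz0q
  have e2 : (1 - z0) * p = (1 - z0) * (star v * v) := by
    have : (1 - z0) * p' = 0 := by rw [sub_mul, one_mul, hz0p, sub_self]
    rw [hp', mul_sub, sub_eq_zero] at this
    exact this
  have h1M : (1 : H →L[ℂ] H) ∈ M := one_mem M
  have hc' : ∀ a ∈ M, (1 - z0) * a = a * (1 - z0) := by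
    intro a ha
    rw [sub_mul, mul_sub, hz0c a ha, one_mul, mul_one]
  have hs' : star (1 - z0) = 1 - z0 := by rw [star_sub, star_one, hz0s]
  have hi' : (1 - z0) * (1 - z0) = 1 - z0 := by
    rw [sub_mul, one_mul, mul_sub, mul_one, hz02, sub_self, sub_zero]
  refine ⟨1 - z0, sub_mem h1M hz0M, ⟨hs', hi'⟩, hc', ⟨(1 - z0) * v,
    mul_mem (sub_mem h1M hz0M) hvM, ?_, ?_⟩, ⟨star v * z0, mul_mem hsM hz0M, ?_, ?_⟩⟩
  · rw [star_mul, hs', mul_assoc, ← mul_assoc (1 - z0) (1 - z0) v, hi', e2, ← mul_assoc,
      ← hc' (star v) hsM, mul_assoc]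
  · rw [mul_assoc (1 - z0) q, ← mul_assoc q, ← hc' q hq, mul_assoc (1 - z0) q v, hqv,
      ← mul_assoc, hi']
  · rw [star_mul, star_star, hz0s, sub_sub_cancel, mul_assoc, ← mul_assoc v, e1,
      ← hz0c (v * star v) (mul_mem hvM hsM), ← mul_assoc, hz02]
  · rw [sub_sub_cancel, mul_assoc z0 p, ← mul_assoc p, hpv, ← hz0c (star v) hsM, ← mul_assoc,
      hz02]

end H711R2.KG
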