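import Mathlib
import Pool.Agent.H711R2.KG.Props
import Pool.Agent.H241R2.Kad4.Half

/-! Halving up to an abelian projection (task V4, helper439), adapted from the file of helper241. -/

open scoped ComplexOrder InnerProductSpace ComplexConjugate
open Finset

noncomputable section

namespace H711R2.KG

open H759R2.Kad

universe u v

namespace P_V4

variable {H : Type u} [NormedAddCommGroup H] [InnerProductSpace ℂ H] [CompleteSpace H]

theorem mul_source (w r : H →L[ℂ] H) (h : star w * w = r) (hr : IsPrj r) : w * r = w := by
  have h4 : star (w - w * r) * (w - w * r) = 0 := by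
    have h5 : star (w - w * r) * (w - w * r) =
        star w * w - star w * w * r - star r * (star w * w) +
          star r * (star w * w) * r := by
      simp only [star_sub, star_mul]
      noncomm_ring
    rw [h5, h, hr.1, hr.2, hr.2]
    noncomm_ring
  exact (sub_eq_zero.1 (HF.star_mul_zero _ h4)).symm

end P_V4

theorem p_V_half (hch : F_chain.{u}) (hcomp : V_comp.{u}) : V_half.{u} := by
  intro H _ _ _ M e heM he
  let P : Type u := {v : H →L[ℂ] H // v ∈ M ∧ IsPI v ∧ v * v = 0 ∧ e * v = v ∧ v * e = v}
  let r : P → P → Prop := fun x y => Ext x.1 y.1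
  obtain ⟨⟨v, hvM, hv, hvv, hev, hve⟩, hmax⟩ : ∃ m : P, ∀ a, r m a → r a m := by
    apply exists_maximal_of_chains_bounded
    · intro c hc
      rcases c.eq_empty_or_nonempty with rfl | hne
      · exact ⟨⟨0, zero_mem M, by simp [IsPI], by simp, by simp, by simp⟩, by simp⟩
      · obtain ⟨V, hVM, hV, hVC, hVz⟩ := hch H M (Subtype.val '' c) (hne.image _)
          (by rintro _ ⟨x, _, rfl⟩; exact ⟨x.2.1, x.2.2.1⟩)
          (by
            rintro _ ⟨x, hx, rfl⟩ _ ⟨y, hy, rfl⟩
            by_cases hxy : x = y
            · subst hxy
              left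
              have := x.2.2.1
              unfold IsPI at this
              unfold H759R2.Kad.Ext
              rw [← mul_assoc]
              exact this
            · exact hc hx hy hxy)
        have hz : ∀ x ∈ c, ∀ y ∈ c, (x.1 : H →L[ℂ] H) * y.1 = 0 := by
          intro x hx y hy
          by_cases hxy : x = y
          · subst hxy
            exact x.2.2.2.1
          · rcases hc hx hy hxy with h | h
            · -- y extends x
              have h' : Ext x.1 y.1 := h
              have hp := HF.ext_proj x.2.2.1 y.2.2.1 h'
              have hp' : (star x.1 * x.1) * (star y.1 * y.1) = star x.1 * x.1 := by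
                have := congrArg star hp
                simpa [mul_assoc] using this
              unfold H759R2.Kad.Ext at h'
              calc x.1 * y.1 = (y.1 * (star x.1 * x.1)) * y.1 := by rw [h']
                _ = y.1 * ((star x.1 * x.1) * (star y.1 * y.1)) * y.1 := by
                    rw [hp']
                _ = y.1 * ((star x.1 * x.1) * (star y.1)) * (y.1 * y.1) := by noncomm_ring
                _ = 0 := by rw [y.2.2.2.1, mul_zero]
            · -- x extends y
              have h' : Ext y.1 x.1 := h
              unfold H759R2.Kad.Ext at h'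
              calc x.1 * y.1 = x.1 * (x.1 * (star y.1 * y.1)) := by rw [h']
                _ = (x.1 * x.1) * (star y.1 * y.1) := by noncomm_ring
                _ = 0 := by rw [x.2.2.2.1, zero_mul]
        have hxV : ∀ x ∈ c, (x.1 : H →L[ℂ] H) * V = 0 := by
          intro x hx
          have := hVz x.1 1 (by
            rintro _ ⟨y, hy, rfl⟩
            rw [hz x hx y hy, zero_mul])
          simpa using this
        have hVV : V * V = 0 := by
          have := hVz 1 V (by
            rintro _ ⟨y, hy, rfl⟩
            rw [one_mul, hxV y hy])
          simpa using this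
        have hVe : e * V = V := by
          have := hVz (1 - e) 1 (by
            rintro _ ⟨y, hy, rfl⟩
            rw [mul_one, sub_mul, one_mul, y.2.2.2.2.1, sub_self])
          rw [mul_one, sub_mul, one_mul] at this
          exact (sub_eq_zero.1 this).symm
        have hVe' : V * e = V := by
          have := hVz 1 (1 - e) (by
            rintro _ ⟨y, hy, rfl⟩
            rw [one_mul, mul_sub, mul_one, y.2.2.2.2.2, sub_self])
          rw [one_mul, mul_sub, mul_one] at this
          exact (sub_eq_zero.1 this).symm
        refine ⟨⟨V, hVM, hV, hVV, hVe, hVe'⟩, fun a ha => hVC _ ⟨a, ha, rfl⟩⟩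
    · intro a b c hab hbc
      exact HF.ext_trans a.2.2.1 b.2.2.1 hab hbc
  obtain ⟨he1, he2⟩ := he
  have hsM : star v ∈ M := star_mem hvM
  set q : H →L[ℂ] H := e - star v * v - v * star v with hq
  have hqM : q ∈ M := sub_mem (sub_mem heM (mul_mem hsM hvM)) (mul_mem hvM hsM)
  unfold IsPI at hv
  have hv' : star v * v * star v = star v := by
    have := congrArg star hv
    simpa [mul_assoc] using this
  have hss : star v * star v = 0 := by
    have := congrArg star hvv
    simpa using this
  have hsve : star v * e = star v := by
    have := congrArg star hev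
    simpa [he1] using this
  have hesv : e * star v = star v := by
    have := congrArg star hve
    simpa [he1] using this
  have hvq : v * q = 0 := by
    calc v * q = v * e - v * star v * v - (v * v) * star v := by rw [hq]; noncomm_ring
      _ = 0 := by rw [hv, hvv, hve]; simp
  have hqv : q * v = 0 := by
    calc q * v = e * v - star v * (v * v) - v * star v * v := by rw [hq]; noncomm_ring
      _ = 0 := by rw [hv, hvv, hev]; simp
  have hsq : star q = q := by
    rw [hq]; simp [he1]
  have hqsv : q * star v = 0 := by
    have := congrArg star hvq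
    simpa [hsq] using this
  have hsvq : star v * q = 0 := by
    have := congrArg star hqv
    simpa [hsq] using this
  have heq : e * q = q := by
    calc e * q = e * e - (e * star v) * v - (e * v) * star v := by rw [hq]; noncomm_ring
      _ = q := by rw [he2, hesv, hev]
  have hqe : q * e = q := by
    have := congrArg star heq
    simpa [hsq, he1] using this
  have hqq : q * q = q := by
    calc q * q = q * e - (q * star v) * v - (q * v) * star v := by
          conv_lhs =>
            arg 2
            rw [hq]
          noncomm_ring
      _ = q := by rw [hqsv, hqv, hqe]; simp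
  -- no extension
  have hK : ∀ w ∈ M, w * star w * w = w → q * w = w → w * q = w → w * w = 0 → w = 0 := by
    intro w hwM hwp hqw hwq hww
    have hvw : v * w = 0 := by rw [← hqw, ← mul_assoc, hvq, zero_mul]
    have hwv : w * v = 0 := by rw [← hwq, mul_assoc, hqv, mul_zero]
    have hswv : star w * v = 0 := by
      have h1 : star w = star w * q := by
        have := congrArg star hqw
        simpa [hsq] using this.symm
      rw [h1, mul_assoc, hqv, mul_zero]
    have hsvw : star v * w = 0 := by
      have := congrArg star hswv
      simpa using this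
    have hvsw : v * star w = 0 := by
      have h1 : star w = q * star w := by
        have := congrArg star hwq
        simpa [hsq] using this.symm
      rw [h1, ← mul_assoc, hvq, zero_mul]
    have hwsv : w * star v = 0 := by
      have := congrArg star hvsw
      simpa using this
    have hew : e * w = w := by rw [← hqw, ← mul_assoc, heq]
    have hwe : w * e = w := by rw [← hwq, mul_assoc, hqe]
    let m' : P := ⟨v + w, add_mem hvM hwM, by
      unfold IsPI
      calc (v + w) * star (v + w) * (v + w)
          = v * star v * v + v * (star v * w) + (v * star w) * (v + w) + (w * star v) * (v + w)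
            + w * (star w * v) + w * star w * w := by
            simp only [star_add]; noncomm_ring
        _ = v + w := by rw [hv, hsvw, hvsw, hwsv, hswv, hwp]; simp, by
      calc (v + w) * (v + w) = v * v + v * w + w * v + w * w := by noncomm_ring
        _ = 0 := by rw [hvv, hvw, hwv, hww]; simp, by
      rw [mul_add, hev, hew], by
      rw [add_mul, hve, hwe]⟩
    have hm := hmax m' (by
      change (v + w) * (star v * v) = v
      calc (v + w) * (star v * v) = v * star v * v + (w * star v) * v := by noncomm_ring
        _ = v := by rw [hv, hwsv]; simp)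
    have hm' : v * (star (v + w) * (v + w)) = v + w := hm
    have h6 : v * (star (v + w) * (v + w)) = v := by
      calc v * (star (v + w) * (v + w))
          = v * star v * v + v * (star v * w) + (v * star w) * (v + w) := by
            simp only [star_add]; noncomm_ring
        _ = v := by rw [hv, hsvw, hvsw]; simp
    rw [h6] at hm'
    have h5 : v + w = v + 0 := by rw [← hm', add_zero]
    exact add_left_cancel h5
  refine ⟨v, hvM, hev, hve, hvv, ⟨by simp, ?_⟩, ?_⟩
  · calc (star v * v) * (star v * v) = (star v * v * star v) * v := by noncomm_ring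
      _ = star v * v := by rw [hv']
  · intro p hpM hp hqp
    obtain ⟨hp1, hp2⟩ := hp
    have hpq : p * q = p := by
      have := congrArg star hqp
      rw [star_mul, hp1, hsq] at this
      exact this
    set p' : H →L[ℂ] H := q - p with hp'
    have hp'M : p' ∈ M := sub_mem hqM hpM
    have hp'1 : star p' = p' := by rw [hp', star_sub, hsq, hp1]
    have hp'2 : p' * p' = p' := by
      calc p' * p' = q * q - q * p - p * q + p * p := by rw [hp']; noncomm_ring
        _ = p' := by rw [hqq, hqp, hpq, hp2, hp']; noncomm_ring
    have hpp' : p * p' = 0 := by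
      rw [hp', mul_sub, hpq, hp2, sub_self]
    have hp'p : p' * p = 0 := by
      rw [hp', sub_mul, hqp, hp2, sub_self]
    have hqp' : q * p' = p' := by
      rw [hp', mul_sub, hqq, hqp]
    have hp'q : p' * q = p' := by
      rw [hp', sub_mul, hqq, hpq]
    obtain ⟨z, hzM, ⟨hz1, hz2⟩, hzc, ⟨v1, hv1M, hv1a, hv1b⟩, v2, hv2M, hv2a, hv2b⟩ :=
      hcomp H M p hpM p' hp'M ⟨hp1, hp2⟩ ⟨hp'1, hp'2⟩
    have h1zM : 1 - z ∈ M := sub_mem (one_mem M) hzM
    have h1zc : ∀ a ∈ M, (1 - z) * a = a * (1 - z) := by
      intro a ha
      rw [sub_mul, mul_sub, one_mul, mul_one, hzc a ha]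
    have h1z1 : star (1 - z) = 1 - z := by rw [star_sub, star_one, hz1]
    have h1z2 : (1 - z) * (1 - z) = 1 - z := by
      calc (1 - z) * (1 - z) = 1 - z - z + z * z := by noncomm_ring
        _ = 1 - z := by rw [hz2]; noncomm_ring
    -- products of central projections with projections
    have hprj : ∀ y : H →L[ℂ] H, y ∈ M → star y = y → y * y = y → ∀ t : H →L[ℂ] H, star t = t →
        t * t = t → (∀ a ∈ M, t * a = a * t) → IsPrj (t * y) := by
      intro y hyM hy1 hy2 t ht1 ht2 htc
      refine ⟨by rw [star_mul, ht1, hy1, htc y hyM], ?_⟩
      calc t * y * (t * y) = t * (y * t) * y := by noncomm_ring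
        _ = t * (t * y) * y := by rw [htc y hyM]
        _ = (t * t) * (y * y) := by noncomm_ring
        _ = t * y := by rw [ht2, hy2]
    -- the first partial isometry vanishes
    have hv1s := P_V4.mul_source v1 (z * p) hv1a (hprj p hpM hp1 hp2 z hz1 hz2 hzc)
    have hv10 : v1 = 0 := by
      apply hK v1 hv1M
      · rw [mul_assoc, hv1a, hv1s]
      · calc q * v1 = q * (z * p' * v1) := by rw [hv1b]
          _ = (q * z) * p' * v1 := by noncomm_ring
          _ = (z * q) * p' * v1 := by rw [hzc q hqM]
          _ = z * (q * p') * v1 := by noncomm_ring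
          _ = v1 := by rw [hqp', hv1b]
      · calc v1 * q = v1 * (z * p) * q := by rw [hv1s]
          _ = v1 * (z * (p * q)) := by noncomm_ring
          _ = v1 := by rw [hpq, hv1s]
      · calc v1 * v1 = (v1 * (z * p)) * (z * p' * v1) := by rw [hv1s, hv1b]
          _ = v1 * (z * (p * z)) * p' * v1 := by noncomm_ring
          _ = v1 * (z * (z * p)) * p' * v1 := by rw [hzc p hpM]
          _ = v1 * (z * z) * (p * p') * v1 := by noncomm_ring
          _ = 0 := by rw [hpp']; simp
    have hzp : z * p = 0 := by
      rw [← hv1a, hv10]
      simp
    have hv2s := P_V4.mul_source v2 ((1 - z) * p') hv2a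
      (hprj p' hp'M hp'1 hp'2 (1 - z) h1z1 h1z2 h1zc)
    have hv20 : v2 = 0 := by
      apply hK v2 hv2M
      · rw [mul_assoc, hv2a, hv2s]
      · calc q * v2 = q * ((1 - z) * p * v2) := by rw [hv2b]
          _ = (q * (1 - z)) * p * v2 := by noncomm_ring
          _ = ((1 - z) * q) * p * v2 := by rw [h1zc q hqM]
          _ = (1 - z) * (q * p) * v2 := by noncomm_ring
          _ = v2 := by rw [hqp, hv2b]
      · calc v2 * q = v2 * ((1 - z) * p') * q := by rw [hv2s]
          _ = v2 * ((1 - z) * (p' * q)) := by noncomm_ring
          _ = v2 := by rw [hp'q, hv2s]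
      · calc v2 * v2 = (v2 * ((1 - z) * p')) * ((1 - z) * p * v2) := by rw [hv2s, hv2b]
          _ = v2 * ((1 - z) * (p' * (1 - z))) * p * v2 := by noncomm_ring
          _ = v2 * ((1 - z) * ((1 - z) * p')) * p * v2 := by rw [h1zc p' hp'M]
          _ = v2 * ((1 - z) * (1 - z)) * (p' * p) * v2 := by noncomm_ring
          _ = 0 := by rw [hp'p]; simp
    have h1zp' : (1 - z) * p' = 0 := by
      rw [← hv2a, hv20]
      simp
    refine ⟨1 - z, h1zM, ⟨h1z1, h1z2⟩, h1zc, ?_⟩
    have h7 : (1 - z) * q = (1 - z) * p := by
      have h8 : (1 - z) * q - (1 - z) * p = 0 := by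
        rw [← mul_sub]
        exact h1zp'
      exact sub_eq_zero.1 h8
    rw [h7, sub_mul, one_mul, hzp, sub_zero]

end H711R2.KG
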