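import Mathlib
import Pool.Agent.H711R2.KG.Props

/-!
Task V5 (helper648): concrete von Neumann algebras satisfy `IsVN` (transfer to subtypes).
-/

open scoped ComplexOrder InnerProductSpace ComplexConjugate
open Finset

noncomputable section

namespace H711R2.KG

open H759R2.Kad

universe u

namespace P_V5

theorem gen_nonneg {S B : Type u} [CStarAlgebra S] [PartialOrder S] [StarOrderedRing S]
    [CStarAlgebra B] [PartialOrder B] [StarOrderedRing B] (f : S → B)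
    (hsa : ∀ x, IsSelfAdjoint x ↔ IsSelfAdjoint (f x))
    (hsp : ∀ x, spectrum ℂ x = spectrum ℂ (f x)) (x : S) : 0 ≤ x ↔ 0 ≤ f x := by
  by_cases hx : IsSelfAdjoint x
  · have hx' := (hsa x).1 hx
    rw [StarOrderedRing.nonneg_iff_spectrum_nonneg (R := ℝ) x hx,
      StarOrderedRing.nonneg_iff_spectrum_nonneg (R := ℝ) (f x) hx']
    have h1 : spectrum ℝ x = spectrum ℝ (f x) := by
      rw [← spectrum.preimage_algebraMap ℂ, ← spectrum.preimage_algebraMap (a := f x) ℂ, hsp]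
    rw [h1]
  · constructor
    · intro h
      exact (hx (IsSelfAdjoint.of_nonneg h)).elim
    · intro h
      exact (hx ((hsa x).2 (IsSelfAdjoint.of_nonneg h))).elim

theorem gen_le {S B : Type u} [CStarAlgebra S] [PartialOrder S] [StarOrderedRing S]
    [CStarAlgebra B] [PartialOrder B] [StarOrderedRing B] (f : S → B)
    (hsa : ∀ x, IsSelfAdjoint x ↔ IsSelfAdjoint (f x))
    (hsp : ∀ x, spectrum ℂ x = spectrum ℂ (f x)) (hsub : ∀ x y, f (x - y) = f x - f y)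
    (x y : S) : x ≤ y ↔ f x ≤ f y := by
  rw [← sub_nonneg, gen_nonneg f hsa hsp, ← sub_nonneg (a := f y), hsub]

variable {H : Type u} [NormedAddCommGroup H] [InnerProductSpace ℂ H] [CompleteSpace H]
  (M : VonNeumannAlgebra H)

theorem sa_iff (x : M.toStarSubalgebra) : IsSelfAdjoint x ↔ IsSelfAdjoint (x : H →L[ℂ] H) := by
  constructor
  · intro h
    have := congrArg (Subtype.val) h.star_eq
    exact this
  · intro h
    exact Subtype.ext h.star_eq

theorem le_iff [iP : PartialOrder M.toStarSubalgebra] [StarOrderedRing M.toStarSubalgebra]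
    (x y : M.toStarSubalgebra) :
    @LE.le M.toStarSubalgebra iP.toPreorder.toLE x y ↔ (x : H →L[ℂ] H) ≤ (y : H →L[ℂ] H) :=
  gen_le (S := M.toStarSubalgebra) (B := H →L[ℂ] H) (fun x => (x : H →L[ℂ] H)) (sa_iff M)
    (fun x => StarSubalgebra.spectrum_eq (S := M.toStarSubalgebra)) (fun _ _ => rfl) x y

theorem prj_iff (x : M.toStarSubalgebra) : IsPrj x ↔ IsPrj (x : H →L[ℂ] H) := by
  constructor
  · intro h
    exact ⟨congrArg Subtype.val h.1, congrArg Subtype.val h.2⟩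
  · intro h
    exact ⟨Subtype.ext h.1, Subtype.ext h.2⟩

end P_V5

open P_V5

theorem p_V_main (hspec : V_spec.{u}) (hcomp : V_comp.{u}) (hhalf : V_half.{u}) : V_main.{u} := by
  intro H _ _ _ M _ _
  refine ⟨?_, ?_, ?_⟩
  · intro e he a ha hea t
    obtain ⟨p, hpM, hp1, hp2, hp3, hp4, hp5⟩ := hspec H M e e.2 ((prj_iff M e).1 he) a a.2
      ((sa_iff M a).1 ha) (congrArg Subtype.val hea) t
    refine ⟨⟨p, hpM⟩, (prj_iff M _).2 hp1, Subtype.ext hp2, Subtype.ext hp3, ?_, ?_⟩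
    · exact (le_iff M _ _).2 hp4
    · exact (le_iff M _ _).2 hp5
  · intro p q hp hq
    obtain ⟨z, hzM, hz1, hz2, ⟨v, hvM, hv1, hv2⟩, ⟨w, hwM, hw1, hw2⟩⟩ :=
      hcomp H M p p.2 q q.2 ((prj_iff M p).1 hp) ((prj_iff M q).1 hq)
    refine ⟨⟨z, hzM⟩, (prj_iff M _).2 hz1, fun a => Subtype.ext (hz2 a a.2),
      ⟨⟨v, hvM⟩, Subtype.ext hv1, Subtype.ext hv2⟩, ⟨⟨w, hwM⟩, Subtype.ext hw1, Subtype.ext hw2⟩⟩
  · intro e he
    obtain ⟨v, hvM, hv1, hv2, hv3, hv4, hv5⟩ := hhalf H M e e.2 ((prj_iff M e).1 he)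
    refine ⟨⟨v, hvM⟩, Subtype.ext hv1, Subtype.ext hv2, Subtype.ext hv3, (prj_iff M _).2 hv4, ?_⟩
    intro p hp hpe
    obtain ⟨z, hzM, hz1, hz2, hz3⟩ := hv5 p p.2 ((prj_iff M p).1 hp) (congrArg Subtype.val hpe)
    exact ⟨⟨z, hzM⟩, (prj_iff M _).2 hz1, fun a => Subtype.ext (hz2 a a.2), Subtype.ext hz3⟩

end H711R2.KG
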