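import Mathlib
import Pool.Agent.H711R2.KG.Props

/-! Task A3 (helper640): words. -/

open scoped ComplexOrder InnerProductSpace ComplexConjugate
open Finset

noncomputable section

namespace H711R2.KG

universe u

namespace P_A3

theorem step {B : Type u} [CStarAlgebra B] [PartialOrder B] [StarOrderedRing B]
    (k m : ℕ) (r : Fin k → B) (s : Fin m → B) (ρ σ : ℝ) (hρ : 0 ≤ ρ) (hσ : 0 ≤ σ)
    (hr : ∑ i, star (r i) * r i = 1) (hrn : ‖∑ i, r i * star (r i)‖ ≤ ρ)
    (hs : ∑ i, star (s i) * s i = 1) (hsn : ‖∑ i, s i * star (s i)‖ ≤ σ) :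
    ∃ t : Fin (k * m) → B, ∑ i, star (t i) * t i = 1 ∧ ‖∑ i, t i * star (t i)‖ ≤ ρ * σ := by
  refine ⟨fun x => r (finProdFinEquiv.symm x).1 * s (finProdFinEquiv.symm x).2, ?_, ?_⟩
  · rw [← finProdFinEquiv.sum_comp]
    simp only [Equiv.symm_apply_apply]
    rw [Fintype.sum_prod_type_right]
    have : ∀ y : Fin m, ∑ x : Fin k, star (r x * s y) * (r x * s y) = star (s y) * s y := by
      intro y
      have h1 : ∀ x : Fin k, star (r x * s y) * (r x * s y) =
          star (s y) * ((star (r x) * r x) * s y) := by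
        intro x
        rw [star_mul]
        simp only [mul_assoc]
      rw [Finset.sum_congr rfl fun x _ => h1 x, ← Finset.mul_sum, ← Finset.sum_mul, hr, one_mul]
    rw [Finset.sum_congr rfl fun y _ => this y, hs]
  · rw [← finProdFinEquiv.sum_comp]
    simp only [Equiv.symm_apply_apply]
    rw [Fintype.sum_prod_type]
    set S : B := ∑ i, s i * star (s i) with hS
    have hS0 : 0 ≤ S := Finset.sum_nonneg fun i _ => mul_star_self_nonneg (s i)
    have h1 : ∀ x : Fin k, ∑ y : Fin m, r x * s y * star (r x * s y) = r x * S * star (r x) := by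
      intro x
      rw [hS, Finset.mul_sum, Finset.sum_mul]
      refine Finset.sum_congr rfl fun y _ => ?_
      rw [star_mul]
      simp only [mul_assoc]
    rw [Finset.sum_congr rfl fun x _ => h1 x]
    have h2 : S ≤ algebraMap ℝ B ‖S‖ := IsSelfAdjoint.le_algebraMap_norm_self (IsSelfAdjoint.of_nonneg hS0)
    have h3 : ∑ x, r x * S * star (r x) ≤ ‖S‖ • ∑ x, r x * star (r x) := by
      rw [Finset.smul_sum]
      refine Finset.sum_le_sum fun x _ => ?_
      have := star_right_conjugate_le_conjugate h2 (r x)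
      rw [Algebra.algebraMap_eq_smul_one, mul_smul_comm, mul_one, smul_mul_assoc] at this
      exact this
    have h4 : 0 ≤ ∑ x, r x * S * star (r x) :=
      Finset.sum_nonneg fun x _ => star_right_conjugate_nonneg hS0 (r x)
    have h5 := CStarAlgebra.norm_le_norm_of_nonneg_of_le h4 h3
    rw [norm_smul, norm_norm] at h5
    calc ‖∑ x, r x * S * star (r x)‖ ≤ ‖S‖ * ‖∑ x, r x * star (r x)‖ := h5
      _ ≤ σ * ρ := mul_le_mul hsn hrn (norm_nonneg _) hσ
      _ = ρ * σ := mul_comm _ _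

end P_A3

theorem p_A_word : A_word.{u} := by
  intro B _ _ _ k r ρ hρ0 hρ1 hr hrn ε hε
  have key : ∀ N : ℕ, ∃ (m : ℕ) (s : Fin m → B), ∑ i, star (s i) * s i = 1 ∧
      ‖∑ i, s i * star (s i)‖ ≤ ρ ^ (N + 1) := by
    intro N
    induction N with
    | zero => exact ⟨k, r, hr, by simpa using hrn⟩
    | succ N ih =>
      obtain ⟨m, s, h1, h2⟩ := ih
      obtain ⟨t, h3, h4⟩ := P_A3.step k m r s ρ (ρ ^ (N + 1)) hρ0 (pow_nonneg hρ0 _) hr hrn h1 h2
      exact ⟨k * m, t, h3, h4.trans_eq (by ring)⟩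
  obtain ⟨N, hN⟩ := exists_pow_lt_of_lt_one hε hρ1
  obtain ⟨m, s, h1, h2⟩ := key N
  refine ⟨m, s, h1, h2.trans ?_⟩
  calc ρ ^ (N + 1) = ρ ^ N * ρ := pow_succ ρ N
    _ ≤ ρ ^ N * 1 := mul_le_mul_of_nonneg_left hρ1.le (pow_nonneg hρ0 _)
    _ ≤ ε := by rw [mul_one]; exact hN.le

end H711R2.KG
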