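import Mathlib
import Pool.Agent.H711R2.KG.Props
import Pool.Agent.H57R2.Kad2.Col

/-! Task A5: level bounds from words (helper114). -/

open scoped ComplexOrder InnerProductSpace ComplexConjugate
open Finset

noncomputable section

namespace H711R2.KG

open H759R2.Kad

universe u v

namespace P_A5

section norms

variable {B : Type u} [CStarAlgebra B] [PartialOrder B] [StarOrderedRing B]

/-- The norm of a matrix is at most the sum of the norms of the entries. -/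
theorem norm_le_sum {n : Type} [Fintype n] (M : CStarMatrix n n B) :
    ‖M‖ ≤ ∑ j, ∑ i, ‖M i j‖ := by
  rw [CStarMatrix.norm_def]
  refine (CStarMatrix.toCLM M).opNorm_le_bound (by positivity) fun v => ?_
  simp only [CStarMatrix.toCLM_apply_eq_sum, Finset.sum_mul]
  refine (WithCStarModule.pi_norm_le_sum_norm _).trans ?_
  gcongr with i _
  refine (norm_sum_le _ _).trans ?_
  gcongr with j _
  refine (norm_mul_le _ _).trans ?_
  rw [mul_comm]
  gcongr
  exact WithCStarModule.norm_apply_le_norm v j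

open WithCStarModule in
theorem pi_norm_sq' {n : Type} [Fintype n] (v : C⋆ᵐᵒᵈ(B, n → B)) :
    ‖v‖ ^ 2 = ‖∑ i, v i * star (v i)‖ := by
  rw [WithCStarModule.pi_norm_sq]
  rfl

/-- Compression of a matrix by a column with `∑ s* s = 1`. -/
def sandw {N m : ℕ} (s : Fin N → B) (X : CStarMatrix (Fin m) (Fin m) B) :
    CStarMatrix (Fin N × Fin m) (Fin N × Fin m) B :=
  CStarMatrix.ofMatrix fun a b => s a.1 * X a.2 b.2 * star (s b.1)

omit [PartialOrder B] [StarOrderedRing B] in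
theorem sandw_apply {N m : ℕ} (s : Fin N → B) (X : CStarMatrix (Fin m) (Fin m) B)
    (a b : Fin N × Fin m) : sandw s X a b = s a.1 * X a.2 b.2 * star (s b.1) := rfl

open WithCStarModule in
theorem norm_sandw {N m : ℕ} (s : Fin N → B) (hs : ∑ i, star (s i) * s i = 1)
    (X : CStarMatrix (Fin m) (Fin m) B) : ‖sandw s X‖ ≤ ‖X‖ := by
  rw [CStarMatrix.norm_def]
  refine (CStarMatrix.toCLM (sandw s X)).opNorm_le_bound (norm_nonneg _) fun v => ?_
  set R : C⋆ᵐᵒᵈ(B, Fin m → B) → C⋆ᵐᵒᵈ(B, Fin N × Fin m → B) := fun u =>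
    (equiv B (Fin N × Fin m → B)).symm fun b => u b.2 * star (s b.1) with hR
  set L : C⋆ᵐᵒᵈ(B, Fin m → B) :=
    (equiv B (Fin m → B)).symm fun i => ∑ q, v (q, i) * s q with hL
  have hRn : ∀ u, ‖R u‖ = ‖u‖ := by
    intro u
    have h1 : ‖R u‖ ^ 2 = ‖u‖ ^ 2 := by
      rw [pi_norm_sq', pi_norm_sq', Fintype.sum_prod_type, Finset.sum_comm]
      congr 1
      refine Finset.sum_congr rfl fun j _ => ?_
      have h2 : ∀ p, R u (p, j) * star (R u (p, j)) = u j * (star (s p) * s p) * star (u j) := by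
        intro p
        have h3 : R u (p, j) = u j * star (s p) := rfl
        rw [h3, star_mul, star_star]
        simp only [mul_assoc]
      simp only [h2]
      rw [← Finset.sum_mul, ← Finset.mul_sum, hs, mul_one]
    exact (pow_left_inj₀ (norm_nonneg _) (norm_nonneg _) two_ne_zero).1 h1
  have hY : CStarMatrix.toCLM (sandw s X) v = R (CStarMatrix.toCLM X L) := by
    rw [CStarMatrix.toCLM_apply_eq_sum, CStarMatrix.toCLM_apply_eq_sum]
    ext b
    have h1 : ((equiv B (Fin N × Fin m → B)).symm fun j => ∑ i, v i * sandw s X i j) b =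
        ∑ i, v i * sandw s X i b := rfl
    have h2 : R ((equiv B (Fin m → B)).symm fun j => ∑ i, L i * X i j) b =
        (∑ i, L i * X i b.2) * star (s b.1) := rfl
    rw [h1, h2, Fintype.sum_prod_type, Finset.sum_comm, Finset.sum_mul]
    refine Finset.sum_congr rfl fun i _ => ?_
    have h3 : L i = ∑ q, v (q, i) * s q := rfl
    rw [h3, Finset.sum_mul, Finset.sum_mul]
    refine Finset.sum_congr rfl fun q _ => ?_
    rw [sandw_apply]
    simp only [mul_assoc]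
  have hLn : ‖L‖ ≤ ‖v‖ := by
    have h1 : ⟪L, L⟫_B = ⟪v, R L⟫_B := by
      rw [pi_inner, pi_inner, Fintype.sum_prod_type, Finset.sum_comm]
      refine Finset.sum_congr rfl fun i _ => ?_
      have h3 : L i = ∑ q, v (q, i) * s q := rfl
      have h4 : ⟪L i, L i⟫_B = L i * star (L i) := rfl
      have h5 : ∀ q, ⟪v (q, i), R L (q, i)⟫_B = L i * star (s q) * star (v (q, i)) :=
        fun q => rfl
      simp only [h4, h5]
      conv_lhs => rw [h3, star_sum, Finset.mul_sum]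
      refine Finset.sum_congr rfl fun q _ => ?_
      rw [star_mul, ← mul_assoc, ← h3]
    have h2 : ‖L‖ ^ 2 ≤ ‖v‖ * ‖L‖ := by
      calc ‖L‖ ^ 2 = ‖⟪L, L⟫_B‖ := by rw [CStarModule.norm_sq_eq B]
        _ = ‖⟪v, R L⟫_B‖ := by rw [h1]
        _ ≤ ‖v‖ * ‖R L‖ := CStarModule.norm_inner_le _
        _ = ‖v‖ * ‖L‖ := by rw [hRn]
    rcases (norm_nonneg L).eq_or_lt with h3 | h3
    · rw [← h3]
      exact norm_nonneg _
    · rw [pow_two] at h2
      exact le_of_mul_le_mul_right h2 h3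
  rw [hY, hRn, CStarMatrix.norm_def]
  exact ((CStarMatrix.toCLM X).le_opNorm L).trans (by gcongr)

end norms

section main

variable {B : Type u} [CStarAlgebra B] [PartialOrder B] [StarOrderedRing B]
  {K : Type v} [NormedAddCommGroup K] [InnerProductSpace ℂ K] [CompleteSpace K]
  {w : B →ₗ[ℂ] (K →L[ℂ] K)}

omit [PartialOrder B] [StarOrderedRing B] in
theorem sum_entry {n R : Type} [Fintype n] [Fintype R] (Z : R → CStarMatrix n n B) (i k : n) :
    (∑ r, Z r) i k = ∑ r, Z r i k := by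
  let e : CStarMatrix n n B →+ B :=
    { toFun := fun Z => Z i k
      map_zero' := rfl
      map_add' := fun _ _ => rfl }
  exact map_sum e Z univ

/-- The functional on matrices used below. -/
def Tm (w : B →ₗ[ℂ] (K →L[ℂ] K)) {b : Type} [Fintype b] (j₀ : b) (η : b → K) :
    CStarMatrix b b B →ₗ[ℂ] K where
  toFun Z := ∑ j, w (Z j₀ j) (η j)
  map_add' Y Z := by
    simp only [CStarMatrix.add_apply, map_add, add_apply, Finset.sum_add_distrib]
  map_smul' c Z := by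
    simp only [CStarMatrix.smul_apply, map_smul, smul_apply, Finset.smul_sum, RingHom.id_apply]

omit [PartialOrder B] [StarOrderedRing B] [CompleteSpace K] in
theorem Tm_apply (w : B →ₗ[ℂ] (K →L[ℂ] K)) {b : Type} [Fintype b] (j₀ : b) (η : b → K)
    (Z : CStarMatrix b b B) : Tm w j₀ η Z = ∑ j, w (Z j₀ j) (η j) := rfl

theorem row_mat (hgt : St_gt.{u, v}) {b : Type} [Fintype b] [DecidableEq b] {c : ℝ} (_hc : 0 ≤ c)
    (hrow : ∀ (a : b → B) (ξ : b → K), ‖∑ k, w (a k) (ξ k)‖ ^ 2 ≤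
        9 * c ^ 4 * ‖∑ k, a k * star (a k)‖ * ∑ k, ‖ξ k‖ ^ 2)
    (Y : CStarMatrix b b B) (η : b → K) :
    ∑ r, ‖∑ k, w (Y r k) (η k)‖ ^ 2 ≤
      27 * c ^ 4 * (∑ k, ‖η k‖ ^ 2) * (‖Y‖ ^ 2 + ‖∑ r, ∑ k, Y r k * star (Y r k)‖) := by
  rcases isEmpty_or_nonempty b with hb | ⟨⟨j₀⟩⟩
  · simp
  have hη0 : 0 ≤ ∑ k, ‖η k‖ ^ 2 := Finset.sum_nonneg fun k _ => by positivity
  set M : ℝ := 3 * c ^ 2 * √(∑ k, ‖η k‖ ^ 2) with hM
  have hM0 : 0 ≤ M := by positivity
  have hM2 : M ^ 2 = 9 * c ^ 4 * ∑ k, ‖η k‖ ^ 2 := by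
    rw [hM, mul_pow, Real.sq_sqrt hη0]
    ring
  have hT : ∀ Z : CStarMatrix b b B, ‖Tm w j₀ η Z‖ ≤ M * ‖Z‖ := by
    intro Z
    have h1 : ‖∑ k, Z j₀ k * star (Z j₀ k)‖ ≤ ‖Z‖ ^ 2 := by
      have h2 : (Z * star Z) j₀ j₀ = ∑ k, Z j₀ k * star (Z j₀ k) := by
        rw [CStarMatrix.mul_apply]
        rfl
      rw [← h2]
      refine CStarMatrix.norm_entry_le_norm.trans ?_
      rw [CStarRing.norm_self_mul_star, pow_two]
    have h3 : ‖Tm w j₀ η Z‖ ^ 2 ≤ (M * ‖Z‖) ^ 2 := by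
      rw [Tm_apply, mul_pow, hM2]
      refine (hrow (fun k => Z j₀ k) η).trans ?_
      calc 9 * c ^ 4 * ‖∑ k, Z j₀ k * star (Z j₀ k)‖ * ∑ k, ‖η k‖ ^ 2
          ≤ 9 * c ^ 4 * ‖Z‖ ^ 2 * ∑ k, ‖η k‖ ^ 2 := by gcongr
        _ = _ := by ring
    exact (pow_le_pow_iff_left₀ (norm_nonneg _) (by positivity) two_ne_zero).1 h3
  have hmain := hgt (CStarMatrix b b B) K (Tm w j₀ η) M hM0 hT b
    (fun r => CStarMatrix.ofMatrix fun i k => if i = j₀ then Y r k else 0)
  have e1 : ∀ r, Tm w j₀ η (CStarMatrix.ofMatrix fun i k => if i = j₀ then Y r k else 0) =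
      ∑ k, w (Y r k) (η k) := by
    intro r
    rw [Tm_apply]
    refine Finset.sum_congr rfl fun k _ => ?_
    have : (CStarMatrix.ofMatrix fun i k => if i = j₀ then Y r k else (0 : B)) j₀ k = Y r k := by
      rw [CStarMatrix.ofMatrix_apply, if_pos rfl]
    rw [this]
  have e2 : ∑ r, star (CStarMatrix.ofMatrix fun i k => if i = j₀ then Y r k else (0 : B)) *
      (CStarMatrix.ofMatrix fun i k => if i = j₀ then Y r k else (0 : B)) = star Y * Y := by
    ext i k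
    rw [CStarMatrix.mul_apply, sum_entry]
    refine Finset.sum_congr rfl fun r _ => ?_
    rw [CStarMatrix.mul_apply, Finset.sum_eq_single j₀]
    · rw [CStarMatrix.star_apply, CStarMatrix.star_apply, CStarMatrix.ofMatrix_apply]
      simp only [if_true]
    · intro l _ hl
      rw [CStarMatrix.ofMatrix_apply, if_neg hl, mul_zero]
    · intro h
      exact absurd (Finset.mem_univ _) h
  have e3 : ‖∑ r, (CStarMatrix.ofMatrix fun i k => if i = j₀ then Y r k else (0 : B)) *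
      star (CStarMatrix.ofMatrix fun i k => if i = j₀ then Y r k else (0 : B))‖ ≤
      ‖∑ r, ∑ k, Y r k * star (Y r k)‖ := by
    refine (norm_le_sum _).trans ?_
    rw [Finset.sum_eq_single j₀, Finset.sum_eq_single j₀]
    · rw [sum_entry]
      refine le_of_eq ?_
      congr 1
      refine Finset.sum_congr rfl fun r _ => ?_
      rw [CStarMatrix.mul_apply]
      refine Finset.sum_congr rfl fun k _ => ?_
      rw [CStarMatrix.star_apply, CStarMatrix.ofMatrix_apply, if_pos rfl]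
    · intro i _ hi
      rw [sum_entry, Finset.sum_eq_zero, norm_zero]
      intro r _
      rw [CStarMatrix.mul_apply]
      refine Finset.sum_eq_zero fun k _ => ?_
      rw [CStarMatrix.ofMatrix_apply, if_neg hi, zero_mul]
    · intro h
      exact absurd (Finset.mem_univ _) h
    · intro j _ hj
      refine Finset.sum_eq_zero fun i _ => ?_
      rw [sum_entry, Finset.sum_eq_zero, norm_zero]
      intro r _
      rw [CStarMatrix.mul_apply]
      refine Finset.sum_eq_zero fun k _ => ?_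
      rw [CStarMatrix.star_apply, CStarMatrix.ofMatrix_apply, CStarMatrix.ofMatrix_apply,
        if_neg hj, star_zero, mul_zero]
    · intro h
      exact absurd (Finset.mem_univ _) h
  rw [e2] at hmain
  simp only [e1] at hmain
  refine hmain.trans ?_
  rw [hM2, CStarRing.norm_star_mul_self, ← pow_two]
  calc 3 * (9 * c ^ 4 * ∑ k, ‖η k‖ ^ 2) * (‖Y‖ ^ 2 +
        ‖∑ r, (CStarMatrix.ofMatrix fun i k => if i = j₀ then Y r k else (0 : B)) *
          star (CStarMatrix.ofMatrix fun i k => if i = j₀ then Y r k else (0 : B))‖)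
      ≤ 3 * (9 * c ^ 4 * ∑ k, ‖η k‖ ^ 2) * (‖Y‖ ^ 2 + ‖∑ r, ∑ k, Y r k * star (Y r k)‖) := by
        gcongr
    _ = _ := by ring

end main

section fin

variable {B : Type u} [CStarAlgebra B] [PartialOrder B] [StarOrderedRing B]

/-- `‖∑ s P s*‖ ≤ ‖P‖ ε`. -/
theorem norm_conj_sum {N : ℕ} (s : Fin N → B) (P : B) (hP : 0 ≤ P) (ε : ℝ)
    (hs : ‖∑ i, s i * star (s i)‖ ≤ ε) : ‖∑ i, s i * P * star (s i)‖ ≤ ‖P‖ * ε := by
  have h0 : 0 ≤ ∑ i, s i * P * star (s i) :=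
    Finset.sum_nonneg fun i _ => star_right_conjugate_nonneg hP (s i)
  have h1 : ∑ i, s i * P * star (s i) ≤ ‖P‖ • ∑ i, s i * star (s i) := by
    rw [Finset.smul_sum]
    refine Finset.sum_le_sum fun i _ => ?_
    have h2 : P ≤ algebraMap ℝ B ‖P‖ := IsSelfAdjoint.le_algebraMap_norm_self hP.isSelfAdjoint
    have h3 := star_right_conjugate_le_conjugate h2 (s i)
    refine h3.trans (le_of_eq ?_)
    rw [Algebra.algebraMap_eq_smul_one, mul_smul_comm, mul_one, smul_mul_assoc]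
  calc ‖∑ i, s i * P * star (s i)‖ ≤ ‖‖P‖ • ∑ i, s i * star (s i)‖ :=
        CStarAlgebra.norm_le_norm_of_nonneg_of_le h0 h1
    _ ≤ ‖P‖ * ε := by
        rw [norm_smul, norm_norm]
        gcongr

theorem sandw_row {N m : ℕ} (s : Fin N → B) (hs : ∑ i, star (s i) * s i = 1) (ε : ℝ)
    (hε : ‖∑ i, s i * star (s i)‖ ≤ ε) (X : CStarMatrix (Fin m) (Fin m) B) :
    ‖∑ r, ∑ k, sandw s X r k * star (sandw s X r k)‖ ≤ (m : ℝ) ^ 2 * ‖X‖ ^ 2 * ε := by
  have h1 : ∑ r, ∑ k, sandw s X r k * star (sandw s X r k) =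
      ∑ q, s q * (∑ i, ∑ j, X i j * star (X i j)) * star (s q) := by
    rw [Fintype.sum_prod_type]
    refine Finset.sum_congr rfl fun q _ => ?_
    rw [Finset.mul_sum, Finset.sum_mul]
    refine Finset.sum_congr rfl fun i _ => ?_
    rw [Fintype.sum_prod_type, Finset.sum_comm, Finset.mul_sum, Finset.sum_mul]
    refine Finset.sum_congr rfl fun j _ => ?_
    have h2 : ∀ p, sandw s X (q, i) (p, j) * star (sandw s X (q, i) (p, j)) =
        s q * X i j * (star (s p) * s p) * (star (X i j) * star (s q)) := by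
      intro p
      rw [sandw_apply]
      simp only [star_mul, star_star, mul_assoc]
    simp only [h2]
    rw [← Finset.sum_mul, ← Finset.mul_sum, hs, mul_one]
    simp only [mul_assoc]
  have hP : 0 ≤ ∑ i, ∑ j, X i j * star (X i j) :=
    Finset.sum_nonneg fun i _ => Finset.sum_nonneg fun j _ => mul_star_self_nonneg _
  have hε0 : 0 ≤ ε := (norm_nonneg _).trans hε
  rw [h1]
  refine (norm_conj_sum s _ hP ε hε).trans ?_
  gcongr
  calc ‖∑ i, ∑ j, X i j * star (X i j)‖ ≤ ∑ i : Fin m, ∑ j : Fin m, ‖X‖ ^ 2 := by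
        refine (norm_sum_le _ _).trans (Finset.sum_le_sum fun i _ => ?_)
        refine (norm_sum_le _ _).trans (Finset.sum_le_sum fun j _ => ?_)
        rw [CStarRing.norm_self_mul_star, ← pow_two]
        have := CStarMatrix.norm_entry_le_norm (M := X) (i := i) (j := j)
        gcongr
    _ = (m : ℝ) ^ 2 * ‖X‖ ^ 2 := by
        simp only [Finset.sum_const, Finset.card_univ, Fintype.card_fin, nsmul_eq_mul]
        ring

variable {K : Type v} [NormedAddCommGroup K] [InnerProductSpace ℂ K] [CompleteSpace K]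

/-- Words, column. -/
theorem word_col (hgt : St_gt.{u, v}) (w : B →ₗ[ℂ] (K →L[ℂ] K)) {c : ℝ} (hc : 0 ≤ c)
    (hwb : ∀ b, ‖w b‖ ≤ c * ‖b‖) {N : ℕ} (s : Fin N → B) (hs : ∑ i, star (s i) * s i = 1) {ε : ℝ}
    (hε : ‖∑ i, s i * star (s i)‖ ≤ ε) (ζ : K) :
    ∑ p, ‖w (s p) ζ‖ ^ 2 ≤ 3 * c ^ 2 * (1 + ε) * ‖ζ‖ ^ 2 := by
  have hgt' := hgt B K ((ContinuousLinearMap.apply ℂ K ζ).toLinearMap.comp w) (c * ‖ζ‖)
    (by positivity) (fun b => by
      simp only [LinearMap.comp_apply, ContinuousLinearMap.coe_coe, ContinuousLinearMap.apply_apply]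
      calc ‖w b ζ‖ ≤ ‖w b‖ * ‖ζ‖ := (w b).le_opNorm ζ
        _ ≤ c * ‖b‖ * ‖ζ‖ := by gcongr; exact hwb b
        _ = c * ‖ζ‖ * ‖b‖ := by ring) (Fin N) s
  simp only [LinearMap.comp_apply, ContinuousLinearMap.coe_coe,
    ContinuousLinearMap.apply_apply] at hgt'
  refine hgt'.trans ?_
  have h1 : ‖∑ k, star (s k) * s k‖ ≤ 1 := by
    rw [hs]
    exact Col.norm_one_le
  calc 3 * (c * ‖ζ‖) ^ 2 * (‖∑ k, star (s k) * s k‖ + ‖∑ k, s k * star (s k)‖)
      ≤ 3 * (c * ‖ζ‖) ^ 2 * (1 + ε) := by gcongr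
    _ = _ := by ring

/-- Words, row. -/
theorem word_row (hgt : St_gt.{u, v}) (w : B →ₗ[ℂ] (K →L[ℂ] K)) {c : ℝ} (hc : 0 ≤ c)
    (hwb : ∀ b, ‖w b‖ ≤ c * ‖b‖) {N : ℕ} (s : Fin N → B) (hs : ∑ i, star (s i) * s i = 1) {ε : ℝ}
    (hε : ‖∑ i, s i * star (s i)‖ ≤ ε) (z : Fin N → K) :
    ‖∑ p, w (star (s p)) (z p)‖ ^ 2 ≤ 3 * c ^ 2 * (1 + ε) * ∑ p, ‖z p‖ ^ 2 := by
  have hε0 : 0 ≤ ε := (norm_nonneg _).trans hε
  have hv : ∀ b, ‖vmap w b‖ ≤ c * ‖b‖ := by
    intro b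
    rw [norm_vmap, ← norm_star b]
    exact hwb _
  refine row_of_col (fun b => w b) (fun b => vmap w b) (fun b => star_w w b) _ (by positivity)
    (Fin N) (fun p => star (s p)) (fun ζ => ?_) z
  have := word_col hgt (vmap w) hc hv s hs hε ζ
  simpa only [star_star] using this

omit [PartialOrder B] [StarOrderedRing B] [CompleteSpace K] in
theorem amp_expand (w : B →ₗ[ℂ] (K →L[ℂ] K)) (hw : IsHom w) {N m : ℕ} (s : Fin N → B)
    (hs : ∑ i, star (s i) * s i = 1) (X : CStarMatrix (Fin m) (Fin m) B) (ξ : HH (Fin m) K)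
    (i : Fin m) : amp w (Fin m) X ξ i =
      ∑ q, w (star (s q)) (∑ k : Fin N × Fin m, w (sandw s X (q, i) k) (w (s k.1) (ξ k.2))) := by
  rw [amp_apply]
  have h1 : ∀ q, ∑ k : Fin N × Fin m, w (sandw s X (q, i) k) (w (s k.1) (ξ k.2)) =
      ∑ j, w (s q * X i j) (ξ j) := by
    intro q
    rw [Fintype.sum_prod_type, Finset.sum_comm]
    refine Finset.sum_congr rfl fun j _ => ?_
    have h2 : ∀ p, w (sandw s X (q, i) (p, j)) (w (s p) (ξ j)) =
        w (s q * X i j * (star (s p) * s p)) (ξ j) := by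
      intro p
      rw [sandw_apply, ← mul_apply_eq_comp, ← hw.mul]
      simp only [mul_assoc]
    simp only [h2]
    rw [← _root_.sum_apply, ← map_sum, ← Finset.mul_sum, hs, mul_one]
  simp only [h1, map_sum]
  rw [Finset.sum_comm]
  refine Finset.sum_congr rfl fun j _ => ?_
  have h2 : ∀ q, w (star (s q)) (w (s q * X i j) (ξ j)) = w (star (s q) * s q * X i j) (ξ j) := by
    intro q
    rw [← mul_apply_eq_comp, ← hw.mul]
    simp only [mul_assoc]
  simp only [h2]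
  rw [← _root_.sum_apply, ← map_sum, ← Finset.sum_mul, hs, one_mul]

end fin

end P_A5

theorem p_A_mat (hgt : St_gt.{u, v}) (hcol : A_col.{u, v}) : A_mat.{u, v} := by
  intro B _ _ _ K _ _ _ w hw c hc hwb hwords m X
  obtain ⟨N, s, hs, hε⟩ := hwords (1 / (100 * ((m : ℝ) ^ 2 + 1))) (by positivity)
  set ε : ℝ := 1 / (100 * ((m : ℝ) ^ 2 + 1)) with hεdef
  have hε0 : 0 ≤ ε := by positivity
  have hm2 : (0 : ℝ) < (m : ℝ) ^ 2 + 1 := by positivity
  have hε1 : ε ≤ 1 / 100 := by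
    rw [hεdef]
    gcongr
    nlinarith [sq_nonneg (m : ℝ)]
  have hε2 : (m : ℝ) ^ 2 * ε ≤ 1 / 100 := by
    rw [hεdef, mul_one_div, div_le_div_iff₀ (by positivity) (by norm_num)]
    nlinarith
  refine ContinuousLinearMap.opNorm_le_bound _ (by positivity) fun ξ => ?_
  set η : Fin N × Fin m → K := fun k => w (s k.1) (ξ k.2) with hη
  have hη1 : ∑ k, ‖η k‖ ^ 2 ≤ 3 * c ^ 2 * (1 + ε) * ‖ξ‖ ^ 2 := by
    rw [Fintype.sum_prod_type, Finset.sum_comm, PiLp.norm_sq_eq_of_L2, Finset.mul_sum]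
    exact Finset.sum_le_sum fun j _ => P_A5.word_col hgt w hc hwb s hs hε (ξ j)
  have hX : ‖amp w (Fin m) X ξ‖ ^ 2 ≤ 3 * c ^ 2 * (1 + ε) *
      ∑ r, ‖∑ k, w (P_A5.sandw s X r k) (η k)‖ ^ 2 := by
    rw [Fintype.sum_prod_type, Finset.sum_comm, PiLp.norm_sq_eq_of_L2, Finset.mul_sum]
    refine Finset.sum_le_sum fun i _ => ?_
    rw [P_A5.amp_expand w hw s hs X ξ i]
    exact P_A5.word_row hgt w hc hwb s hs hε _
  have hrow := P_A5.row_mat hgt (w := w) hc (b := Fin N × Fin m)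
    (fun a ξ => (hcol B K w hw c hc hwb hwords (Fin N × Fin m) a).2 ξ) (P_A5.sandw s X) η
  have hsX := P_A5.norm_sandw s hs X
  have hsr := P_A5.sandw_row s hs ε hε X
  have hfin : ‖amp w (Fin m) X ξ‖ ^ 2 ≤ (16 * c ^ 4 * ‖X‖ * ‖ξ‖) ^ 2 := by
    calc ‖amp w (Fin m) X ξ‖ ^ 2
        ≤ 3 * c ^ 2 * (1 + ε) * ∑ r, ‖∑ k, w (P_A5.sandw s X r k) (η k)‖ ^ 2 := hX
      _ ≤ 3 * c ^ 2 * (1 + ε) * (27 * c ^ 4 * (3 * c ^ 2 * (1 + ε) * ‖ξ‖ ^ 2) *
            (‖X‖ ^ 2 + (m : ℝ) ^ 2 * ‖X‖ ^ 2 * ε)) := by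
          gcongr
          refine hrow.trans ?_
          gcongr
      _ = (243 * ((1 + ε) ^ 2 * (1 + (m : ℝ) ^ 2 * ε))) * (c ^ 8 * ‖X‖ ^ 2 * ‖ξ‖ ^ 2) := by ring
      _ ≤ (243 * ((1 + 1 / 100) ^ 2 * (1 + 1 / 100))) * (c ^ 8 * ‖X‖ ^ 2 * ‖ξ‖ ^ 2) := by gcongr
      _ ≤ 256 * (c ^ 8 * ‖X‖ ^ 2 * ‖ξ‖ ^ 2) := by
          gcongr
          norm_num
      _ = _ := by ring
  exact (pow_le_pow_iff_left₀ (norm_nonneg _) (by positivity) two_ne_zero).1 hfin

end H711R2.KG
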