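import Mathlib
import Pool.Agent.H711R2.KG.Props

/-!
Bounded homomorphisms of matrix algebras are completely bounded.
-/

open scoped ComplexOrder InnerProductSpace ComplexConjugate
open Finset

noncomputable section

namespace H711R2.KG

open H759R2.Kad

universe v

namespace P_B9

theorem tens_one {n : ℕ} (X : CStarMatrix (Fin n) (Fin n) ℂ) :
    tens (CStarMatrix.ofMatrix.symm X) (1 : ℂ) = X := by
  ext i j
  simp [tens] <;> rfl

theorem tens_star {n : ℕ} (X : CStarMatrix (Fin n) (Fin n) ℂ) :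
    tens (star (CStarMatrix.ofMatrix.symm X : Matrix (Fin n) (Fin n) ℂ)) (1 : ℂ) = star X := by
  ext i j
  simp [tens, Matrix.star_apply, CStarMatrix.star_apply] <;> rfl

/-- the *-homomorphism -/
def piHom {n : ℕ} {H : Type v} [NormedAddCommGroup H] [InnerProductSpace ℂ H] [CompleteSpace H]
    (u : CStarMatrix (Fin n) (Fin n) ℂ →ₗ[ℂ] (H →L[ℂ] H)) (hu : IsHom u) (S S' : H →L[ℂ] H)
    (h1 : S * S' = 1) (h2 : S' * S = 1)
    (hs : ∀ s : Matrix (Fin n) (Fin n) ℂ,
      star (S * u (tens s 1) * S') = S * u (tens (star s) 1) * S') :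
    CStarMatrix (Fin n) (Fin n) ℂ →⋆ₐ[ℂ] (H →L[ℂ] H) where
  toFun X := S * u X * S'
  map_one' := by rw [hu.one, mul_one, h1]
  map_mul' X Y := by
    rw [hu.mul]
    calc S * (u X * u Y) * S' = S * u X * 1 * (u Y * S') := by simp only [mul_assoc, one_mul]
      _ = S * u X * (S' * S) * (u Y * S') := by rw [h2]
      _ = S * u X * S' * (S * u Y * S') := by simp only [mul_assoc]
  map_zero' := by simp
  map_add' X Y := by rw [map_add, mul_add, add_mul]
  commutes' c := by
    rw [Algebra.algebraMap_eq_smul_one, map_smul, hu.one, mul_smul_comm, smul_mul_assoc, mul_one,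
      h1, Algebra.algebraMap_eq_smul_one]
  map_star' X := by
    have h := hs (CStarMatrix.ofMatrix.symm X)
    rw [tens_one, tens_star] at h
    exact h.symm

theorem lvl_pi {n : ℕ} {H : Type v} [NormedAddCommGroup H] [InnerProductSpace ℂ H]
    [CompleteSpace H] (π : CStarMatrix (Fin n) (Fin n) ℂ →⋆ₐ[ℂ] (H →L[ℂ] H)) (m : ℕ) :
    LvlBd π.toLinearMap m 1 := by
  intro Y
  rw [one_mul]
  have h := NonUnitalStarAlgHom.norm_apply_le (ampHom π (Fin m)) Y
  exact h

end P_B9

open P_B9 in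
theorem p_B_fin (hsim : K_sim.{0, v}) (htr : K_transport.{0, v}) : B_fin.{v} := by
  intro n H _ _ _ u hu c hc hb m
  obtain ⟨S, S', h1, h2, h3, h4, h5⟩ := hsim ℂ H n u hu c hc hb
  have h := htr (CStarMatrix (Fin n) (Fin n) ℂ) H H u (piHom u hu S S' h1 h2 h5).toLinearMap
    (LinearIsometryEquiv.refl ℂ H) S S' c 1 hc zero_le_one h2 h3 h4 (fun X ξ => rfl) m
    (lvl_pi _ m)
  rw [mul_one] at h
  exact h

end H711R2.KG
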