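import Mathlib
import Pool.Agent.H711R2.KG.Props

open scoped ComplexOrder InnerProductSpace ComplexConjugate
open Finset

noncomputable section

namespace H711R2.KG

open H759R2.Kad

universe u v

namespace P_A1

variable {B : Type u} [CStarAlgebra B]

/-- the real span of the self-commutators -/
def V (B : Type u) [CStarAlgebra B] : Submodule ℝ B :=
  Submodule.span ℝ {x : B | ∃ a : B, x = star a * a - a * star a}

/-- finite sums of self-commutators -/
def IsS (x : B) : Prop :=
  ∃ (n : ℕ) (a : Fin n → B), x = ∑ i, star (a i) * a i - ∑ i, a i * star (a i)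

theorem isS_add {x y : B} (hx : IsS x) (hy : IsS y) : IsS (x + y) := by
  obtain ⟨n, a, rfl⟩ := hx
  obtain ⟨m, b, rfl⟩ := hy
  refine ⟨n + m, Fin.append a b, ?_⟩
  rw [Fin.sum_univ_add, Fin.sum_univ_add]
  simp only [Fin.append_left, Fin.append_right]
  abel

theorem sqrt_smul_star (t : ℝ) (ht : 0 ≤ t) (a : B) :
    star (Real.sqrt t • a) * (Real.sqrt t • a) = t • (star a * a) := by
  rw [star_smul, smul_mul_smul_comm]
  simp [Real.mul_self_sqrt ht]

theorem sqrt_smul_star' (t : ℝ) (ht : 0 ≤ t) (a : B) :
    (Real.sqrt t • a) * star (Real.sqrt t • a) = t • (a * star a) := by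
  rw [star_smul, smul_mul_smul_comm]
  simp [Real.mul_self_sqrt ht]

theorem isS_smul {x : B} (t : ℝ) (hx : IsS x) : IsS (t • x) := by
  obtain ⟨n, a, rfl⟩ := hx
  rcases le_total 0 t with ht | ht
  · refine ⟨n, fun i => Real.sqrt t • a i, ?_⟩
    simp only [sqrt_smul_star t ht, sqrt_smul_star' t ht, smul_sub, Finset.smul_sum]
  · refine ⟨n, fun i => Real.sqrt (-t) • star (a i), ?_⟩
    have h : 0 ≤ -t := by linarith
    simp only [sqrt_smul_star (-t) h, sqrt_smul_star' (-t) h, smul_sub, Finset.smul_sum, star_star]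
    simp only [neg_smul, Finset.sum_neg_distrib]
    abel

theorem isS_of_mem {x : B} (hx : x ∈ V B) : IsS x := by
  unfold V at hx
  induction hx using Submodule.span_induction with
  | mem x h =>
    obtain ⟨a, rfl⟩ := h
    exact ⟨1, fun _ => a, by simp⟩
  | zero => exact ⟨0, fun _ => 0, by simp⟩
  | add x y _ _ h1 h2 => exact isS_add h1 h2
  | smul t x _ h => exact isS_smul t h

theorem star_of_isS {x : B} (hx : IsS x) : star x = x := by
  obtain ⟨n, a, rfl⟩ := hx
  simp [star_sub, star_sum]

variable [PartialOrder B] [StarOrderedRing B]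

/-- elements with strictly positive real part -/
def U (B : Type u) [CStarAlgebra B] [PartialOrder B] : Set B :=
  {x | ∃ δ : ℝ, 0 < δ ∧ δ • (1 : B) ≤ x + star x}

theorem U_convex : Convex ℝ (U B) := by
  rintro x ⟨δ, hδ, hx⟩ y ⟨ε, hε, hy⟩ a b ha hb hab
  refine ⟨a * δ + b * ε, ?_, ?_⟩
  · rcases ha.eq_or_lt with rfl | ha'
    · have : b = 1 := by linarith
      subst this; linarith
    · have := mul_pos ha' hδ
      have := mul_nonneg hb hε.le
      linarith
  · have e : a • x + b • y + star (a • x + b • y) = a • (x + star x) + b • (y + star y) := by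
      rw [star_add, star_smul, star_smul]
      simp only [star_trivial, smul_add]
      abel
    rw [e, add_smul, mul_smul, mul_smul]
    exact add_le_add (smul_le_smul_of_nonneg_left hx ha) (smul_le_smul_of_nonneg_left hy hb)

theorem U_open : IsOpen (U B) := by
  rw [Metric.isOpen_iff]
  rintro x ⟨δ, hδ, hx⟩
  refine ⟨δ / 4, by positivity, fun y hy => ⟨δ / 2, by positivity, ?_⟩⟩
  rw [Metric.mem_ball, dist_eq_norm] at hy
  set z : B := (y - x) + star (y - x) with hz
  have hsa : IsSelfAdjoint z := by
    rw [hz]; exact IsSelfAdjoint.add_star_self _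
  have h1 : -(algebraMap ℝ B) ‖z‖ ≤ z := hsa.neg_algebraMap_norm_le_self
  have h2 : ‖z‖ ≤ δ / 2 := by
    calc ‖z‖ ≤ ‖y - x‖ + ‖star (y - x)‖ := norm_add_le _ _
      _ = 2 * ‖y - x‖ := by rw [norm_star]; ring
      _ ≤ δ / 2 := by linarith
  have h3 : -((δ / 2) • (1 : B)) ≤ z := by
    refine le_trans ?_ h1
    rw [Algebra.algebraMap_eq_smul_one]
    exact neg_le_neg (smul_le_smul_of_nonneg_right h2 zero_le_one)
  have e : y + star y = (x + star x) + z := by
    rw [hz, star_sub]; abel
  rw [e]
  calc (δ / 2) • (1 : B) = δ • (1 : B) + -((δ / 2) • (1 : B)) := by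
        rw [← neg_smul, ← add_smul]; congr 1; ring
    _ ≤ (x + star x) + z := add_le_add hx h3

theorem one_mem_U : (1 : B) ∈ U B := by
  refine ⟨1, one_pos, ?_⟩
  rw [one_smul, star_one]
  exact le_add_of_nonneg_right zero_le_one

theorem disj (h : ¬ ∃ (n : ℕ) (a : Fin n → B) (δ : ℝ), 0 < δ ∧
      ∑ i, a i * star (a i) + δ • (1 : B) ≤ ∑ i, star (a i) * a i) :
    Disjoint (U B) (V B : Set B) := by
  rw [Set.disjoint_left]
  rintro x ⟨δ, hδ, hx⟩ hxV
  have hS := isS_of_mem hxV
  have hst := star_of_isS hS
  obtain ⟨n, a, he⟩ := hS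
  refine h ⟨n, a, δ / 2, by positivity, ?_⟩
  rw [hst] at hx
  have h1 : (δ / 2) • (1 : B) ≤ x := by
    have := smul_le_smul_of_nonneg_left hx (by norm_num : (0 : ℝ) ≤ 1 / 2)
    rw [← two_smul ℝ x, smul_smul, smul_smul] at this
    norm_num at this
    convert this using 2
    ring
  rw [he] at h1
  calc ∑ i, a i * star (a i) + (δ / 2) • (1 : B) ≤ ∑ i, a i * star (a i) +
        (∑ i, star (a i) * a i - ∑ i, a i * star (a i)) := by gcongr
    _ = ∑ i, star (a i) * a i := by abel

end P_A1

open P_A1 in
theorem p_A_hb : A_hb.{u} := by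
  intro B _ _ _ hτ
  by_contra hcon
  obtain ⟨f, u, hf1, hf2⟩ := geometric_hahn_banach_open (U_convex (B := B)) U_open
    (V B).convex (disj hcon)
  have hV : ∀ v ∈ V B, f v = 0 := by
    intro v hv
    by_contra hne
    have := hf2 (((u - 1) / f v) • v) ((V B).smul_mem _ hv)
    rw [map_smul, smul_eq_mul, div_mul_cancel₀ _ hne] at this
    linarith
  have hu : u ≤ 0 := by
    have := hf2 0 (V B).zero_mem
    rwa [map_zero] at this
  have h1 : f 1 < 0 := lt_of_lt_of_le (hf1 1 one_mem_U) hu
  have hpos : ∀ x : B, 0 ≤ x + star x → f x ≤ 0 := by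
    intro x hx
    by_contra hcon2
    push Not at hcon2
    -- x + ε 1 ∈ U for every ε > 0
    set ε : ℝ := f x / (-(2 * f 1)) with hε
    have hε0 : 0 < ε := by
      rw [hε]; apply div_pos hcon2; linarith
    have hmem : x + ε • (1 : B) ∈ U B := by
      refine ⟨2 * ε, by positivity, ?_⟩
      have e : x + ε • (1 : B) + star (x + ε • (1 : B)) = (x + star x) + (2 * ε) • (1 : B) := by
        rw [star_add, star_smul, star_one, star_trivial ε, two_mul, add_smul]; abel
      rw [e]
      exact le_add_of_nonneg_left hx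
    have h2 := hf1 _ hmem
    rw [map_add, map_smul, smul_eq_mul] at h2
    have h3 : ε * f 1 = - f x / 2 := by
      have h1' := h1.ne
      rw [hε]; field_simp
    rw [h3] at h2
    linarith
  -- the real functional
  let G : B →ₗ[ℝ] ℝ := (f 1)⁻¹ • f.toLinearMap
  have hG : ∀ x, G x = (f 1)⁻¹ * f x := fun x => rfl
  have G1 : G 1 = 1 := by rw [hG]; exact inv_mul_cancel₀ h1.ne
  have GV : ∀ v ∈ V B, G v = 0 := fun v hv => by rw [hG, hV v hv, mul_zero]
  have Gpos : ∀ x : B, 0 ≤ x + star x → 0 ≤ G x := by
    intro x hx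
    rw [hG]
    exact mul_nonneg_of_nonpos_of_nonpos (inv_nonpos.2 h1.le) (hpos x hx)
  have Gskew : ∀ x : B, star x = -x → G x = 0 := by
    intro x hx
    apply le_antisymm
    · have := Gpos (-x) (by rw [star_neg, hx]; simp)
      rw [map_neg] at this; linarith
    · exact Gpos x (by rw [hx]; simp)
  have Gstar : ∀ x : B, G (star x) = G x := by
    intro x
    have := Gskew (x - star x) (by rw [star_sub, star_star]; abel)
    rw [map_sub] at this; linarith
  have Gsc : ∀ a : B, G (star a * a) = G (a * star a) := by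
    intro a
    have := GV (star a * a - a * star a) (Submodule.subset_span ⟨a, rfl⟩)
    rw [map_sub] at this; linarith
  have Gcomm0 : ∀ a b : B, G (star a * b) = G (b * star a) := by
    intro a b
    have e1 : star (a + b) * (a + b) = star a * a + star b * b + (star a * b + star b * a) := by
      rw [star_add]; noncomm_ring
    have e2 : (a + b) * star (a + b) = a * star a + b * star b + (b * star a + a * star b) := by
      rw [star_add]; noncomm_ring
    have h := Gsc (a + b)
    rw [e1, e2] at h
    simp only [map_add] at h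
    have h3 := Gsc a
    have h4 := Gsc b
    have h5 : G (star b * a) = G (star a * b) := by
      rw [← Gstar (star a * b), star_mul, star_star]
    have h6 : G (a * star b) = G (b * star a) := by
      rw [← Gstar (b * star a), star_mul, star_star]
    rw [h5, h6] at h
    linarith
  have Gcomm : ∀ a b : B, G (a * b) = G (b * a) := by
    intro a b
    have := Gcomm0 (star a) b
    rwa [star_star] at this
  apply hτ
  refine ⟨Module.Dual.extendRCLike (𝕜 := ℂ) G, ⟨?_, ?_, ?_⟩⟩
  · rw [Module.Dual.extendRCLike_apply, G1]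
    have : G ((RCLike.I : ℂ) • (1 : B)) = 0 := by
      apply Gskew
      rw [star_smul, star_one]
      simp
    rw [this]; simp
  · intro a
    rw [Module.Dual.extendRCLike_apply]
    have : G ((RCLike.I : ℂ) • (star a * a)) = 0 := by
      apply Gskew
      rw [star_smul, star_mul, star_star]
      simp
    rw [this]
    have h0 : 0 ≤ G (star a * a) := by
      apply Gpos
      rw [star_mul, star_star]
      exact add_nonneg (star_mul_self_nonneg a) (star_mul_self_nonneg a)
    simpa using h0
  · intro a b
    rw [Module.Dual.extendRCLike_apply, Module.Dual.extendRCLike_apply, Gcomm a b]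
    congr 3
    rw [← smul_mul_assoc, Gcomm, mul_smul_comm]

end H711R2.KG
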