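import Mathlib
import Pool.Agent.H711R2.KG.Props

/-! Task A2: normalisation. -/

open scoped ComplexOrder InnerProductSpace ComplexConjugate
open Finset

noncomputable section

namespace H711R2.KG

universe u v

theorem p_A_fam : A_fam.{u} := by
  intro B _ _ _ n a δ hδ h
  set S : B := ∑ i, star (a i) * a i with hS
  set T : B := ∑ i, a i * star (a i) with hT
  set M : ℝ := ‖S‖ + δ with hM
  have hMpos : 0 < M := by positivity
  have hSnn : 0 ≤ S := Finset.sum_nonneg fun i _ => star_mul_self_nonneg (a i)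
  have hSle : S ≤ M • (1 : B) := by
    have h1 : S ≤ algebraMap ℝ B ‖S‖ := (IsSelfAdjoint.of_nonneg hSnn).le_algebraMap_norm_self
    rw [Algebra.algebraMap_eq_smul_one] at h1
    have h2 : (0 : B) ≤ δ • (1 : B) := smul_nonneg hδ.le zero_le_one
    calc S ≤ ‖S‖ • (1 : B) := h1
      _ = ‖S‖ • (1 : B) + 0 := (add_zero _).symm
      _ ≤ ‖S‖ • (1 : B) + δ • (1 : B) := by gcongr
      _ = M • (1 : B) := by rw [hM, add_smul]
  have hR : (0 : B) ≤ 1 - M⁻¹ • S := by
    rw [sub_nonneg]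
    have h3 : M⁻¹ • S ≤ M⁻¹ • (M • (1 : B)) := smul_le_smul_of_nonneg_left hSle (by positivity)
    rwa [smul_smul, inv_mul_cancel₀ hMpos.ne', one_smul] at h3
  set q : B := CFC.sqrt (1 - M⁻¹ • S) with hq
  have hqs : star q = q := (IsSelfAdjoint.of_nonneg (CFC.sqrt_nonneg _)).star_eq
  have hqq : q * q = 1 - M⁻¹ • S := CFC.sqrt_mul_sqrt_self _ hR
  set s : ℝ := Real.sqrt M⁻¹ with hs
  have hss : s * s = M⁻¹ := Real.mul_self_sqrt (by positivity)
  have e1 : ∀ i, star (s • a i) * (s • a i) = M⁻¹ • (star (a i) * a i) := by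
    intro i
    rw [star_smul, smul_mul_assoc, mul_smul_comm, smul_smul, star_trivial, hss]
  have e2 : ∀ i, (s • a i) * star (s • a i) = M⁻¹ • (a i * star (a i)) := by
    intro i
    rw [star_smul, smul_mul_assoc, mul_smul_comm, smul_smul, star_trivial, hss]
  have hsum1 : ∑ i : Fin (n + 1), star ((Fin.snoc (fun i => s • a i) q : Fin (n + 1) → B) i) *
      (Fin.snoc (fun i => s • a i) q : Fin (n + 1) → B) i = 1 := by
    rw [Fin.sum_univ_castSucc]
    simp only [Fin.snoc_castSucc, Fin.snoc_last]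
    rw [hqs, hqq, Finset.sum_congr rfl (fun i _ => e1 i), ← Finset.smul_sum, ← hS]
    abel
  have hsum2 : ∑ i : Fin (n + 1), (Fin.snoc (fun i => s • a i) q : Fin (n + 1) → B) i *
      star ((Fin.snoc (fun i => s • a i) q : Fin (n + 1) → B) i) = M⁻¹ • T + (1 - M⁻¹ • S) := by
    rw [Fin.sum_univ_castSucc]
    simp only [Fin.snoc_castSucc, Fin.snoc_last]
    rw [hqs, hqq, Finset.sum_congr rfl (fun i _ => e2 i), ← Finset.smul_sum, ← hT]
  have hρ0 : 0 ≤ 1 - δ / M := by
    rw [sub_nonneg, div_le_one hMpos, hM]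
    linarith [norm_nonneg S]
  refine ⟨n + 1, Fin.snoc (fun i => s • a i) q, 1 - δ / M, hρ0, ?_, hsum1, ?_⟩
  · have : 0 < δ / M := by positivity
    linarith
  · have hnn : 0 ≤ ∑ i : Fin (n + 1), (Fin.snoc (fun i => s • a i) q : Fin (n + 1) → B) i *
        star ((Fin.snoc (fun i => s • a i) q : Fin (n + 1) → B) i) :=
      Finset.sum_nonneg fun i _ => mul_star_self_nonneg _
    rw [CStarAlgebra.norm_le_iff_le_algebraMap _ hρ0 hnn, hsum2,
      Algebra.algebraMap_eq_smul_one]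
    have h5 : M⁻¹ • (T + δ • (1 : B)) ≤ M⁻¹ • S := smul_le_smul_of_nonneg_left h (by positivity)
    rw [smul_add, smul_smul] at h5
    have e3 : (1 - δ / M) • (1 : B) = 1 - (M⁻¹ * δ) • (1 : B) := by
      rw [sub_smul, one_smul, div_eq_mul_inv, mul_comm δ]
    rw [e3]
    calc M⁻¹ • T + (1 - M⁻¹ • S) ≤ M⁻¹ • T + (1 - (M⁻¹ • T + (M⁻¹ * δ) • (1 : B))) := by
          gcongr
      _ = 1 - (M⁻¹ * δ) • (1 : B) := by abel

end H711R2.KG
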