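import Mathlib
import Pool.Agent.H711R2.KG.Props
import Pool.Agent.H57R2.Kad2.Col

/-! Task A4: column and row bounds for homomorphisms of algebras with small words (helper226). -/

open scoped ComplexOrder InnerProductSpace ComplexConjugate
open Finset

noncomputable section

namespace H711R2.KG

open H759R2.Kad

universe u v

namespace P_A4

theorem gt_app (h : St_gt.{u, v}) (B : Type u) [CStarAlgebra B] [PartialOrder B]
    [StarOrderedRing B] (K : Type v) [NormedAddCommGroup K] [InnerProductSpace ℂ K]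
    [CompleteSpace K] (w : B →ₗ[ℂ] (K →L[ℂ] K)) (c : ℝ) (hc : 0 ≤ c)
    (hwb : ∀ b, ‖w b‖ ≤ c * ‖b‖) (κ : Type) [Fintype κ] (x : κ → B) (ζ : K) :
    ∑ k, ‖w (x k) ζ‖ ^ 2 ≤
      3 * (c * ‖ζ‖) ^ 2 * (‖∑ k, star (x k) * x k‖ + ‖∑ k, x k * star (x k)‖) := by
  have hgt := h B K ((ContinuousLinearMap.apply ℂ K ζ).toLinearMap.comp w) (c * ‖ζ‖)
    (by positivity) (fun b => by
      simp only [LinearMap.comp_apply, ContinuousLinearMap.coe_coe, ContinuousLinearMap.apply_apply]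
      calc ‖w b ζ‖ ≤ ‖w b‖ * ‖ζ‖ := (w b).le_opNorm ζ
        _ ≤ c * ‖b‖ * ‖ζ‖ := by gcongr; exact hwb b
        _ = c * ‖ζ‖ * ‖b‖ := by ring) κ x
  simpa only [LinearMap.comp_apply, ContinuousLinearMap.coe_coe,
    ContinuousLinearMap.apply_apply] using hgt

theorem norm_sandwich {B : Type u} [CStarAlgebra B] [PartialOrder B]
    [StarOrderedRing B] {N : ℕ} (s : Fin N → B) (p : B) (hp : 0 ≤ p) :
    ‖∑ i, s i * p * star (s i)‖ ≤ ‖p‖ * ‖∑ i, s i * star (s i)‖ := by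
  have h1 : p ≤ algebraMap ℝ B ‖p‖ := IsSelfAdjoint.le_algebraMap_norm_self hp.isSelfAdjoint
  have h2 : ∑ i, s i * p * star (s i) ≤ ‖p‖ • ∑ i, s i * star (s i) := by
    rw [Finset.smul_sum]
    refine Finset.sum_le_sum fun i _ => ?_
    have h3 := star_right_conjugate_le_conjugate h1 (s i)
    refine h3.trans (le_of_eq ?_)
    rw [Algebra.algebraMap_eq_smul_one, mul_smul_comm, mul_one, smul_mul_assoc]
  have h0 : 0 ≤ ∑ i, s i * p * star (s i) :=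
    Finset.sum_nonneg fun i _ => star_right_conjugate_nonneg hp (s i)
  refine (CStarAlgebra.norm_le_norm_of_nonneg_of_le h0 h2).trans ?_
  rw [norm_smul, norm_norm]

theorem col (h : St_gt.{u, v}) (B : Type u) [CStarAlgebra B] [PartialOrder B]
    [StarOrderedRing B] (K : Type v) [NormedAddCommGroup K] [InnerProductSpace ℂ K]
    [CompleteSpace K] (w : B →ₗ[ℂ] (K →L[ℂ] K)) (hw : IsHom w) (c : ℝ) (hc : 0 ≤ c)
    (hwb : ∀ b, ‖w b‖ ≤ c * ‖b‖) (hB : HasWords B) (κ : Type) [Fintype κ] (a : κ → B) (ζ : K) :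
    ∑ k, ‖w (a k) ζ‖ ^ 2 ≤ 9 * c ^ 4 * ‖∑ k, star (a k) * a k‖ * ‖ζ‖ ^ 2 := by
  set q : B := ∑ k, star (a k) * a k with hq
  set p : B := ∑ k, a k * star (a k) with hp
  have hp0 : 0 ≤ p := Finset.sum_nonneg fun k _ => mul_star_self_nonneg _
  refine le_of_forall_eps (z := 9 * c ^ 4 * ‖ζ‖ ^ 2 * (‖q‖ + 2 * ‖p‖)) (by positivity)
    fun e he => ?_
  set ε : ℝ := min e 1 with hε
  have hε0 : 0 < ε := lt_min he one_pos
  have hε1 : ε ≤ 1 := min_le_right _ _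
  have hεe : ε ≤ e := min_le_left _ _
  obtain ⟨N, s, hs1, hs2⟩ := hB ε hε0
  have hvb : ∀ b, ‖vmap w b‖ ≤ c * ‖b‖ := by
    intro b
    rw [norm_vmap, ← norm_star b]
    exact hwb _
  -- the row bound for the words
  have hrow : ∀ ξ : Fin N → K, ‖∑ i, w (star (s i)) (ξ i)‖ ^ 2 ≤
      (3 * c ^ 2 * (1 + ε)) * ∑ i, ‖ξ i‖ ^ 2 := by
    intro ξ
    refine row_of_col (fun b => w b) (fun b => vmap w b) (fun b => star_w w b) _
      (by positivity) (Fin N) (fun i => star (s i)) (fun z => ?_) ξ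
    have h1 := gt_app h B K (vmap w) c hc hvb (Fin N) s z
    simp only [star_star]
    refine h1.trans ?_
    have h2 : ‖∑ k, star (s k) * s k‖ + ‖∑ k, s k * star (s k)‖ ≤ 1 + ε := by
      rw [hs1]
      exact add_le_add Col.norm_one_le hs2
    calc 3 * (c * ‖z‖) ^ 2 * (‖∑ k, star (s k) * s k‖ + ‖∑ k, s k * star (s k)‖)
        ≤ 3 * (c * ‖z‖) ^ 2 * (1 + ε) := by gcongr
      _ = 3 * c ^ 2 * (1 + ε) * ‖z‖ ^ 2 := by ring
  have hdec : ∀ k, w (a k) ζ = ∑ i, w (star (s i)) (w (s i * a k) ζ) := by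
    intro k
    have h1 : a k = ∑ i, star (s i) * (s i * a k) := by
      have : ∑ i, star (s i) * (s i * a k) = (∑ i, star (s i) * s i) * a k := by
        rw [Finset.sum_mul]
        exact Finset.sum_congr rfl fun i _ => (mul_assoc _ _ _).symm
      rw [this, hs1, one_mul]
    have h2 : w (a k) = ∑ i, w (star (s i)) * w (s i * a k) := by
      conv_lhs => rw [h1]
      rw [map_sum]
      exact Finset.sum_congr rfl fun i _ => hw.mul _ _
    rw [h2]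
    simp only [ContinuousLinearMap.sum_apply, ContinuousLinearMap.mul_apply]
  have hk : ∀ k, ‖w (a k) ζ‖ ^ 2 ≤ (3 * c ^ 2 * (1 + ε)) * ∑ i, ‖w (s i * a k) ζ‖ ^ 2 := by
    intro k
    rw [hdec k]
    exact hrow _
  -- the Grothendieck inequality for the products
  have hgt := gt_app h B K w c hc hwb (Fin N × κ) (fun ik => s ik.1 * a ik.2) ζ
  have e1 : ∑ ik : Fin N × κ, star (s ik.1 * a ik.2) * (s ik.1 * a ik.2) = q := by
    rw [Fintype.sum_prod_type_right, hq]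
    refine Finset.sum_congr rfl fun k _ => ?_
    have : ∀ i, star (s i * a k) * (s i * a k) = star (a k) * (star (s i) * s i) * a k := by
      intro i
      rw [star_mul]
      simp only [mul_assoc]
    simp only [this]
    rw [← Finset.sum_mul, ← Finset.mul_sum, hs1, mul_one]
  have e2 : ∑ ik : Fin N × κ, (s ik.1 * a ik.2) * star (s ik.1 * a ik.2) =
      ∑ i, s i * p * star (s i) := by
    rw [Fintype.sum_prod_type]
    refine Finset.sum_congr rfl fun i _ => ?_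
    rw [hp, Finset.mul_sum, Finset.sum_mul]
    refine Finset.sum_congr rfl fun k _ => ?_
    rw [star_mul]
    simp only [mul_assoc]
  have e3 : ‖∑ i, s i * p * star (s i)‖ ≤ ‖p‖ * ε :=
    (norm_sandwich s p hp0).trans (by gcongr)
  rw [e1, e2] at hgt
  have hsw : ∑ ik : Fin N × κ, ‖w (s ik.1 * a ik.2) ζ‖ ^ 2 =
      ∑ k, ∑ i, ‖w (s i * a k) ζ‖ ^ 2 := by
    rw [Fintype.sum_prod_type_right]
  calc ∑ k, ‖w (a k) ζ‖ ^ 2
      ≤ ∑ k, (3 * c ^ 2 * (1 + ε)) * ∑ i, ‖w (s i * a k) ζ‖ ^ 2 :=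
        Finset.sum_le_sum fun k _ => hk k
    _ = (3 * c ^ 2 * (1 + ε)) * ∑ ik : Fin N × κ, ‖w (s ik.1 * a ik.2) ζ‖ ^ 2 := by
        rw [hsw, Finset.mul_sum]
    _ ≤ (3 * c ^ 2 * (1 + ε)) * (3 * (c * ‖ζ‖) ^ 2 * (‖q‖ + ‖p‖ * ε)) := by
        gcongr
        refine hgt.trans ?_
        gcongr
    _ = 9 * c ^ 4 * ‖ζ‖ ^ 2 * ((1 + ε) * (‖q‖ + ‖p‖ * ε)) := by ring
    _ ≤ 9 * c ^ 4 * ‖ζ‖ ^ 2 * (‖q‖ + (‖q‖ + 2 * ‖p‖) * e) := by
        have hq0 : 0 ≤ ‖q‖ := norm_nonneg _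
        have hpn : 0 ≤ ‖p‖ := norm_nonneg _
        have : (1 + ε) * (‖q‖ + ‖p‖ * ε) ≤ ‖q‖ + (‖q‖ + 2 * ‖p‖) * ε := by
          nlinarith [mul_nonneg hpn hε0.le, mul_nonneg (mul_nonneg hpn hε0.le) (sub_nonneg.2 hε1)]
        have h3 : (‖q‖ + 2 * ‖p‖) * ε ≤ (‖q‖ + 2 * ‖p‖) * e := by gcongr
        have h4 : (1 + ε) * (‖q‖ + ‖p‖ * ε) ≤ ‖q‖ + (‖q‖ + 2 * ‖p‖) * e := by linarith
        gcongr
    _ = 9 * c ^ 4 * ‖q‖ * ‖ζ‖ ^ 2 + 9 * c ^ 4 * ‖ζ‖ ^ 2 * (‖q‖ + 2 * ‖p‖) * e := by ring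

end P_A4

open P_A4

theorem p_A_col (h : St_gt.{u, v}) : A_col.{u, v} := by
  intro B _ _ _ K _ _ _ w hw c hc hwb hB κ _ a
  refine ⟨fun ζ => col h B K w hw c hc hwb hB κ a ζ, fun ξ => ?_⟩
  have hvb : ∀ b, ‖vmap w b‖ ≤ c * ‖b‖ := by
    intro b
    rw [norm_vmap, ← norm_star b]
    exact hwb _
  refine row_of_col (fun b => w b) (fun b => vmap w b) (fun b => star_w w b) _ (by positivity) κ a
    (fun ζ => ?_) ξ
  have := col h B K (vmap w) hw.vmap c hc hvb hB κ (fun k => star (a k)) ζ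
  simpa only [star_star] using this

end H711R2.KG
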