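import Mathlib
import Pool.Agent.H711R2.KG.Props

open scoped ComplexOrder InnerProductSpace ComplexConjugate
open Finset

noncomputable section

namespace H711R2.KG

open H759R2.Kad

universe u v w

namespace P_B10

theorem iso {A : Type u} [CStarAlgebra A] [PartialOrder A] [StarOrderedRing A]
    {B : Type w} [CStarAlgebra B] [PartialOrder B] [StarOrderedRing B] (φ : A ≃⋆ₐ[ℂ] B)
    {H : Type v} [NormedAddCommGroup H] [InnerProductSpace ℂ H] [CompleteSpace H]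
    (u : A →ₗ[ℂ] (H →L[ℂ] H)) (w : B →ₗ[ℂ] (H →L[ℂ] H)) (C : ℝ) (hC : 0 ≤ C)
    (hw : ∀ a, w (φ a) = u a) (m : ℕ) (hL : LvlBd w m C) : LvlBd u m C := by
  intro Y
  have hn : ‖CStarMatrix.mapₙₐ (n := Fin m) (φ : A →⋆ₙₐ[ℂ] B) Y‖ ≤ ‖Y‖ :=
    NonUnitalStarAlgHom.norm_apply_le _ _
  have he : amp w (Fin m) (CStarMatrix.mapₙₐ (n := Fin m) (φ : A →⋆ₙₐ[ℂ] B) Y) =
      amp u (Fin m) Y := by
    ext ξ i
    rw [amp_apply, amp_apply]
    refine Finset.sum_congr rfl fun j _ => ?_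
    rw [← hw]
    rfl
  rw [← he]
  exact (hL _).trans (mul_le_mul_of_nonneg_left hn hC)

end P_B10

theorem p_B_small (hsum : B_minsum.{u}) (hmat : B_mat.{u}) (hfin : B_fin.{v}) :
    B_small.{u, v} := by
  intro B _ _ _ hB K hK H _ _ _ u hu c hc hb m
  obtain ⟨n, g, hn, hg, hs, hmin⟩ := hsum B 1 K ⟨star_one B, one_mul 1⟩ hB.nontriv hK
  obtain ⟨φ⟩ := hmat B hB n g hn hg hs hmin
  let w : CStarMatrix (Fin n) (Fin n) ℂ →ₗ[ℂ] (H →L[ℂ] H) :=
    u ∘ₗ
      { toFun := fun X => φ.symm X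
        map_add' := fun X Y => map_add φ.symm X Y
        map_smul' := fun r X => map_smul φ.symm r X }
  have hwa : ∀ X, w X = u (φ.symm X) := fun X => rfl
  have hw : IsHom w := by
    refine ⟨?_, ?_⟩
    · intro X Y
      rw [hwa, hwa, hwa, map_mul]
      exact hu.mul _ _
    · rw [hwa, map_one]
      exact hu.one
  have hwb : ∀ X, ‖w X‖ ≤ c * ‖X‖ := by
    intro X
    rw [hwa]
    refine (hb _).trans (mul_le_mul_of_nonneg_left ?_ hc)
    exact NonUnitalStarAlgHom.norm_apply_le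
      (φ.symm : CStarMatrix (Fin n) (Fin n) ℂ →⋆ₙₐ[ℂ] B) X
  have h1 := hfin n H w hw c hc hwb m
  exact P_B10.iso φ u w (c ^ 2) (by positivity)
    (fun a => by rw [hwa, StarAlgEquiv.symm_apply_apply]) m h1

end H711R2.KG
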