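import Mathlib
import Pool.Agent.H711R2.KG.Props

/-! Task B11: repeated halving. -/

open scoped ComplexOrder InnerProductSpace ComplexConjugate
open Finset

noncomputable section

namespace H711R2.KG

universe u v

namespace P_B11

variable {B : Type u} [CStarAlgebra B]

theorem mul_prj {v q : B} (hv : star v * v = q) (hq : IsPrj q) : v * q = v := by
  have h1 : star (v - v * q) * (v - v * q) = 0 := by
    rw [star_sub, star_mul, hq.1, sub_mul, mul_sub, mul_sub]
    have e1 : star v * (v * q) = q := by rw [← mul_assoc, hv, hq.2]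
    have e2 : q * star v * v = q := by rw [mul_assoc, hv, hq.2]
    have e3 : q * star v * (v * q) = q := by rw [← mul_assoc, e2, hq.2]
    rw [hv, e1, e2, e3]
    simp
  have h2 := (CStarRing.star_mul_self_eq_zero_iff _).1 h1
  exact (sub_eq_zero.1 h2).symm

theorem eqv_refl {p : B} (hp : IsPrj p) : Eqv p p :=
  ⟨p, by rw [hp.1, hp.2], by rw [hp.1, hp.2]⟩

theorem eqv_symm {p q : B} (h : Eqv p q) : Eqv q p := by
  obtain ⟨v, h1, h2⟩ := h
  exact ⟨star v, by rw [star_star]; exact h2, by rw [star_star]; exact h1⟩

theorem eqv_trans {p q r : B} (hp : IsPrj p) (hr : IsPrj r) (h : Eqv p q) (h' : Eqv q r) :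
    Eqv p r := by
  obtain ⟨x, h1, h2⟩ := h
  obtain ⟨y, h3, h4⟩ := h'
  refine ⟨y * x, ?_, ?_⟩
  · calc star (y * x) * (y * x) = star x * (star y * y) * x := by
          rw [star_mul]; simp only [mul_assoc]
      _ = (star x * x) * (star x * x) := by rw [h3, ← h2]; simp only [mul_assoc]
      _ = p := by rw [h1, hp.2]
  · calc y * x * star (y * x) = y * (x * star x) * star y := by
          rw [star_mul]; simp only [mul_assoc]
      _ = (y * star y) * (y * star y) := by rw [h2, ← h3]; simp only [mul_assoc]
      _ = r := by rw [h4, hr.2]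

/-- the facts about a halving partial isometry -/
structure Half (e v : B) : Prop where
  pe : IsPrj e
  ev : e * v = v
  ve : v * e = v
  vv : v * v = 0
  p1 : IsPrj (star v * v)

namespace Half

variable {e v : B}

theorem v1 (h : Half e v) : v * (star v * v) = v := mul_prj rfl h.p1

theorem vv' (h : Half e v) : star v * star v = 0 := by rw [← star_mul, h.vv, star_zero]

theorem ev' (h : Half e v) : e * star v = star v := by
  have : star (v * e) = star v := by rw [h.ve]
  rwa [star_mul, h.pe.1] at this

theorem ve' (h : Half e v) : star v * e = star v := by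
  have : star (e * v) = star v := by rw [h.ev]
  rwa [star_mul, h.pe.1] at this

theorem v1' (h : Half e v) : star v * v * star v = star v := by
  have : star (v * (star v * v)) = star v := by rw [h.v1]
  rwa [star_mul, star_mul, star_star] at this

theorem e0v (h : Half e v) : (e - star v * v - v * star v) * v = 0 := by
  rw [sub_mul, sub_mul, h.ev, mul_assoc, h.vv, mul_assoc v, h.v1]
  simp

theorem e0v' (h : Half e v) : (e - star v * v - v * star v) * star v = 0 := by
  rw [sub_mul, sub_mul, h.ev', h.v1', mul_assoc v, h.vv']
  simp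

theorem ve0 (h : Half e v) : v * (e - star v * v - v * star v) = 0 := by
  rw [mul_sub, mul_sub, h.ve, h.v1, ← mul_assoc, h.vv]
  simp

theorem ve0' (h : Half e v) : star v * (e - star v * v - v * star v) = 0 := by
  rw [mul_sub, mul_sub, h.ve', ← mul_assoc, h.vv', ← mul_assoc, h.v1']
  simp

theorem p0 (h : Half e v) : IsPrj (e - star v * v - v * star v) := by
  refine ⟨?_, ?_⟩
  · rw [star_sub, star_sub, h.pe.1, star_mul, star_mul, star_star]
  · have h1 : (e - star v * v - v * star v) * e = e - star v * v - v * star v := by
      rw [sub_mul, sub_mul, h.pe.2, mul_assoc, h.ve, mul_assoc, h.ve']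
    conv_lhs => rw [mul_sub, mul_sub]
    rw [h1, ← mul_assoc, ← mul_assoc, h.e0v, h.e0v']
    simp

theorem ee0 (h : Half e v) : e * (e - star v * v - v * star v) = e - star v * v - v * star v := by
  rw [mul_sub, mul_sub, h.pe.2, ← mul_assoc, h.ev', ← mul_assoc, h.ev]

end Half

/-- conjugation by `v` -/
def cj (v x : B) : B := v * x * star v

section cj

variable {e v : B}

theorem cj_star (x : B) : star (cj v x) = cj v (star x) := by
  unfold cj
  rw [star_mul, star_mul, star_star]
  simp only [mul_assoc]

theorem cj_mul (x : B) {y : B} (hy : star v * v * y = y) : cj v x * cj v y = cj v (x * y) := by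
  unfold cj
  calc v * x * star v * (v * y * star v) = v * x * (star v * v * y) * star v := by
        simp only [mul_assoc]
    _ = v * (x * y) * star v := by rw [hy]; simp only [mul_assoc]

theorem prj_cj {x : B} (hx : IsPrj x) (h1 : star v * v * x = x) : IsPrj (cj v x) :=
  ⟨by rw [cj_star, hx.1], by rw [cj_mul x h1, hx.2]⟩

theorem right_of {p x : B} (hx : IsPrj x) (hp : IsPrj p) (h : p * x = x) : x * p = x := by
  have : star (p * x) = star x := by rw [h]
  rwa [star_mul, hx.1, hp.1] at this

theorem mul_cj (h : Half e v) {x : B} (hx : x * (star v * v) = x) (y : B) : x * cj v y = 0 := by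
  unfold cj
  calc x * (v * y * star v) = x * (star v * v) * (v * y * star v) := by rw [hx]
    _ = x * star v * (v * v) * y * star v := by simp only [mul_assoc]
    _ = 0 := by rw [h.vv]; simp

theorem cj_mul' (h : Half e v) (x : B) {y : B} (hy : star v * v * y = y) : cj v x * y = 0 := by
  unfold cj
  calc v * x * star v * y = v * x * star v * (star v * v * y) := by rw [hy]
    _ = v * x * (star v * star v) * v * y := by simp only [mul_assoc]
    _ = 0 := by rw [h.vv']; simp

theorem e0_mul (h : Half e v) {x : B} (hx : star v * v * x = x) :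
    (e - star v * v - v * star v) * x = 0 := by
  calc (e - star v * v - v * star v) * x
      = (e - star v * v - v * star v) * star v * (v * x) := by
        rw [mul_assoc, ← mul_assoc (star v), hx]
    _ = 0 := by rw [h.e0v', zero_mul]

theorem mul_e0 (h : Half e v) {x : B} (hx : x * (star v * v) = x) :
    x * (e - star v * v - v * star v) = 0 := by
  calc x * (e - star v * v - v * star v)
      = x * star v * (v * (e - star v * v - v * star v)) := by
        rw [← mul_assoc (x * star v), mul_assoc x, hx]
    _ = 0 := by rw [h.ve0, mul_zero]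

theorem e0_cj (h : Half e v) (x : B) : (e - star v * v - v * star v) * cj v x = 0 := by
  unfold cj
  rw [← mul_assoc, ← mul_assoc, h.e0v]
  simp

theorem cj_e0 (h : Half e v) (x : B) : cj v x * (e - star v * v - v * star v) = 0 := by
  unfold cj
  rw [mul_assoc, h.ve0', mul_zero]

theorem e_cj (h : Half e v) (x : B) : e * cj v x = cj v x := by
  unfold cj
  rw [← mul_assoc, ← mul_assoc, h.ev]

theorem e_mul (h : Half e v) {x : B} (hx : star v * v * x = x) : e * x = x := by
  calc e * x = e * star v * (v * x) := by rw [mul_assoc, ← mul_assoc (star v), hx]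
    _ = x := by rw [h.ev', ← mul_assoc, hx]

theorem eqv_cj {x : B} (hx : IsPrj x) (h1 : star v * v * x = x) : Eqv x (cj v x) := by
  refine ⟨v * x, ?_, ?_⟩
  · rw [star_mul, hx.1]
    calc x * star v * (v * x) = x * (star v * v * x) := by simp only [mul_assoc]
      _ = x := by rw [h1, hx.2]
  · rw [star_mul, hx.1]
    unfold cj
    calc v * x * (x * star v) = v * (x * x) * star v := by simp only [mul_assoc]
      _ = v * x * star v := by rw [hx.2]

theorem min_cj (h : Half e v) {g : B} (hg : IsMin g) (h1 : star v * v * g = g) :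
    IsMin (cj v g) := by
  have hg1 : g * (star v * v) = g := right_of hg.1 h.p1 h1
  have hback : star v * cj v g * v = g := by
    unfold cj
    calc star v * (v * g * star v) * v = star v * v * g * (star v * v) := by
          simp only [mul_assoc]
      _ = g := by rw [h1, hg1]
  refine ⟨prj_cj hg.1 h1, ?_, ?_⟩
  · intro h0
    apply hg.2.1
    rw [← hback, h0]
    simp
  · intro p hp hgp
    have he2 : v * star v * cj v g = cj v g := by
      unfold cj
      calc v * star v * (v * g * star v) = v * (star v * v * g) * star v := by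
            simp only [mul_assoc]
        _ = v * g * star v := by rw [h1]
    have he2p : v * star v * p = p := by rw [← hgp, ← mul_assoc, he2]
    have hpe2 : p * (v * star v) = p := by
      have : star (v * star v * p) = star p := by rw [he2p]
      rwa [star_mul, star_mul, star_star, hp.1] at this
    have hp' : IsPrj (star v * p * v) := by
      refine ⟨?_, ?_⟩
      · rw [star_mul, star_mul, star_star, hp.1]
        simp only [mul_assoc]
      · calc star v * p * v * (star v * p * v) = star v * (p * (v * star v)) * p * v := by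
              simp only [mul_assoc]
          _ = star v * p * v := by rw [hpe2, mul_assoc (star v) p p, hp.2]
    have hgp' : g * (star v * p * v) = star v * p * v := by
      have : star v * (cj v g * p) * v = star v * p * v := by rw [hgp]
      rw [← this]
      unfold cj
      calc g * (star v * (v * g * star v * p) * v)
          = g * (star v * v) * g * star v * p * v := by simp only [mul_assoc]
        _ = star v * v * g * star v * p * v := by rw [hg1, hg.1.2, h1]
        _ = star v * (v * g * star v * p) * v := by simp only [mul_assoc]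
    have hpp : p = v * (star v * p * v) * star v := by
      calc p = v * star v * p * (v * star v) := by rw [he2p, hpe2]
        _ = v * (star v * p * v) * star v := by simp only [mul_assoc]
    rcases hg.2.2 _ hp' hgp' with h0 | h0
    · left
      rw [hpp, h0]
      simp
    · right
      rw [hpp, h0]
      rfl

end cj

/-- version with arbitrary finite index types -/
theorem aux [PartialOrder B] [StarOrderedRing B] (hB : IsFib B) (k : ℕ) : ∀ e : B, IsPrj e →
    ∃ (I : Type) (_ : Fintype I) (J : Type) (_ : Fintype J) (f : I → B) (g : J → B),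
      Fintype.card I = 2 ^ k ∧ OrthIn e f ∧ OrthIn e g ∧ (∀ i j, f i * g j = 0) ∧
      ∑ i, f i + ∑ j, g j = e ∧ (∀ i j, Eqv (f i) (f j)) ∧ ∀ j, g j = 0 ∨ IsMin (g j) := by
  induction k with
  | zero =>
    intro e he
    refine ⟨Unit, inferInstance, Empty, inferInstance, fun _ => e, fun x => x.elim, by simp,
      ⟨fun _ => ⟨he, he.2⟩, fun i j hij => absurd rfl hij⟩,
      ⟨fun x => x.elim, fun x => x.elim⟩, fun _ x => x.elim, by simp,
      fun _ _ => eqv_refl he, fun x => x.elim⟩
  | succ k ih =>
    intro e he
    obtain ⟨v, hv1, hv2, hv3, hv4, hv5⟩ := hB.half e he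
    have h : Half e v := ⟨he, hv1, hv2, hv3, hv4⟩
    obtain ⟨I, _, J, _, f, g, hcard, hf, hg, hfg, hsum, heqv, hmin⟩ := ih (star v * v) hv4
    have hfp : ∀ i, IsPrj (f i) := fun i => (hf.1 i).1
    have hf1 : ∀ i, star v * v * f i = f i := fun i => (hf.1 i).2
    have hf1' : ∀ i, f i * (star v * v) = f i := fun i => right_of (hfp i) h.p1 (hf1 i)
    have hgp : ∀ i, IsPrj (g i) := fun i => (hg.1 i).1
    have hg1 : ∀ i, star v * v * g i = g i := fun i => (hg.1 i).2
    have hg1' : ∀ i, g i * (star v * v) = g i := fun i => right_of (hgp i) h.p1 (hg1 i)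
    have hcj0 : cj v (0 : B) = 0 := by unfold cj; simp
    refine ⟨I ⊕ I, inferInstance, J ⊕ J ⊕ Unit, inferInstance,
      Sum.elim f (fun i => cj v (f i)),
      Sum.elim g (Sum.elim (fun j => cj v (g j)) (fun _ => e - star v * v - v * star v)),
      ?_, ⟨?_, ?_⟩, ⟨?_, ?_⟩, ?_, ?_, ?_, ?_⟩
    · rw [Fintype.card_sum, hcard, pow_succ]
      ring
    · rintro (i | i)
      · exact ⟨hfp i, e_mul h (hf1 i)⟩
      · exact ⟨prj_cj (hfp i) (hf1 i), e_cj h _⟩
    · rintro (i | i) (j | j) hij
      · exact hf.2 i j (fun hh => hij (by rw [hh]))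
      · exact mul_cj h (hf1' i) _
      · exact cj_mul' h _ (hf1 j)
      · simp only [Sum.elim_inr]
        rw [cj_mul _ (hf1 j), hf.2 i j (fun hh => hij (by rw [hh])), hcj0]
    · rintro (i | i | i)
      · exact ⟨hgp i, e_mul h (hg1 i)⟩
      · exact ⟨prj_cj (hgp i) (hg1 i), e_cj h _⟩
      · exact ⟨h.p0, h.ee0⟩
    · rintro (i | i | i) (j | j | j) hij
      · exact hg.2 i j (fun hh => hij (by rw [hh]))
      · exact mul_cj h (hg1' i) _
      · exact mul_e0 h (hg1' i)
      · exact cj_mul' h _ (hg1 j)
      · simp only [Sum.elim_inr, Sum.elim_inl]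
        rw [cj_mul _ (hg1 j), hg.2 i j (fun hh => hij (by rw [hh])), hcj0]
      · exact cj_e0 h _
      · exact e0_mul h (hg1 j)
      · exact e0_cj h _
      · exact absurd rfl hij
    · rintro (i | i) (j | j | j)
      · exact hfg i j
      · exact mul_cj h (hf1' i) _
      · exact mul_e0 h (hf1' i)
      · exact cj_mul' h _ (hg1 j)
      · simp only [Sum.elim_inr, Sum.elim_inl]
        rw [cj_mul _ (hg1 j), hfg i j, hcj0]
      · exact cj_e0 h _
    · simp only [Fintype.sum_sum_type, Sum.elim_inl, Sum.elim_inr, Finset.univ_unique,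
        Finset.sum_const, Finset.card_singleton, one_smul]
      have hc : ∑ i, cj v (f i) + ∑ j, cj v (g j) = v * star v := by
        unfold cj
        rw [← Finset.sum_mul, ← Finset.mul_sum, ← Finset.sum_mul, ← Finset.mul_sum, ← add_mul,
          ← mul_add, hsum, h.v1]
      calc ∑ i, f i + ∑ i, cj v (f i) +
            (∑ j, g j + (∑ j, cj v (g j) + (e - star v * v - v * star v)))
          = (∑ i, f i + ∑ j, g j) + (∑ i, cj v (f i) + ∑ j, cj v (g j)) +
            (e - star v * v - v * star v) := by abel
        _ = e := by rw [hsum, hc]; abel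
    · have hc : ∀ i j, Eqv (f i) (cj v (f j)) := fun i j =>
        eqv_trans (hfp i) (prj_cj (hfp j) (hf1 j)) (heqv i j) (eqv_cj (hfp j) (hf1 j))
      rintro (i | i) (j | j)
      · exact heqv i j
      · exact hc i j
      · exact eqv_symm (hc j i)
      · exact eqv_trans (prj_cj (hfp i) (hf1 i)) (prj_cj (hfp j) (hf1 j))
          (eqv_symm (hc i i)) (hc i j)
    · rintro (j | j | j)
      · exact hmin j
      · rcases hmin j with h0 | h0
        · left
          simp only [Sum.elim_inr, Sum.elim_inl]
          rw [h0, hcj0]
        · right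
          exact min_cj h h0 (hg1 j)
      · by_cases h0 : e - star v * v - v * star v = 0
        · left
          exact h0
        · right
          exact ⟨h.p0, h0, hv5⟩

end P_B11

open P_B11

theorem p_B_dk : B_dk.{u} := by
  intro B _ _ _ hB k e he
  obtain ⟨I, _, J, _, f, g, hcard, hf, hg, hfg, hsum, heqv, hmin⟩ := aux hB k e he
  let a : I ≃ Fin (2 ^ k) := Fintype.equivFinOfCardEq hcard
  let b : J ≃ Fin (Fintype.card J) := Fintype.equivFin J
  refine ⟨fun i => f (a.symm i), Fintype.card J, fun j => g (b.symm j),
    ⟨fun i => hf.1 _, fun i j hij => hf.2 _ _ (fun hh => hij (a.symm.injective hh))⟩,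
    ⟨fun i => hg.1 _, fun i j hij => hg.2 _ _ (fun hh => hij (b.symm.injective hh))⟩,
    fun i j => hfg _ _, ?_, fun i j => heqv _ _, fun j => hmin _⟩
  rw [Equiv.sum_comp a.symm f, Equiv.sum_comp b.symm g]
  exact hsum

end H711R2.KG
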