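import Mathlib
import Pool.Agent.H711R2.KG.Props

/-!
Task B12 (helper40): the decomposition of the unit in the infinite dimensional case.
-/

open scoped ComplexOrder InnerProductSpace ComplexConjugate
open Finset

noncomputable section

namespace H711R2.KG

open H759R2.Kad

universe u v

namespace P_B12

theorem re_sum {B : Type u} [CStarAlgebra B] (τ : B →ₗ[ℂ] ℂ) {I : Type} [Fintype I] (g : I → B) :
    (τ (∑ i, g i)).re = ∑ i, (τ (g i)).re := by
  rw [map_sum, Complex.re_sum]

theorem exists_ne {B : Type u} [CStarAlgebra B] (τ : B →ₗ[ℂ] ℂ) {I : Type} [Fintype I] (g : I → B)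
    (h : (τ (∑ i, g i)).re ≠ 0) : ∃ i, (τ (g i)).re ≠ 0 := by
  by_contra hc
  push Not at hc
  apply h
  rw [re_sum]
  exact Finset.sum_eq_zero fun i _ => hc i

theorem sub_trans_eqv {B : Type u} [CStarAlgebra B] {r p q : B} (h : Sub r p) (he : Eqv p q) :
    Sub r q := by
  obtain ⟨v, hv1, hv2⟩ := h
  obtain ⟨w, hw1, hw2⟩ := he
  refine ⟨w * v, ?_, ?_⟩
  · calc star (w * v) * (w * v) = star v * ((star w * w) * v) := by
          rw [star_mul]; simp only [mul_assoc]
      _ = r := by rw [hw1, hv2, hv1]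
  · calc q * (w * v) = w * ((star w * w) * v) := by
          rw [← hw2]; simp only [mul_assoc]
      _ = w * v := by rw [hw1, hv2]

end P_B12

theorem p_B_dich (hdk : B_dk.{u}) (hsum : B_minsum.{u}) (htrs : B_trsmall.{u}) (hT : T_sub.{u}) :
    B_dich.{u} := by
  intro B _ _ _ hF τ hτ hbig k
  obtain ⟨hT1, hT2, hT3, hT4⟩ := hT B τ hτ
  obtain ⟨f, N, g, hf, hg, hfg, hs, heq, hmin⟩ := hdk B hF k 1 ⟨star_one B, one_mul 1⟩
  have h1 : IsPrj (1 : B) := ⟨star_one B, one_mul 1⟩
  obtain ⟨hr, -⟩ := hT4 1 (Fin N) g h1 hg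
  set r : B := ∑ j, g j with hrdef
  have hk : 0 < 2 ^ k := by positivity
  let i₀ : Fin (2 ^ k) := ⟨0, hk⟩
  have hτi : ∀ i, τ (f i) = τ (f i₀) := fun i => hT3 _ _ (heq i i₀)
  set t : ℝ := (τ (f i₀)).re with ht
  have ht0 : 0 ≤ t := (hT1 (f i₀) (hf.1 i₀).1).1
  have hr0 : 0 ≤ (τ r).re := (hT1 r hr).1
  have htot : (2 ^ k : ℝ) * t + (τ r).re = 1 := by
    have h2 : (τ (∑ i, f i + r)).re = 1 := by rw [hs, hτ.one]; simp
    rw [map_add, Complex.add_re, P_B12.re_sum] at h2
    rw [← h2]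
    congr 1
    rw [Finset.sum_congr rfl (fun i _ => by rw [hτi i])]
    simp [ht]
  -- a minimal projection of nonzero trace is impossible
  have key : ∀ x : B, IsMin x → (τ x).re ≠ 0 → False := by
    intro x hx hx0
    obtain ⟨K, hK⟩ := htrs B hF τ hτ x hx hx0
    exact hbig K hK
  rcases hF.comp r (f i₀) hr (hf.1 i₀).1 with hc | hc
  · -- `r` is subordinate to all `f i`
    have hle : (τ r).re ≤ t := hT2 r (f i₀) hr (hf.1 i₀).1 hc
    have htpos : 0 < t := by
      have h2k : (0 : ℝ) < 2 ^ k := by positivity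
      nlinarith
    have hsub : ∀ i, Sub r (f i) := fun i => P_B12.sub_trans_eqv hc (heq i₀ i)
    have hpos : ∀ i, 0 < (τ (f i)).re := fun i => by rw [hτi i]; exact htpos
    refine ⟨f, r, hf, hr, ?_, hs, heq, hsub, hpos, ?_⟩
    · intro i
      rw [hrdef, Finset.mul_sum]
      exact Finset.sum_eq_zero fun j _ => hfg i j
    · intro i K hK
      have hne : f i ≠ 0 := by
        intro h0
        have := hpos i
        rw [h0, map_zero] at this
        simp at this
      obtain ⟨n, g', -, -, hg's, hg'm⟩ := hsum B (f i) K (hf.1 i).1 hne hK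
      have : (τ (∑ j, g' j)).re ≠ 0 := by rw [hg's]; exact (hpos i).ne'
      obtain ⟨j, hj⟩ := P_B12.exists_ne τ g' this
      exact key _ (hg'm j) hj
  · exfalso
    have hle : t ≤ (τ r).re := hT2 (f i₀) r (hf.1 i₀).1 hr hc
    have hrpos : 0 < (τ r).re := by
      have h2k : (0 : ℝ) < 2 ^ k := by positivity
      by_contra hcon
      push Not at hcon
      have h0 : (τ r).re = 0 := le_antisymm hcon hr0
      have h0' : t = 0 := le_antisymm (h0 ▸ hle) ht0
      rw [h0, h0'] at htot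
      simp at htot
    obtain ⟨j, hj⟩ := P_B12.exists_ne τ g hrpos.ne'
    rcases hmin j with h0 | h0
    · rw [h0, map_zero] at hj
      simp at hj
    · exact key _ h0 hj

end H711R2.KG
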