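import Mathlib
import Pool.Agent.H711R2.KG.Props

/-!
# Task B13: nearly orthogonal unitaries (helper884)
-/

open scoped ComplexOrder InnerProductSpace ComplexConjugate
open Finset

noncomputable section

namespace H711R2.KG

open H759R2.Kad

universe u v

namespace P_B13

theorem sum_root {n : ℕ} (hn : 0 < n) {ζ : ℂ} (hζ : IsPrimitiveRoot ζ n) {a b : ℕ} (ha : a < n)
    (hb : b < n) (hab : a ≠ b) :
    ∑ i : Fin n, (conj (ζ ^ (a * (i : ℕ))) * ζ ^ (b * (i : ℕ))) = 0 := by
  have h1 : ‖ζ‖ = 1 := hζ.norm'_eq_one hn.ne'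
  have hc : conj ζ * ζ = 1 := by
    rw [← Complex.normSq_eq_conj_mul_self, Complex.normSq_eq_norm_sq, h1]; simp
  have hζ0 : ζ ≠ 0 := hζ.ne_zero hn.ne'
  set z : ℂ := conj ζ ^ a * ζ ^ b with hz
  have hzn : z ^ n = 1 := by
    rw [hz, mul_pow, ← pow_mul, ← pow_mul, mul_comm a, mul_comm b, pow_mul, pow_mul,
      ← map_pow, hζ.pow_eq_one]
    simp
  have hz1 : z ≠ 1 := by
    intro h
    apply hab
    apply hζ.pow_inj ha hb
    have h2 : ζ ^ a * z = ζ ^ b := by
      rw [hz, ← mul_assoc, ← mul_pow, mul_comm ζ, hc, one_pow, one_mul]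
    rw [← h2, h, mul_one]
  have h3 : ∀ i : Fin n, conj (ζ ^ (a * (i : ℕ))) * ζ ^ (b * (i : ℕ)) = z ^ (i : ℕ) := by
    intro i
    rw [hz, mul_pow, pow_mul, pow_mul, map_pow, map_pow]
  rw [sum_congr rfl fun i _ => h3 i, Fin.sum_univ_eq_sum_range (fun i => z ^ i) n,
    geom_sum_eq hz1, hzn, sub_self, zero_div]

section

variable {B : Type u} [CStarAlgebra B]

/-- A partial isometry is absorbed by its source projection. -/
theorem mul_src {v r : B} (hr : IsPrj r) (h : star v * v = r) : v * r = v := by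
  have h0 : star (v - v * r) * (v - v * r) = 0 := by
    rw [star_sub, star_mul, hr.1]
    have : (star v - r * star v) * (v - v * r)
        = star v * v - star v * v * r - r * (star v * v) + r * (star v * v) * r := by
      noncomm_ring
    rw [this, h, hr.2, hr.2]
    abel
  have h1 := CStarRing.star_mul_self_eq_zero_iff (v - v * r) |>.1 h0
  exact (sub_eq_zero.1 h1).symm

end

section

variable {B : Type u} [CStarAlgebra B] {n : ℕ} {f : Fin n → B} {r : B}

/-- Diagonal elements. -/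
def dg (f : Fin n → B) (r : B) (c : Fin n → ℂ) : B := ∑ j, c j • f j + r

theorem star_dg (hf : ∀ i, star (f i) = f i) (hr : star r = r) (c : Fin n → ℂ) :
    star (dg f r c) = dg f r (fun i => conj (c i)) := by
  unfold dg
  rw [star_add, star_sum, hr]
  congr 1
  refine sum_congr rfl fun i _ => ?_
  rw [star_smul, hf]
  rfl

theorem dg_mul (hff : ∀ i, f i * f i = f i) (hrr : r * r = r) (hfr : ∀ i, f i * r = 0)
    (hrf : ∀ i, r * f i = 0) (hij : ∀ i j, i ≠ j → f i * f j = 0) (c d : Fin n → ℂ) :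
    dg f r c * dg f r d = dg f r (fun i => c i * d i) := by
  unfold dg
  rw [add_mul, mul_add, mul_add, hrr]
  have h1 : (∑ j, c j • f j) * (∑ j, d j • f j) = ∑ j, (c j * d j) • f j := by
    rw [sum_mul]
    refine sum_congr rfl fun i _ => ?_
    rw [mul_sum, sum_eq_single i]
    · rw [smul_mul_smul_comm, hff]
    · intro j _ hji
      rw [smul_mul_smul_comm, hij i j (Ne.symm hji), smul_zero]
    · intro h; exact absurd (mem_univ _) h
  have h2 : (∑ j, c j • f j) * r = 0 := by
    rw [sum_mul]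
    refine sum_eq_zero fun i _ => ?_
    rw [smul_mul_assoc, hfr, smul_zero]
  have h3 : r * (∑ j, d j • f j) = 0 := by
    rw [mul_sum]
    refine sum_eq_zero fun i _ => ?_
    rw [mul_smul_comm, hrf, smul_zero]
  rw [h1, h2, h3, add_zero, zero_add]

end

end P_B13

open P_B13 in
theorem p_B_orth : B_orth.{u} := by
  intro B _ _ _ τ hτ hdec K δ hδ
  obtain ⟨k, hk, hkδ⟩ : ∃ k : ℕ, K ≤ 2 ^ k ∧ ((2 : ℝ) ^ k)⁻¹ ≤ δ := by
    obtain ⟨m, hm⟩ := exists_nat_gt (δ⁻¹)
    refine ⟨max K m, ?_, ?_⟩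
    · exact (Nat.lt_two_pow_self.le).trans (Nat.pow_le_pow_right (by norm_num) (le_max_left _ _))
    · have h1 : (m : ℝ) ≤ (2 : ℝ) ^ (max K m) := by
        have : m ≤ 2 ^ (max K m) :=
          (Nat.lt_two_pow_self.le).trans (Nat.pow_le_pow_right (by norm_num) (le_max_right _ _))
        exact_mod_cast this
      rw [inv_le_comm₀ (by positivity) hδ]
      exact hm.le.trans h1
  obtain ⟨f, r, hf, hr, hfr, hsum, heq, hsub, -, -⟩ := hdec k
  have hn0 : 0 < 2 ^ k := by positivity
  haveI : NeZero (2 ^ k) := ⟨hn0.ne'⟩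
  have hfs : ∀ i, star (f i) = f i := fun i => (hf.1 i).1.1
  have hff : ∀ i, f i * f i = f i := fun i => (hf.1 i).1.2
  have hij : ∀ i j, i ≠ j → f i * f j = 0 := hf.2
  have hrf : ∀ i, r * f i = 0 := by
    intro i
    have := congrArg star (hfr i)
    rwa [star_mul, hfs, hr.1, star_zero] at this
  have hst := star_dg (f := f) (r := r) hfs hr.1
  have hml := dg_mul (f := f) (r := r) hff hr.2 hfr hrf hij
  have hone : dg f r (fun _ => 1) = 1 := by
    unfold dg
    simp only [one_smul]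
    exact hsum
  -- traces
  have htr : ∀ i, τ (f i) = τ (f 0) := by
    intro i
    obtain ⟨v, h1, h2⟩ := heq i 0
    rw [← h1, ← h2, hτ.comm]
  have hτdg : ∀ c : Fin (2 ^ k) → ℂ, τ (dg f r c) = (∑ i, c i) * τ (f 0) + τ r := by
    intro c
    unfold dg
    rw [map_add, map_sum, sum_mul]
    congr 1
    refine sum_congr rfl fun i _ => ?_
    rw [map_smul, htr, smul_eq_mul]
  have hr0 : 0 ≤ τ r := by
    have := hτ.pos r
    rwa [hr.1, hr.2] at this
  have hrle : τ r ≤ τ (f 0) := by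
    obtain ⟨v, h1, h2⟩ := hsub 0
    have hvr := mul_src hr h1
    have hv2 : star v * f 0 = star v := by
      have := congrArg star h2
      rwa [star_mul, hfs] at this
    have hq : star (f 0 - v * star v) * (f 0 - v * star v) = f 0 - v * star v := by
      rw [star_sub, star_mul, star_star, hfs]
      have e1 : (f 0 - v * star v) * (f 0 - v * star v)
          = f 0 * f 0 - (f 0 * v) * star v - v * (star v * f 0) + v * (star v * v) * star v := by
        noncomm_ring
      rw [e1, hff, h2, hv2, h1, hvr]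
      abel
    have h3 := hτ.pos (f 0 - v * star v)
    rw [hq, map_sub, hτ.comm v (star v), h1] at h3
    exact sub_nonneg.1 h3
  have htot : (2 : ℂ) ^ k * τ (f 0) + τ r = 1 := by
    have h1 := hτdg (fun _ => 1)
    rw [hone, hτ.one] at h1
    rw [h1]
    simp
  have hnorm : ‖τ r‖ ≤ δ := by
    rw [Complex.le_def] at hr0 hrle
    have h1 : τ r = ((τ r).re : ℂ) := by
      apply Complex.ext
      · simp
      · simpa using hr0.2.symm
    rw [h1, Complex.norm_real, Real.norm_eq_abs, abs_of_nonneg (by simpa using hr0.1)]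
    have h2 : (2 : ℝ) ^ k * (τ (f 0)).re + (τ r).re = 1 := by
      have h3 := congrArg Complex.re htot
      have h4 : ((2 : ℂ) ^ k * τ (f 0)).re = (2 : ℝ) ^ k * (τ (f 0)).re := by
        have : ((2 : ℂ) ^ k) = (((2 : ℝ) ^ k : ℝ) : ℂ) := by push_cast; rfl
        rw [this, Complex.re_ofReal_mul]
      rw [Complex.add_re, h4] at h3
      simpa using h3
    have h5 : 0 ≤ (τ r).re := by simpa using hr0.1
    have h6 : (2 : ℝ) ^ k * (τ (f 0)).re ≤ 1 := by linarith
    have h7 : (τ (f 0)).re ≤ ((2 : ℝ) ^ k)⁻¹ := by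
      rw [← mul_inv_cancel₀ (a := (2 : ℝ) ^ k) (by positivity)] at h6
      exact le_of_mul_le_mul_left h6 (by positivity)
    exact hrle.1.trans (h7.trans hkδ)
  obtain ⟨ζ, hζ⟩ : ∃ ζ : ℂ, IsPrimitiveRoot ζ (2 ^ k) := ⟨_, Complex.isPrimitiveRoot_exp _ hn0.ne'⟩
  have hζn : ‖ζ‖ = 1 := hζ.norm'_eq_one hn0.ne'
  have hc : conj ζ * ζ = 1 := by
    rw [← Complex.normSq_eq_conj_mul_self, Complex.normSq_eq_norm_sq, hζn]; simp
  let c : Fin K → Fin (2 ^ k) → ℂ := fun a i => ζ ^ ((a : ℕ) * (i : ℕ))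
  have hcc : ∀ a i, conj (c a i) * c a i = 1 := by
    intro a i
    simp only [c]
    rw [map_pow, ← mul_pow, hc, one_pow]
  have hunit : ∀ a, dg f r (c a) ∈ unitary B := by
    intro a
    rw [Unitary.mem_iff]
    constructor
    · rw [hst, hml, ← hone]
      congr 1
      funext i
      exact hcc a i
    · rw [hst, hml, ← hone]
      congr 1
      funext i
      rw [mul_comm]
      exact hcc a i
  refine ⟨fun a => ⟨dg f r (c a), hunit a⟩, fun a b hab => ?_⟩
  show ‖τ (star (dg f r (c a)) * dg f r (c b))‖ ≤ δ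
  rw [hst, hml, hτdg]
  have := sum_root hn0 hζ (a := a) (b := b) (lt_of_lt_of_le a.2 hk) (lt_of_lt_of_le b.2 hk)
    (fun h => hab (Fin.ext h))
  simp only [c]
  rw [this, zero_mul, zero_add]
  exact hnorm

end H711R2.KG
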