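import Mathlib
import Pool.Agent.H711R2.KG.Props

open scoped ComplexOrder InnerProductSpace ComplexConjugate
open Finset

noncomputable section

namespace H711R2.KG

open H759R2.Kad

universe u v

namespace P_B3

variable {B : Type u} [CStarAlgebra B] [PartialOrder B] [StarOrderedRing B]

lemma smul_mono_of_nonneg {g : B} (hg : 0 ≤ g) {s t : ℝ} (h : s ≤ t) : s • g ≤ t • g := by
  have : 0 ≤ (t - s) • g := smul_nonneg (sub_nonneg.2 h) hg
  rw [sub_smul] at this
  exact sub_nonneg.1 this

lemma prj_nonneg {g : B} (hg : IsPrj g) : 0 ≤ g := by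
  have h := star_mul_self_nonneg g
  rwa [hg.1, hg.2] at h

/-- Self-adjoint elements of the corner of a minimal projection. -/
lemma scal_sa (hB : IsFib B) {g : B} (hg : IsMin g) {a : B} (ha : IsSelfAdjoint a)
    (hga : g * a * g = a) : ∃ l : ℝ, a = l • g := by
  obtain ⟨hp, hg0, hmin⟩ := hg
  have hg0' : 0 ≤ g := prj_nonneg hp
  have hl : g * a = a := by
    rw [← hga, ← mul_assoc, ← mul_assoc, hp.2]
  have hr : a * g = a := by
    rw [← hga, mul_assoc, hp.2]
  have key : ∀ t : ℝ, t • g ≤ a ∨ a ≤ t • g := by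
    intro t
    obtain ⟨p, hpp, hgp, hpa, h1, h2⟩ := hB.spec g hp a ha hl t
    rcases hmin p hpp hgp with h | h
    · right
      subst h
      simpa [hl] using h2
    · left
      subst h
      simpa [hl] using h1
  -- bounds
  have hub : a ≤ ‖a‖ • g := by
    have h := IsSelfAdjoint.le_algebraMap_norm_self (a := a) ha
    have h2 := star_left_conjugate_le_conjugate h g
    rw [hp.1, hga, Algebra.algebraMap_eq_smul_one, mul_smul_comm, smul_mul_assoc, mul_one,
      hp.2] at h2
    exact h2
  have hlb : (-‖a‖) • g ≤ a := by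
    have h := IsSelfAdjoint.neg_algebraMap_norm_le_self (a := a) ha
    have h2 := star_left_conjugate_le_conjugate h g
    rw [hp.1, hga, Algebra.algebraMap_eq_smul_one, mul_neg, neg_mul, mul_smul_comm,
      smul_mul_assoc, mul_one, hp.2] at h2
    rw [neg_smul]
    exact h2
  set S : Set ℝ := {t | t • g ≤ a} with hS
  have hne : S.Nonempty := ⟨-‖a‖, hlb⟩
  have hbdd : BddAbove S := by
    refine ⟨‖a‖, ?_⟩
    intro t ht
    by_contra hlt
    rw [not_le] at hlt
    have h3 : t • g ≤ ‖a‖ • g := le_trans ht hub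
    have h4 : 0 ≤ (‖a‖ - t) • g := by
      rw [sub_smul]
      exact sub_nonneg.2 h3
    have h5 : 0 ≤ (t - ‖a‖) • g := smul_nonneg (sub_nonneg.2 hlt.le) hg0'
    have h6 : (t - ‖a‖) • g = 0 := by
      apply le_antisymm _ h5
      have : (t - ‖a‖) • g = -((‖a‖ - t) • g) := by
        rw [← neg_smul]
        ring_nf
      rw [this]
      exact neg_nonpos.2 h4
    rcases smul_eq_zero.1 h6 with h7 | h7
    · linarith
    · exact hg0 h7
  refine ⟨sSup S, le_antisymm ?_ ?_⟩
  · -- a ≤ l g
    have hlim : Filter.Tendsto (fun t : ℝ => t • g) (nhdsWithin (sSup S) (Set.Ioi (sSup S)))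
        (nhds (sSup S • g)) := by
      have hc : Continuous (fun t : ℝ => t • g) := by fun_prop
      exact (hc.tendsto (sSup S)).mono_left nhdsWithin_le_nhds
    refine ge_of_tendsto hlim ?_
    filter_upwards [self_mem_nhdsWithin] with t ht
    rcases key t with h | h
    · exact absurd (le_csSup hbdd h) (not_le.2 ht)
    · exact h
  · have hlim : Filter.Tendsto (fun t : ℝ => t • g) (nhdsWithin (sSup S) (Set.Iio (sSup S)))
        (nhds (sSup S • g)) := by
      have hc : Continuous (fun t : ℝ => t • g) := by fun_prop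
      exact (hc.tendsto (sSup S)).mono_left nhdsWithin_le_nhds
    refine le_of_tendsto hlim ?_
    filter_upwards [self_mem_nhdsWithin] with t ht
    obtain ⟨s, hs, hts⟩ := exists_lt_of_lt_csSup hne ht
    exact le_trans (smul_mono_of_nonneg hg0' hts.le) hs

end P_B3

open P_B3 in
theorem p_B_scal : B_scal.{u} := by
  intro B _ _ _ hB g hg x
  have hp := hg.1
  have hre : ∀ y : B, IsSelfAdjoint y → ∃ l : ℝ, g * y * g = l • g := by
    intro y hy
    have h1 : IsSelfAdjoint (g * y * g) := by
      rw [IsSelfAdjoint, star_mul, star_mul, hp.1, hy.star_eq, mul_assoc]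
    refine scal_sa hB hg h1 ?_
    rw [← mul_assoc, ← mul_assoc, hp.2, mul_assoc, hp.2]
  obtain ⟨l1, h1⟩ := hre _ (realPart x).2
  obtain ⟨l2, h2⟩ := hre _ (imaginaryPart x).2
  refine ⟨(l1 : ℂ) + Complex.I * l2, ?_⟩
  have hx := realPart_add_I_smul_imaginaryPart x
  conv_lhs => rw [← hx]
  rw [mul_add, add_mul, h1, mul_smul_comm, smul_mul_assoc, h2, add_smul, mul_smul]
  simp [Complex.coe_smul]

end H711R2.KG
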