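import Mathlib
import Pool.Agent.H711R2.KG.Props

/-! Task B4: minimal projections are subordinate to all nonzero projections. -/

open scoped ComplexOrder InnerProductSpace ComplexConjugate
open Finset

noncomputable section

namespace H711R2.KG

universe u v

namespace P_B4

variable {B : Type u} [CStarAlgebra B]

theorem mul_prj {v q : B} (hv : star v * v = q) (hq : IsPrj q) : v * q = v := by
  have h1 : star (v - v * q) * (v - v * q) = 0 := by
    rw [star_sub, star_mul, hq.1, sub_mul, mul_sub, mul_sub]
    have e1 : star v * (v * q) = q := by rw [← mul_assoc, hv, hq.2]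
    have e2 : q * star v * v = q := by rw [mul_assoc, hv, hq.2]
    have e3 : q * star v * (v * q) = q := by rw [← mul_assoc, e2, hq.2]
    rw [hv, e1, e2, e3]
    simp
  have h2 := (CStarRing.star_mul_self_eq_zero_iff _).1 h1
  exact (sub_eq_zero.1 h2).symm

theorem prj_mul_star {v q : B} (hv : star v * v = q) (hq : IsPrj q) : IsPrj (v * star v) := by
  refine ⟨by rw [star_mul, star_star], ?_⟩
  have e : v * star v * (v * star v) = v * (star v * v) * star v := by simp only [mul_assoc]
  rw [e, hv, mul_prj hv hq]

end P_B4

open P_B4

theorem p_B_minle : B_minle.{u} := by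
  intro B _ _ _ hB g hg q hq hq0
  rcases hB.comp g q hg.1 hq with h | ⟨v, hv1, hv2⟩
  · exact h
  · have hw : IsPrj (v * star v) := prj_mul_star hv1 hq
    have hgw : g * (v * star v) = v * star v := by rw [← mul_assoc, hv2]
    rcases hg.2.2 _ hw hgw with h0 | h1
    · exfalso
      apply hq0
      have hv : v = 0 := by
        have : star v = 0 := by
          rw [← CStarRing.star_mul_self_eq_zero_iff, star_star]
          exact h0
        simpa using this
      rw [← hv1, hv]
      simp
    · refine ⟨star v, by rw [star_star]; exact h1, ?_⟩
      have h2 : v * q = v := mul_prj hv1 hq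
      calc q * star v = star (v * star q) := by rw [star_mul, star_star]
        _ = star v := by rw [hq.1, h2]

end H711R2.KG
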