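import Mathlib
import Pool.Agent.H711R2.KG.Props

/-!
# B5: small projections are sums of minimal projections
-/

open scoped ComplexOrder InnerProductSpace ComplexConjugate
open Finset

noncomputable section

namespace H711R2.KG

universe u

namespace P_B5

variable {B : Type u} [CStarAlgebra B]

theorem prj_mul_of_mul {p q : B} (hp : IsPrj p) (hq : IsPrj q) (h : q * p = p) : p * q = p := by
  have := congrArg star h
  rwa [star_mul, hp.1, hq.1] at this

theorem orth_symm {p q : B} (hp : IsPrj p) (hq : IsPrj q) (h : q * p = 0) : p * q = 0 := by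
  have := congrArg star h
  rwa [star_mul, hp.1, hq.1, star_zero] at this

theorem sub_prj {p q : B} (hp : IsPrj p) (hq : IsPrj q) (h : q * p = p) : IsPrj (q - p) := by
  have h2 := prj_mul_of_mul hp hq h
  constructor
  · rw [star_sub, hp.1, hq.1]
  · rw [mul_sub, sub_mul, sub_mul, hq.2, hp.2, h, h2]
    abel

theorem append {e : B} {n : ℕ} {g : Fin n → B} (hg : OrthIn e g) {q : B} (hq : IsPrj q)
    (heq : e * q = q) (h : ∀ j, g j * q = 0) : OrthIn e (Fin.snoc g q : Fin (n + 1) → B) := by
  constructor
  · intro i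
    refine Fin.lastCases ?_ (fun j => ?_) i
    · rw [Fin.snoc_last]
      exact ⟨hq, heq⟩
    · rw [Fin.snoc_castSucc]
      exact hg.1 j
  · intro i j
    refine Fin.lastCases ?_ (fun i' => ?_) i
    · refine Fin.lastCases ?_ (fun j' => ?_) j
      · intro h'
        exact absurd rfl h'
      · intro _
        rw [Fin.snoc_last, Fin.snoc_castSucc]
        exact orth_symm hq (hg.1 j').1 (h j')
    · refine Fin.lastCases ?_ (fun j' => ?_) j
      · intro _
        rw [Fin.snoc_last, Fin.snoc_castSucc]
        exact h i'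
      · intro h'
        rw [Fin.snoc_castSucc, Fin.snoc_castSucc]
        exact hg.2 i' j' (fun e => h' (by rw [e]))

theorem append_ne {n : ℕ} {g : Fin n → B} {q : B} (hg : ∀ i, g i ≠ 0) (hq : q ≠ 0) :
    ∀ i, (Fin.snoc g q : Fin (n + 1) → B) i ≠ 0 := by
  intro i
  refine Fin.lastCases ?_ (fun j => ?_) i
  · rw [Fin.snoc_last]
    exact hq
  · rw [Fin.snoc_castSucc]
    exact hg j

end P_B5

open P_B5 in
theorem p_B_minsum : B_minsum.{u} := by
  classical
  intro B _ e K he he0 hsm
  -- the family `e` alone
  have hP1 : ∃ g : Fin 1 → B, OrthIn e g ∧ ∀ i, g i ≠ 0 := by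
    refine ⟨fun _ => e, ⟨fun _ => ⟨he, he.2⟩, fun i j hij => absurd (Subsingleton.elim i j) hij⟩,
      fun _ => he0⟩
  have hPK : ∀ n, K ≤ n → ¬ ∃ g : Fin n → B, OrthIn e g ∧ ∀ i, g i ≠ 0 := by
    rintro n hn ⟨g, hg, hg0⟩
    obtain ⟨i, hi⟩ := hsm (fun i => g (Fin.castLE hn i))
      ⟨fun i => hg.1 _, fun i j hij => hg.2 _ _ (fun h => hij (Fin.castLE_injective hn h))⟩
    exact hg0 _ hi
  have hK1 : 1 < K := by
    by_contra h
    exact hPK 1 (by omega) hP1
  set N : ℕ := Nat.findGreatest (fun n => ∃ g : Fin n → B, OrthIn e g ∧ ∀ i, g i ≠ 0) K with hN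
  have hPN : ∃ g : Fin N → B, OrthIn e g ∧ ∀ i, g i ≠ 0 :=
    Nat.findGreatest_spec (P := fun n => ∃ g : Fin n → B, OrthIn e g ∧ ∀ i, g i ≠ 0) hK1.le hP1
  have hN1 : 1 ≤ N :=
    Nat.le_findGreatest (P := fun n => ∃ g : Fin n → B, OrthIn e g ∧ ∀ i, g i ≠ 0) hK1.le hP1
  have hNmax : ¬ ∃ g : Fin (N + 1) → B, OrthIn e g ∧ ∀ i, g i ≠ 0 := by
    intro h
    have h1 : N + 1 ≤ K := by
      by_contra h2
      exact hPK (N + 1) (by omega) h
    have h2 := Nat.le_findGreatest
      (P := fun n => ∃ g : Fin n → B, OrthIn e g ∧ ∀ i, g i ≠ 0) h1 h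
    rw [← hN] at h2
    omega
  obtain ⟨g, hg, hg0⟩ := hPN
  refine ⟨N, g, hN1, hg, ?_, ?_⟩
  · -- the sum is `e`
    by_contra hs
    apply hNmax
    set s : B := ∑ i, g i with hsdef
    have hgs : ∀ j, g j * s = g j := by
      intro j
      rw [hsdef, Finset.mul_sum, Finset.sum_eq_single j]
      · exact (hg.1 j).1.2
      · intro i _ hij
        exact hg.2 j i (Ne.symm hij)
      · intro h
        exact absurd (Finset.mem_univ j) h
    have hes : e * s = s := by
      rw [hsdef, Finset.mul_sum]
      exact Finset.sum_congr rfl fun i _ => (hg.1 i).2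
    have hsprj : IsPrj s := by
      constructor
      · rw [hsdef, star_sum]
        exact Finset.sum_congr rfl fun i _ => (hg.1 i).1.1
      · conv_lhs => rw [hsdef, Finset.sum_mul]
        rw [Finset.sum_congr rfl fun i _ => hgs i]
    have hq : IsPrj (e - s) := sub_prj hsprj he hes
    have heq : e * (e - s) = e - s := by rw [mul_sub, he.2, hes]
    have hne : e - s ≠ 0 := fun h => hs (sub_eq_zero.1 h).symm
    refine ⟨Fin.snoc g (e - s), append hg hq heq ?_, append_ne hg0 hne⟩
    intro j
    rw [mul_sub, hgs, prj_mul_of_mul (hg.1 j).1 he (hg.1 j).2, sub_self]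
  · -- minimality
    intro i
    refine ⟨(hg.1 i).1, hg0 i, ?_⟩
    intro p hp hip
    by_contra hcon
    push Not at hcon
    obtain ⟨hp0, hpi⟩ := hcon
    apply hNmax
    have hpi' : p * g i = p := prj_mul_of_mul hp (hg.1 i).1 hip
    have hpj : ∀ j, j ≠ i → p * g j = 0 := by
      intro j hj
      rw [← hpi', mul_assoc, hg.2 i j (Ne.symm hj), mul_zero]
    have hjp : ∀ j, j ≠ i → g j * p = 0 := by
      intro j hj
      rw [← hip, ← mul_assoc, hg.2 j i hj, zero_mul]
    have hep : e * p = p := by
      rw [← hip, ← mul_assoc, (hg.1 i).2]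
    have hq : IsPrj (g i - p) := sub_prj hp (hg.1 i).1 hip
    have heq : e * (g i - p) = g i - p := by rw [mul_sub, (hg.1 i).2, hep]
    have hne : g i - p ≠ 0 := fun h => hpi (sub_eq_zero.1 h).symm
    have hupd : OrthIn e (Function.update g i p) := by
      constructor
      · intro j
        by_cases hj : j = i
        · subst hj
          rw [Function.update_self]
          exact ⟨hp, hep⟩
        · rw [Function.update_of_ne hj]
          exact hg.1 j
      · intro j k hjk
        by_cases hj : j = i
        · subst hj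
          rw [Function.update_self, Function.update_of_ne (Ne.symm hjk)]
          exact hpj k (Ne.symm hjk)
        · by_cases hk : k = i
          · subst hk
            rw [Function.update_self, Function.update_of_ne hj]
            exact hjp j hj
          · rw [Function.update_of_ne hj, Function.update_of_ne hk]
            exact hg.2 j k hjk
    refine ⟨Fin.snoc (Function.update g i p) (g i - p), append hupd hq heq ?_,
      append_ne ?_ hne⟩
    · intro j
      by_cases hj : j = i
      · subst hj
        rw [Function.update_self, mul_sub, hpi', hp.2, sub_self]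
      · rw [Function.update_of_ne hj, mul_sub, hg.2 j i hj, hjp j hj, sub_self]
    · intro j
      by_cases hj : j = i
      · subst hj
        rw [Function.update_self]
        exact hp0
      · rw [Function.update_of_ne hj]
        exact hg0 j

end H711R2.KG
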