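import Mathlib
import Pool.Agent.H711R2.KG.Props

/-! Task B7 (helper169): a minimal projection with nonzero trace makes the unit small. -/

open scoped ComplexOrder InnerProductSpace ComplexConjugate
open Finset

noncomputable section

namespace H711R2.KG

open H759R2.Kad

universe u v

theorem p_B_trsmall (hmin : B_minle.{u}) (htr : T_sub.{u}) : B_trsmall.{u} := by
  intro B _ _ _ hB τ hτ g hg hne
  obtain ⟨h1, h2, h3, h4⟩ := htr B τ hτ
  have hpos : 0 < (τ g).re := lt_of_le_of_ne (h1 g hg.1).1 (Ne.symm hne)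
  refine ⟨⌊1 / (τ g).re⌋₊ + 1, ?_⟩
  intro h hh
  by_contra hcon
  push Not at hcon
  have hle : ∀ i, (τ g).re ≤ (τ (h i)).re := fun i =>
    h2 g (h i) hg.1 (hh.1 i).1 (hmin B hB g hg (h i) (hh.1 i).1 (hcon i))
  have h5 := (h4 1 (Fin (⌊1 / (τ g).re⌋₊ + 1)) h ⟨star_one B, one_mul 1⟩ hh).2
  rw [hτ.one, Complex.one_re] at h5
  have h6 : ∑ _i : Fin (⌊1 / (τ g).re⌋₊ + 1), (τ g).re ≤
      ∑ i : Fin (⌊1 / (τ g).re⌋₊ + 1), (τ (h i)).re := Finset.sum_le_sum fun i _ => hle i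
  rw [Finset.sum_const, Finset.card_univ, Fintype.card_fin, nsmul_eq_mul] at h6
  have h7 : 1 / (τ g).re < ((⌊1 / (τ g).re⌋₊ + 1 : ℕ) : ℝ) := by
    push_cast
    exact Nat.lt_floor_add_one _
  rw [div_lt_iff₀ hpos] at h7
  linarith

end H711R2.KG
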