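import Mathlib
import Pool.Agent.H711R2.KG.Props

/-!
Task B8: fibre algebras whose unit is a finite sum of minimal projections are matrix algebras.
-/

open scoped ComplexOrder InnerProductSpace ComplexConjugate
open Finset

noncomputable section

namespace H711R2.KG

open H759R2.Kad

universe u

namespace P_B8

variable {B : Type u} [CStarAlgebra B]

lemma mul_prj {v p : B} (hp : IsPrj p) (hv : star v * v = p) : v * p = v := by
  have h : star (v - v * p) * (v - v * p) = 0 := by
    have e1 : star (v - v * p) * (v - v * p) =
        star v * v - star v * v * p - star p * (star v * v) + star p * (star v * v) * p := by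
      rw [star_sub, star_mul]
      noncomm_ring
    rw [e1, hv, hp.1, hp.2, hp.2]
    abel
  have h2 := (CStarRing.star_mul_self_eq_zero_iff _).1 h
  exact (sub_eq_zero.1 h2).symm

lemma prj_mul_star {v p : B} (hp : IsPrj p) (hv : star v * v = p) : IsPrj (v * star v) := by
  refine ⟨by rw [star_mul, star_star], ?_⟩
  have e1 : v * star v * (v * star v) = v * (star v * v) * star v := by noncomm_ring
  rw [e1, hv, mul_prj hp hv]

end P_B8

open P_B8

theorem p_B_mat (hscal : B_scal.{u}) (hminle : B_minle.{u}) : B_mat.{u} := by
  intro B _ _ _ hB n g hn hg hsum hmin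
  obtain ⟨i0⟩ : Nonempty (Fin n) := ⟨⟨0, hn⟩⟩
  have hv : ∀ i, ∃ v : B, star v * v = g i0 ∧ v * star v = g i ∧ g i * v = v ∧ v * g i0 = v := by
    intro i
    obtain ⟨v, h1, h2⟩ := hminle B hB (g i0) (hmin i0) (g i) (hmin i).1 (hmin i).2.1
    have h3 := mul_prj (hmin i0).1 h1
    have h4 := prj_mul_star (hmin i0).1 h1
    have h5 : v * star v ≠ 0 := by
      intro h
      apply (hmin i0).2.1
      rw [← h1]
      have : v = 0 := by
        have h6 : star (star v) * star v = 0 := by rw [star_star]; exact h
        have h7 := (CStarRing.star_mul_self_eq_zero_iff _).1 h6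
        exact star_eq_zero.1 h7
      rw [this, mul_zero]
    have h6 : g i * (v * star v) = v * star v := by rw [← mul_assoc, h2]
    rcases (hmin i).2.2 _ h4 h6 with h7 | h7
    · exact absurd h7 h5
    · exact ⟨v, h1, h7, h2, h3⟩
  choose v hv1 hv2 hv3 hv4 using hv
  have hsv : ∀ i, star (v i) * g i = star (v i) := by
    intro i
    have := congrArg star (hv3 i)
    rwa [star_mul, (hmin i).1.1] at this
  have hsv0 : ∀ i, g i0 * star (v i) = star (v i) := by
    intro i
    have := congrArg star (hv4 i)
    rwa [star_mul, (hmin i0).1.1] at this
  have horth : ∀ j k, j ≠ k → star (v j) * v k = 0 := by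
    intro j k hjk
    rw [← hsv j, ← hv3 k]
    have e1 : star (v j) * g j * (g k * v k) = star (v j) * (g j * g k) * v k := by noncomm_ring
    rw [e1, hg.2 j k hjk, mul_zero, zero_mul]
  have hvv : ∀ j k, star (v j) * v k = if j = k then g i0 else 0 := by
    intro j k
    split_ifs with h
    · rw [h, hv1]
    · exact horth j k h
  let ψ : CStarMatrix (Fin n) (Fin n) ℂ →⋆ₐ[ℂ] B :=
    { toFun := fun s => ∑ i, ∑ j, s i j • (v i * star (v j))
      map_one' := by
        have : ∀ i, ∑ j, (1 : CStarMatrix (Fin n) (Fin n) ℂ) i j • (v i * star (v j)) = g i := by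
          intro i
          rw [Finset.sum_eq_single i]
          · rw [CStarMatrix.one_apply_eq, one_smul, hv2]
          · intro j _ hj
            rw [CStarMatrix.one_apply_ne (Ne.symm hj), zero_smul]
          · simp
        simp only [this]
        exact hsum
      map_mul' := by
        intro s t
        have e1 : ∀ i j k l, (s i j • (v i * star (v j))) * (t k l • (v k * star (v l))) =
            if j = k then (s i j * t k l) • (v i * star (v l)) else 0 := by
          intro i j k l
          rw [smul_mul_smul_comm]
          have : v i * star (v j) * (v k * star (v l)) = v i * (star (v j) * v k) * star (v l) := by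
            noncomm_ring
          rw [this, hvv]
          split_ifs with h
          · rw [hv4]
          · rw [mul_zero, zero_mul, smul_zero]
        have e2 : ∀ i l, (s * t) i l = ∑ k, s i k * t k l := fun i l => by
          rw [CStarMatrix.mul_apply]
        calc ∑ i, ∑ l, (s * t) i l • (v i * star (v l))
            = ∑ i, ∑ l, ∑ j, (s i j * t j l) • (v i * star (v l)) := by
              simp only [e2, Finset.sum_smul]
          _ = ∑ i, ∑ j, ∑ l, (s i j * t j l) • (v i * star (v l)) := by
              refine Finset.sum_congr rfl fun i _ => ?_
              rw [Finset.sum_comm]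
          _ = ∑ i, ∑ j, ∑ k, ∑ l, (s i j • (v i * star (v j))) * (t k l • (v k * star (v l))) := by
              refine Finset.sum_congr rfl fun i _ => Finset.sum_congr rfl fun j _ => ?_
              simp only [e1]
              symm
              rw [Finset.sum_eq_single j]
              · simp
              · intro k _ hk
                simp [Ne.symm hk]
              · simp
          _ = (∑ i, ∑ j, s i j • (v i * star (v j))) * ∑ k, ∑ l, t k l • (v k * star (v l)) := by
              rw [Finset.sum_mul]
              refine Finset.sum_congr rfl fun i _ => ?_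
              rw [Finset.sum_mul]
              refine Finset.sum_congr rfl fun j _ => ?_
              rw [Finset.mul_sum]
              refine Finset.sum_congr rfl fun k _ => ?_
              rw [Finset.mul_sum]
      map_zero' := by simp
      map_add' := by
        intro s t
        simp only [CStarMatrix.add_apply, add_smul, Finset.sum_add_distrib]
      commutes' := by
        intro c
        have e1 : ∀ i j, (algebraMap ℂ (CStarMatrix (Fin n) (Fin n) ℂ) c) i j =
            if i = j then c else 0 := by
          intro i j
          rw [Algebra.algebraMap_eq_smul_one, CStarMatrix.smul_apply]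
          split_ifs with h
          · rw [h, CStarMatrix.one_apply_eq, smul_eq_mul, mul_one]
          · rw [CStarMatrix.one_apply_ne h, smul_zero]
        have e2 : ∀ i, ∑ j, (algebraMap ℂ (CStarMatrix (Fin n) (Fin n) ℂ) c) i j •
            (v i * star (v j)) = c • g i := by
          intro i
          rw [Finset.sum_eq_single i]
          · rw [e1, if_pos rfl, hv2]
          · intro j _ hj
            rw [e1, if_neg (Ne.symm hj), zero_smul]
          · simp
        simp only [e2]
        rw [← Finset.smul_sum, hsum, Algebra.algebraMap_eq_smul_one]
      map_star' := by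
        intro s
        rw [star_sum]
        simp only [star_sum, star_smul, star_mul, star_star]
        rw [Finset.sum_comm]
        rfl }
  have hψ : ∀ s, ψ s = ∑ i, ∑ j, s i j • (v i * star (v j)) := fun _ => rfl
  have hcomp : ∀ s i j, star (v i) * ψ s * v j = s i j • g i0 := by
    intro s i j
    rw [hψ, Finset.mul_sum, Finset.sum_mul, Finset.sum_eq_single i]
    · rw [Finset.mul_sum, Finset.sum_mul, Finset.sum_eq_single j]
      · rw [mul_smul_comm, smul_mul_assoc]
        have : star (v i) * (v i * star (v j)) * v j = (star (v i) * v i) * (star (v j) * v j) := by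
          noncomm_ring
        rw [this, hv1, hv1, (hmin i0).1.2]
      · intro k _ hk
        rw [mul_smul_comm, smul_mul_assoc]
        have : star (v i) * (v i * star (v k)) * v j = (star (v i) * v i) * (star (v k) * v j) := by
          noncomm_ring
        rw [this, horth k j hk, mul_zero, smul_zero]
      · simp
    · intro l _ hl
      rw [Finset.mul_sum, Finset.sum_mul]
      refine Finset.sum_eq_zero fun k _ => ?_
      rw [mul_smul_comm, smul_mul_assoc]
      have : star (v i) * (v l * star (v k)) * v j = (star (v i) * v l) * (star (v k) * v j) := by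
        noncomm_ring
      rw [this, horth i l (Ne.symm hl), zero_mul, smul_zero]
    · simp
  have hinj : Function.Injective ψ := by
    intro s t hst
    ext i j
    have h1 := hcomp s i j
    rw [hst, hcomp t i j] at h1
    exact (smul_left_injective ℂ (hmin i0).2.1 h1).symm
  have hsurj : Function.Surjective ψ := by
    intro b
    have h1 : ∀ i j, ∃ l : ℂ, g i0 * (star (v i) * b * v j) * g i0 = l • g i0 := by
      intro i j
      exact hscal B hB (g i0) (hmin i0) _
    choose l hl using h1
    refine ⟨CStarMatrix.ofMatrix (fun i j => l i j), ?_⟩
    rw [hψ]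
    have h2 : ∀ i j, l i j • (v i * star (v j)) = g i * b * g j := by
      intro i j
      have h3 : l i j • (v i * star (v j)) = v i * (l i j • g i0) * star (v j) := by
        rw [mul_smul_comm, smul_mul_assoc, hv4]
      rw [h3, ← hl]
      have h4 : v i * (g i0 * (star (v i) * b * v j) * g i0) * star (v j) =
          (v i * g i0) * star (v i) * b * (v j * (g i0 * star (v j))) := by noncomm_ring
      rw [h4, hv4, hsv0, hv2, hv2]
    have h5 : ∀ i j, (CStarMatrix.ofMatrix (fun i j => l i j) : CStarMatrix (Fin n) (Fin n) ℂ) i j •
        (v i * star (v j)) = g i * b * g j := fun i j => h2 i j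
    calc ∑ i, ∑ j, (CStarMatrix.ofMatrix (fun i j => l i j) :
            CStarMatrix (Fin n) (Fin n) ℂ) i j • (v i * star (v j))
        = ∑ i, ∑ j, g i * b * g j := by simp only [h5]
      _ = ∑ i, g i * b * ∑ j, g j := by
          refine Finset.sum_congr rfl fun i _ => ?_
          rw [Finset.mul_sum]
      _ = (∑ i, g i) * b * ∑ j, g j := by
          rw [Finset.sum_mul, Finset.sum_mul]
      _ = b := by rw [hsum, one_mul, mul_one]
  exact ⟨(StarAlgEquiv.ofBijective ψ ⟨hinj, hsurj⟩).symm⟩

end H711R2.KG
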