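import Mathlib
import Pool.Agent.H711R2.KG.Props

/-!
Corner algebras `e B e` of a C*-algebra are C*-algebras.
-/

open scoped ComplexOrder InnerProductSpace ComplexConjugate
open Finset

noncomputable section

namespace H711R2.KG

open H759R2.Kad

universe u v

namespace P_C1

variable {B : Type u} [CStarAlgebra B]

lemma mulE {e : B} (he : IsPrj e) {x : B} (hx : e * x * e = x) : e * x = x := by
  calc e * x = e * (e * x * e) := by rw [hx]
    _ = (e * e) * x * e := by noncomm_ring
    _ = e * x * e := by rw [he.2]
    _ = x := hx

lemma Emul {e : B} (he : IsPrj e) {x : B} (hx : e * x * e = x) : x * e = x := by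
  calc x * e = (e * x * e) * e := by rw [hx]
    _ = e * x * (e * e) := by noncomm_ring
    _ = e * x * e := by rw [he.2]
    _ = x := hx

/-- The corner as a non-unital star subalgebra. -/
def corner (e : B) (he : IsPrj e) : NonUnitalStarSubalgebra ℂ B where
  carrier := {x | e * x * e = x}
  add_mem' := by
    intro a b ha hb
    simp only [Set.mem_setOf_eq] at *
    rw [mul_add, add_mul, ha, hb]
  zero_mem' := by simp
  mul_mem' := by
    intro a b ha hb
    simp only [Set.mem_setOf_eq] at *
    have h1 := mulE he ha
    have h2 := Emul he hb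
    rw [← mul_assoc e a b, h1, mul_assoc, h2]
  smul_mem' := by
    intro c x hx
    simp only [Set.mem_setOf_eq] at *
    rw [mul_smul_comm, smul_mul_assoc, hx]
  star_mem' := by
    intro x hx
    simp only [Set.mem_setOf_eq] at *
    conv_rhs => rw [← hx]
    rw [star_mul, star_mul, he.1, mul_assoc]

lemma mem_corner {e : B} (he : IsPrj e) (x : B) : x ∈ corner e he ↔ e * x * e = x := Iff.rfl

lemma isClosed_corner (e : B) (he : IsPrj e) : IsClosed (corner e he : Set B) := by
  have : (corner e he : Set B) = {x | e * x * e = x} := rfl
  rw [this]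
  exact isClosed_eq (by fun_prop) continuous_id

/-- The unit of the corner. -/
def one' (e : B) (he : IsPrj e) : corner e he := ⟨e, by
  rw [mem_corner, he.2, he.2]⟩

/-- The C*-algebra structure on the corner. -/
@[reducible] def inst (e : B) (he : IsPrj e) : CStarAlgebra (corner e he) :=
  letI hc : IsClosed (corner e he : Set B) := isClosed_corner e he
  letI I0 : NonUnitalCStarAlgebra (corner e he) :=
    @NonUnitalStarSubalgebra.nonUnitalCStarAlgebra _ _ _ _ _ _ _ (corner e he) hc
  letI I1 : NormedRing (corner e he) :=
    { (inferInstance : NonUnitalNormedRing (corner e he)) with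
      one := one' e he
      one_mul := fun a => Subtype.ext (mulE he a.2)
      mul_one := fun a => Subtype.ext (Emul he a.2) }
  letI I2 : NormedAlgebra ℂ (corner e he) :=
    { Algebra.ofModule (fun r x y => smul_mul_assoc r x y) (fun r x y => mul_smul_comm r x y) with
      norm_smul_le := fun r x => norm_smul_le r x }
  { I1, I2, I0 with }

end P_C1

open P_C1 in
theorem p_C_exists : C_exists.{u} := by
  intro B _ _ _ e he
  letI I := inst e he
  letI P : PartialOrder (corner e he) := CStarAlgebra.spectralOrder (corner e he)
  letI S : StarOrderedRing (corner e he) := CStarAlgebra.spectralOrderedRing (corner e he)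
  refine ⟨corner e he, I, P, S, ?_, ?_⟩
  · exact NonUnitalStarSubalgebraClass.subtype (corner e he)
  · exact ⟨he, fun c => rfl, rfl, fun x hx => ⟨⟨x, hx⟩, rfl⟩⟩

end H711R2.KG
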