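import Mathlib
import Pool.Agent.H711R2.KG.Props

/-! Task C2 (helper169): order in a corner. -/

open scoped ComplexOrder InnerProductSpace ComplexConjugate
open Finset

noncomputable section

namespace H711R2.KG

open H759R2.Kad

universe u v

namespace P_C2

variable {B : Type u} [CStarAlgebra B] [PartialOrder B] [StarOrderedRing B]
    {C : Type u} [CStarAlgebra C] [PartialOrder C] [StarOrderedRing C]
    {ι : C →⋆ₙₐ[ℂ] B} {e : B}

theorem inj (h : IsCor ι e) {x y : C} (hxy : ι x = ι y) : x = y := by
  have h1 : ‖ι (x - y)‖ = ‖x - y‖ := h.norm _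
  rw [map_sub, hxy, sub_self, norm_zero] at h1
  exact sub_eq_zero.1 (norm_eq_zero.1 h1.symm)

theorem nonneg_iff (h : IsCor ι e) (x : C) : 0 ≤ ι x ↔ 0 ≤ x := by
  constructor
  · intro hx
    -- the square root of `ι x`
    set s := CFC.sqrt (ι x) with hs
    have hs0 : 0 ≤ s := CFC.sqrt_nonneg (ι x)
    have hss : s * s = ι x := CFC.sqrt_mul_sqrt_self (ι x) hx
    have hsa : star s = s := (IsSelfAdjoint.of_nonneg hs0).star_eq
    have hex : ι x * e = ι x := by
      rw [← h.one, ← map_mul, mul_one]
    have h0 : star (s * e - s) * (s * e - s) = 0 := by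
      rw [star_sub, star_mul, h.prj.1, hsa]
      have e1 : (e * s - s) * (s * e - s) = e * ((s * s) * e) - e * (s * s) - (s * s) * e + s * s := by
        noncomm_ring
      rw [e1, hss, hex]
      abel
    have h2 := CStarRing.norm_star_mul_self (x := s * e - s)
    rw [h0, norm_zero] at h2
    have h3 : ‖s * e - s‖ = 0 := by
      rcases mul_eq_zero.1 h2.symm with g | g <;> exact g
    have hse : s * e = s := sub_eq_zero.1 (norm_eq_zero.1 h3)
    have hes : e * s = s := by
      have := congrArg star hse
      rw [star_mul, h.prj.1, hsa] at this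
      exact this
    obtain ⟨d, hd⟩ := h.surj s (by rw [hes, hse])
    have hdd : star d * d = x := by
      apply inj h
      rw [map_mul, map_star, hd, hsa, hss]
    rw [← hdd]
    exact star_mul_self_nonneg d
  · intro hx
    obtain ⟨y, hy⟩ := CStarAlgebra.nonneg_iff_eq_star_mul_self.1 hx
    rw [hy, map_mul, map_star]
    exact star_mul_self_nonneg _

end P_C2

theorem p_C_ord : C_ord.{u} := by
  intro B _ _ _ C _ _ _ ι e h x y
  rw [← sub_nonneg, ← map_sub, P_C2.nonneg_iff h, sub_nonneg]

end H711R2.KG
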