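import Mathlib
import Pool.Agent.H711R2.KG.Props

/-!
Task C3: corners of fibre algebras are fibre algebras.
-/

open scoped ComplexOrder InnerProductSpace ComplexConjugate
open Finset

noncomputable section

namespace H711R2.KG

open H759R2.Kad

universe u v

namespace P_C3

section basic

variable {B : Type u} [CStarAlgebra B] {C : Type u} [CStarAlgebra C]
  {ι : C →⋆ₙₐ[ℂ] B} {e : B}

theorem inj (h : IsCor ι e) : Function.Injective ι := by
  intro x y hxy
  have h1 : ι (x - y) = 0 := by rw [map_sub, hxy, sub_self]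
  have h2 : ‖x - y‖ = 0 := by rw [← h.norm, h1, norm_zero]
  exact sub_eq_zero.1 (norm_eq_zero.1 h2)

theorem left (h : IsCor ι e) (c : C) : e * ι c = ι c := by
  rw [← h.one, ← map_mul, one_mul]

theorem right (h : IsCor ι e) (c : C) : ι c * e = ι c := by
  rw [← h.one, ← map_mul, mul_one]

theorem prj_iff (h : IsCor ι e) (p : C) : IsPrj (ι p) ↔ IsPrj p := by
  unfold IsPrj
  rw [← map_star, ← map_mul]
  constructor
  · rintro ⟨h1, h2⟩
    exact ⟨inj h h1, inj h h2⟩
  · rintro ⟨h1, h2⟩
    rw [h1, h2]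
    exact ⟨rfl, rfl⟩

theorem lift (h : IsCor ι e) {x : B} (h1 : e * x = x) (h2 : x * e = x) : ∃ c, ι c = x :=
  h.surj x (by rw [h1, h2])

theorem lift_prj (h : IsCor ι e) {p : B} (hp : IsPrj p) (h1 : e * p = p) :
    ∃ p' : C, ι p' = p ∧ IsPrj p' := by
  have h2 : p * e = p := by
    have h3 := congrArg star h1
    rw [star_mul, hp.1, h.prj.1] at h3
    exact h3
  obtain ⟨p', hp'⟩ := lift h h1 h2
  refine ⟨p', hp', ?_⟩
  rw [← prj_iff h, hp']
  exact hp

theorem smul_real (t : ℝ) (c : C) : ι (t • c) = t • ι c := by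
  have h1 : t • c = (t : ℂ) • c := rfl
  have h2 : t • ι c = (t : ℂ) • ι c := rfl
  rw [h1, h2, map_smul]

theorem pi_right {v p : B} (hp : IsPrj p) (h : star v * v = p) : v * p = v := by
  have h1 : star (v - v * p) * (v - v * p) = 0 := by
    have h2 : star (v - v * p) = star v - p * star v := by
      rw [star_sub, star_mul, hp.1]
    rw [h2]
    have h3 : (star v - p * star v) * (v - v * p) =
        star v * v - star v * v * p - p * (star v * v) + p * (star v * v) * p := by
      noncomm_ring
    rw [h3, h]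
    simp only [hp.2]
    abel
  have h4 : v - v * p = 0 := by
    have h5 := CStarRing.norm_star_mul_self (x := v - v * p)
    rw [h1, norm_zero] at h5
    have h6 : ‖v - v * p‖ = 0 := by
      have := mul_self_eq_zero.1 h5.symm
      exact this
    exact norm_eq_zero.1 h6
  exact (sub_eq_zero.1 h4).symm

theorem sub_lift (h : IsCor ι e) {p q : C} (hp : IsPrj p) (hs : Sub (ι p) (ι q)) : Sub p q := by
  obtain ⟨v, h1, h2⟩ := hs
  have h3 : e * v = v := by
    rw [← h2, ← mul_assoc, left h]
  have h4 : v * ι p = v := pi_right ((prj_iff h p).2 hp) h1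
  have h5 : v * e = v := by
    rw [← h4, mul_assoc, right h]
  obtain ⟨v', hv'⟩ := lift h h3 h5
  refine ⟨v', inj h ?_, inj h ?_⟩
  · rw [map_mul, map_star, hv', h1]
  · rw [map_mul, hv', h2]

end basic

end P_C3

open P_C3

theorem p_C_fib (hord : C_ord.{u}) : C_fib.{u} := by
  intro B _ _ _ C _ _ _ ι e h he hB
  refine ⟨⟨?_, ?_, ?_, ?_⟩, ?_⟩
  · intro h1
    apply he
    rw [← h.one, h1, map_zero]
  · intro e' he' a ha hea t
    obtain ⟨p, hp1, hp2, hp3, hp4, hp5⟩ := hB.spec (ι e') ((prj_iff h e').2 he') (ι a)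
      (by
        have h1 : star a = a := ha
        show star (ι a) = ι a
        rw [← map_star, h1]) (by rw [← map_mul, hea]) t
    have h1 : e * p = p := by rw [← hp2, ← mul_assoc, left h]
    obtain ⟨p', rfl, hp'⟩ := lift_prj h hp1 h1
    refine ⟨p', hp', inj h (by rw [map_mul, hp2]), inj h (by rw [map_mul, map_mul, hp3]), ?_, ?_⟩
    · rw [← hord B C ι e h, smul_real, map_mul]
      exact hp4
    · rw [← hord B C ι e h, smul_real, map_mul, map_sub]
      exact hp5
  · intro p q hp hq
    rcases hB.comp (ι p) (ι q) ((prj_iff h p).2 hp) ((prj_iff h q).2 hq) with h1 | h1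
    · exact Or.inl (sub_lift h hp h1)
    · exact Or.inr (sub_lift h hq h1)
  · intro e' he'
    obtain ⟨v, h1, h2, h3, h4, h5⟩ := hB.half (ι e') ((prj_iff h e').2 he')
    have h6 : e * v = v := by rw [← h1, ← mul_assoc, left h]
    have h7 : v * e = v := by rw [← h2, mul_assoc, right h]
    obtain ⟨v', rfl⟩ := lift h h6 h7
    have h8 : ι (e' - star v' * v' - v' * star v') =
        ι e' - star (ι v') * ι v' - ι v' * star (ι v') := by
      rw [map_sub, map_sub, map_mul, map_mul, map_star]
    refine ⟨v', inj h (by rw [map_mul, h1]), inj h (by rw [map_mul, h2]),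
      inj h (by rw [map_mul, h3, map_zero]), ?_, ?_⟩
    · rw [← prj_iff h, map_mul, map_star]
      exact h4
    · intro p hp hpe
      rcases h5 (ι p) ((prj_iff h p).2 hp) (by rw [← h8, ← map_mul, hpe]) with h9 | h9
      · left
        exact inj h (by rw [h9, map_zero])
      · right
        exact inj h (by rw [h9, h8])
  · intro K hK g hg
    obtain ⟨hg1, hg2⟩ := hg
    choose g' hg' hgp using fun i => lift_prj h (hg1 i).1 (hg1 i).2
    obtain ⟨i, hi⟩ := hK g' ⟨fun i => ⟨hgp i, one_mul _⟩, fun i j hij => inj h (by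
      rw [map_mul, hg', hg', hg2 i j hij, map_zero])⟩
    exact ⟨i, by rw [← hg', hi, map_zero]⟩

end H711R2.KG
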