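import Mathlib
import Pool.Agent.H711R2.KG.Props

/-! Task C4 (helper419): tracial states on corners. -/

open scoped ComplexOrder InnerProductSpace ComplexConjugate
open Finset

noncomputable section

namespace H711R2.KG

open H759R2.Kad

universe u v

theorem p_C_tr : C_tr.{u} := by
  intro B _ _ _ C _ _ _ ι e τ hcor hτ he
  -- `τ e` is a positive real number
  have hee : star e * e = e := by rw [hcor.prj.1, hcor.prj.2]
  have hpos : 0 ≤ τ e := by
    have := hτ.pos e
    rwa [hee] at this
  have him : (τ e).im = 0 := (Complex.nonneg_iff.1 hpos).2.symm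
  have hreal : τ e = (((τ e).re : ℝ) : ℂ) := by
    apply Complex.ext
    · simp
    · simp [him]
  have hne : τ e ≠ 0 := by
    intro h
    rw [h] at he
    simp at he
  have hinv : (0 : ℂ) ≤ (τ e)⁻¹ := by
    rw [hreal, ← Complex.ofReal_inv]
    exact_mod_cast (inv_pos.2 he).le
  refine ⟨(τ e)⁻¹ • (τ.comp (ι : C →ₗ[ℂ] B)), ?_, ?_, ?_⟩
  · simp only [LinearMap.smul_apply, LinearMap.comp_apply, smul_eq_mul]
    change (τ e)⁻¹ * τ (ι 1) = 1
    rw [hcor.one, inv_mul_cancel₀ hne]
  · intro a
    simp only [LinearMap.smul_apply, LinearMap.comp_apply, smul_eq_mul]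
    change 0 ≤ (τ e)⁻¹ * τ (ι (star a * a))
    rw [map_mul ι, map_star ι]
    exact mul_nonneg hinv (hτ.pos _)
  · intro a b
    simp only [LinearMap.smul_apply, LinearMap.comp_apply, smul_eq_mul]
    change (τ e)⁻¹ * τ (ι (a * b)) = (τ e)⁻¹ * τ (ι (b * a))
    rw [map_mul ι, map_mul ι, hτ.comm]

end H711R2.KG
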