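import Mathlib
import Pool.Agent.H711R2.KG.Props

/-! Matrix units: the algebra `(∑ f i) B (∑ f i)` is a matrix algebra over the corner. -/

open scoped ComplexOrder InnerProductSpace ComplexConjugate
open Finset

noncomputable section

namespace H711R2.KG

open H759R2.Kad

universe u v

namespace P_C5

variable {B : Type u} [CStarAlgebra B]

/-- `v p = v` when `v* v = p` is a projection. -/
lemma mul_of_star {v p : B} (hp : IsPrj p) (hv : star v * v = p) : v * p = v := by
  have h : star (v - v * p) * (v - v * p) = 0 := by
    rw [star_sub, star_mul, hp.1]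
    calc (star v - p * star v) * (v - v * p)
        = star v * v - star v * v * p - p * (star v * v) + p * (star v * v) * p := by noncomm_ring
      _ = 0 := by rw [hv, hp.2, hp.2]; abel
  have h2 : v - v * p = 0 := by
    have := CStarRing.star_mul_self_eq_zero_iff (v - v * p)
    exact this.1 h
  exact (sub_eq_zero.1 h2).symm

variable {C : Type u} [CStarAlgebra C]

/-- The homomorphism. -/
def Phi {L : ℕ} (w : Fin L → B) (e : B) (ι : C →⋆ₙₐ[ℂ] B) (hw : ∀ i j, star (w i) * w j =
    if i = j then e else 0) (he : ∀ c, e * ι c = ι c) :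
    CStarMatrix (Fin L) (Fin L) C →⋆ₙₐ[ℂ] B where
  toFun Y := ∑ i, ∑ j, w i * ι (Y i j) * star (w j)
  map_smul' c Y := by
    simp only [CStarMatrix.smul_apply, map_smul, mul_smul_comm, smul_mul_assoc,
      ← Finset.smul_sum, MonoidHom.id_apply]
  map_zero' := by simp
  map_add' X Y := by
    simp only [CStarMatrix.add_apply, map_add, mul_add, add_mul, Finset.sum_add_distrib]
  map_mul' X Y := by
    have h : ∀ i j, w i * ι ((X * Y) i j) * star (w j) =
        ∑ k, w i * ι (X i k) * (ι (Y k j)) * star (w j) := by
      intro i j
      rw [CStarMatrix.mul_apply, map_sum, Finset.mul_sum, Finset.sum_mul]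
      refine Finset.sum_congr rfl fun k _ => ?_
      rw [map_mul, ← mul_assoc]
    simp only [h]
    rw [Finset.sum_mul]
    refine Finset.sum_congr rfl fun i _ => ?_
    rw [Finset.sum_mul]
    rw [Finset.sum_comm]
    refine Finset.sum_congr rfl fun k _ => ?_
    symm
    rw [Finset.mul_sum]
    rw [Finset.sum_eq_single k]
    · rw [Finset.mul_sum]
      refine Finset.sum_congr rfl fun j _ => ?_
      symm
      calc w i * ι (X i k) * ι (Y k j) * star (w j)
          = w i * ι (X i k) * (e * ι (Y k j)) * star (w j) := by rw [he]
        _ = w i * ι (X i k) * ((star (w k) * w k) * ι (Y k j)) * star (w j) := by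
            rw [hw k k, if_pos rfl]
        _ = _ := by simp only [mul_assoc]
    · intro l _ hl
      rw [Finset.mul_sum]
      refine Finset.sum_eq_zero fun j _ => ?_
      calc w i * ι (X i k) * star (w k) * (w l * ι (Y l j) * star (w j))
          = w i * ι (X i k) * (star (w k) * w l) * (ι (Y l j) * star (w j)) := by
            simp only [mul_assoc]
        _ = 0 := by rw [hw k l, if_neg (Ne.symm hl)]; simp
    · intro h; exact absurd (Finset.mem_univ _) h
  map_star' Y := by
    simp only [star_sum, star_mul, star_star]
    rw [Finset.sum_comm]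
    refine Finset.sum_congr rfl fun j _ => ?_
    refine Finset.sum_congr rfl fun i _ => ?_
    rw [CStarMatrix.star_apply, map_star, mul_assoc]

end P_C5

open P_C5 in
theorem p_C_units : C_units.{u} := by
  intro B _ _ _ C _ _ _ L f i₀ ι hι hf hE
  have hp : ∀ i, IsPrj (f i) := fun i => (hf.1 i).1
  choose w hw1 hw2 using fun i => hE i₀ i
  -- w i : star (w i) * w i = f i₀, w i * star (w i) = f i
  have hwe : ∀ i, w i * f i₀ = w i := fun i => mul_of_star (hp i₀) (hw1 i)
  have hew : ∀ i, f i₀ * star (w i) = star (w i) := by
    intro i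
    have := congrArg star (hwe i)
    rwa [star_mul, (hp i₀).1] at this
  have hfw : ∀ i, f i * w i = w i := by
    intro i
    rw [← hw2 i, mul_assoc, hw1 i, hwe i]
  have hwf : ∀ i, star (w i) * f i = star (w i) := by
    intro i
    have := congrArg star (hfw i)
    rwa [star_mul, (hp i).1] at this
  have hw : ∀ i j, star (w i) * w j = if i = j then f i₀ else 0 := by
    intro i j
    split_ifs with h
    · subst h; exact hw1 i
    · rw [← hwf i, ← hfw j, mul_assoc, ← mul_assoc (f i), hf.2 i j h]
      simp
  have hone : ι 1 = f i₀ := hι.one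
  have hel : ∀ c, f i₀ * ι c = ι c := by
    intro c
    rw [← hone, ← map_mul, one_mul]
  have her : ∀ c, ι c * f i₀ = ι c := by
    intro c
    rw [← hone, ← map_mul, mul_one]
  have hval : ∀ (Y : CStarMatrix (Fin L) (Fin L) C), Phi w (f i₀) ι hw hel Y =
      ∑ i, ∑ j, w i * ι (Y i j) * star (w j) := fun Y => rfl
  have hent : ∀ (Y : CStarMatrix (Fin L) (Fin L) C) (i j : Fin L),
      star (w i) * Phi w (f i₀) ι hw hel Y * w j = ι (Y i j) := by
    intro Y i j
    rw [hval, Finset.mul_sum, Finset.sum_mul, Finset.sum_eq_single i]
    · rw [Finset.mul_sum, Finset.sum_mul, Finset.sum_eq_single j]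
      · calc star (w i) * (w i * ι (Y i j) * star (w j)) * w j
            = (star (w i) * w i) * ι (Y i j) * (star (w j) * w j) := by simp only [mul_assoc]
          _ = ι (Y i j) := by
              rw [hw1, hw1, hel, her]
      · intro l _ hl
        calc star (w i) * (w i * ι (Y i l) * star (w l)) * w j
            = (star (w i) * w i) * ι (Y i l) * (star (w l) * w j) := by simp only [mul_assoc]
          _ = 0 := by rw [hw l j, if_neg hl, mul_zero]
      · intro h; exact absurd (Finset.mem_univ _) h
    · intro k _ hk
      rw [Finset.mul_sum, Finset.sum_mul]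
      refine Finset.sum_eq_zero fun l _ => ?_
      calc star (w i) * (w k * ι (Y k l) * star (w l)) * w j
          = (star (w i) * w k) * (ι (Y k l) * star (w l) * w j) := by simp only [mul_assoc]
        _ = 0 := by rw [hw i k, if_neg (Ne.symm hk), zero_mul]
    · intro h; exact absurd (Finset.mem_univ _) h
  have hιinj : Function.Injective ι := by
    intro a b hab
    have : ‖ι (a - b)‖ = ‖a - b‖ := hι.norm _
    rw [map_sub, hab, sub_self, norm_zero] at this
    exact sub_eq_zero.1 (norm_eq_zero.1 this.symm)
  have hinj : Function.Injective (Phi w (f i₀) ι hw hel) := by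
    intro X Y hXY
    ext i j
    apply hιinj
    rw [← hent X i j, ← hent Y i j, hXY]
  have hsumprj : IsPrj (∑ i, f i) := by
    refine ⟨?_, ?_⟩
    · rw [star_sum]
      exact Finset.sum_congr rfl fun i _ => (hp i).1
    · rw [Finset.sum_mul]
      refine Finset.sum_congr rfl fun i _ => ?_
      rw [Finset.mul_sum, Finset.sum_eq_single i]
      · exact (hp i).2
      · intro j _ hj
        exact hf.2 i j (Ne.symm hj)
      · intro h; exact absurd (Finset.mem_univ _) h
  refine ⟨Phi w (f i₀) ι hw hel, hsumprj, ?_, ?_, ?_⟩
  · intro Y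
    exact NonUnitalStarAlgHom.norm_map _ hinj Y
  · rw [hval]
    refine Finset.sum_congr rfl fun i _ => ?_
    rw [Finset.sum_eq_single i]
    · rw [CStarMatrix.one_apply, if_pos rfl, hone, hwe, hw2]
    · intro j _ hj
      rw [CStarMatrix.one_apply, if_neg (Ne.symm hj), map_zero, mul_zero, zero_mul]
    · intro h; exact absurd (Finset.mem_univ _) h
  · intro x hx
    have hc : ∀ i j, ∃ c, ι c = star (w i) * x * w j := by
      intro i j
      apply hι.surj
      calc f i₀ * (star (w i) * x * w j) * f i₀
          = (f i₀ * star (w i)) * x * (w j * f i₀) := by simp only [mul_assoc]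
        _ = star (w i) * x * w j := by rw [hew, hwe]
    choose Y hY using hc
    refine ⟨CStarMatrix.ofMatrix (Matrix.of Y), ?_⟩
    rw [hval]
    calc ∑ i, ∑ j, w i * ι ((CStarMatrix.ofMatrix (Matrix.of Y)) i j) * star (w j)
        = ∑ i, ∑ j, f i * x * f j := by
          refine Finset.sum_congr rfl fun i _ => Finset.sum_congr rfl fun j _ => ?_
          have : (CStarMatrix.ofMatrix (Matrix.of Y)) i j = Y i j := rfl
          rw [this, hY i j]
          calc w i * (star (w i) * x * w j) * star (w j)
              = (w i * star (w i)) * x * (w j * star (w j)) := by simp only [mul_assoc]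
            _ = f i * x * f j := by rw [hw2, hw2]
      _ = (∑ i, f i) * x * (∑ j, f j) := by
          rw [Finset.sum_mul, Finset.sum_mul]
          refine Finset.sum_congr rfl fun i _ => ?_
          rw [Finset.mul_sum]
      _ = x := hx

end H711R2.KG
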