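import Mathlib
import Pool.Agent.H711R2.KG.Props

/-!
From a corner `e B e` to `B` when `1 - e ≾ e`.
-/

open scoped ComplexOrder InnerProductSpace ComplexConjugate
open Finset

noncomputable section

namespace H711R2.KG

open H759R2.Kad

universe u v

namespace P_C6

section alg

variable {B : Type u} [CStarAlgebra B]

theorem prj_norm {p : B} (hp : IsPrj p) : ‖p‖ ≤ 1 := by
  have h : ‖p‖ * ‖p‖ = ‖p‖ := by
    have := CStarRing.norm_star_mul_self (x := p)
    rw [hp.1, hp.2] at this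
    exact this.symm
  by_contra hc
  have h1 : 1 < ‖p‖ := not_le.1 hc
  nlinarith

theorem prj_compl {p : B} (hp : IsPrj p) : IsPrj (1 - p) := by
  refine ⟨by rw [star_sub, star_one, hp.1], ?_⟩
  rw [mul_sub, sub_mul, sub_mul, hp.2]
  simp

theorem v_norm {v p : B} (hp : IsPrj p) (h : star v * v = p) : ‖v‖ ≤ 1 := by
  have h1 := CStarRing.norm_star_mul_self (x := v)
  rw [h] at h1
  have h2 := prj_norm hp
  by_contra hc
  have h3 : 1 < ‖v‖ := not_le.1 hc
  nlinarith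

theorem psi_mul (V : Fin 2 → B) (hV : ∑ a, star (V a) * V a = 1) (a b : Fin 2) (x y : B) :
    ∑ c, V a * x * star (V c) * (V c * y * star (V b)) = V a * (x * y) * star (V b) := by
  have h : ∀ c, V a * x * star (V c) * (V c * y * star (V b)) =
      V a * x * (star (V c) * V c) * (y * star (V b)) := fun c => by
    simp only [mul_assoc]
  rw [Finset.sum_congr rfl fun c _ => h c, ← Finset.sum_mul, ← Finset.mul_sum, hV]
  simp only [mul_assoc, one_mul]

/-- The map `X ↦ (V_a X_ij V_b*)`. -/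
def Psi (V : Fin 2 → B) (hV : ∑ a, star (V a) * V a = 1) (m : ℕ) :
    CStarMatrix (Fin m) (Fin m) B →⋆ₙₐ[ℂ]
      CStarMatrix (Fin 2 × Fin m) (Fin 2 × Fin m) B where
  toFun X := CStarMatrix.ofMatrix fun p q => V p.1 * X p.2 q.2 * star (V q.1)
  map_smul' c X := by
    ext p q
    simp [CStarMatrix.ofMatrix_apply]
  map_zero' := by
    ext p q
    simp [CStarMatrix.ofMatrix_apply]
  map_add' X Y := by
    ext p q
    simp [CStarMatrix.ofMatrix_apply, mul_add, add_mul]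
  map_mul' X Y := by
    ext p q
    rw [CStarMatrix.mul_apply]
    simp only [CStarMatrix.ofMatrix_apply]
    rw [Fintype.sum_prod_type, Finset.sum_comm, CStarMatrix.mul_apply, Finset.mul_sum,
      Finset.sum_mul]
    exact Finset.sum_congr rfl fun k _ => (psi_mul V hV p.1 q.1 (X p.2 k) (Y k q.2)).symm
  map_star' X := by
    ext p q
    rw [CStarMatrix.star_apply]
    simp only [CStarMatrix.ofMatrix_apply, star_mul, star_star, CStarMatrix.star_apply, mul_assoc]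

theorem psi_apply (V : Fin 2 → B) (hV : ∑ a, star (V a) * V a = 1) (m : ℕ)
    (X : CStarMatrix (Fin m) (Fin m) B) (p q : Fin 2 × Fin m) :
    Psi V hV m X p q = V p.1 * X p.2 q.2 * star (V q.1) := rfl

end alg

section norms

variable {B : Type u} [CStarAlgebra B] [PartialOrder B] [StarOrderedRing B]
variable {D : Type u} [CStarAlgebra D] [PartialOrder D] [StarOrderedRing D]

theorem psi_norm (V : Fin 2 → B) (hV : ∑ a, star (V a) * V a = 1) (m : ℕ)
    (X : CStarMatrix (Fin m) (Fin m) B) : ‖Psi V hV m X‖ ≤ ‖X‖ :=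
  NonUnitalStarAlgHom.norm_apply_le (Psi V hV m) X

theorem map_norm (Φ : D →⋆ₙₐ[ℂ] B) (hΦ : ∀ d, ‖Φ d‖ = ‖d‖) (ι : Type) [Fintype ι]
    (Y : CStarMatrix ι ι D) : ‖CStarMatrix.mapₙₐ Φ Y‖ = ‖Y‖ := by
  refine NonUnitalStarAlgHom.norm_map (CStarMatrix.mapₙₐ (n := ι) Φ) ?_ Y
  rw [injective_iff_map_eq_zero]
  intro Z hZ
  ext i j
  have h : (CStarMatrix.mapₙₐ Φ Z) i j = Φ (Z i j) := rfl
  rw [hZ] at h
  have h1 : ‖Z i j‖ = 0 := by
    rw [← hΦ, ← h]; simp
  simpa using h1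

end norms

section hilb

variable {H : Type v} [NormedAddCommGroup H]

theorem two_sum (x : Fin 2 → H) (c : ℝ) (z : Fin 2 → ℝ)
    (h : ∀ a, ‖x a‖ ≤ c * z a) : ‖∑ a, x a‖ ^ 2 ≤ 2 * c ^ 2 * ∑ a, z a ^ 2 := by
  rw [Fin.sum_univ_two, Fin.sum_univ_two]
  have h1 : ‖x 0 + x 1‖ ≤ c * z 0 + c * z 1 :=
    (norm_add_le _ _).trans (add_le_add (h 0) (h 1))
  have h2 : ‖x 0 + x 1‖ ^ 2 ≤ (c * z 0 + c * z 1) ^ 2 := by
    gcongr
  nlinarith [mul_nonneg (sq_nonneg c) (sq_nonneg (z 0 - z 1))]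

end hilb

end P_C6

open P_C6 in
theorem p_C_ext (hlev : K_level.{u, v}) : C_ext.{u, v} := by
  intro B _ _ _ D _ _ _ Φ e hcor hsub H _ _ _ u hu c R hc hR hub m hw X
  obtain ⟨v, hv1, hv2⟩ := hsub
  have he := hcor.prj
  -- the family `V`
  set V : Fin 2 → B := ![e, v] with hVdef
  have hV : ∑ a, star (V a) * V a = 1 := by
    rw [Fin.sum_univ_two]
    simp only [hVdef, Matrix.cons_val_zero, Matrix.cons_val_one]
    rw [he.1, he.2, hv1]
    abel
  have heV : ∀ a, e * V a = V a := by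
    intro a
    fin_cases a
    · simpa [hVdef] using he.2
    · simpa [hVdef] using hv2
  have hVn : ∀ a, ‖V a‖ ≤ 1 := by
    intro a
    fin_cases a
    · simpa [hVdef] using prj_norm he
    · simpa [hVdef] using v_norm (prj_compl he) hv1
  have heVs : ∀ a, star (V a) * e = star (V a) := by
    intro a
    have := congrArg star (heV a)
    rwa [star_mul, he.1] at this
  -- the subspace
  let P : H →L[ℂ] H := 1 - u e
  let K : Submodule ℂ H := LinearMap.ker (P : H →ₗ[ℂ] H)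
  have hKmem : ∀ x : H, x ∈ K ↔ u e x = x := by
    intro x
    change P x = 0 ↔ _
    simp only [P, sub_apply, one_apply_eq_self]
    rw [sub_eq_zero, eq_comm]
  have hKc : IsClosed (K : Set H) := P.isClosed_ker
  haveI : CompleteSpace K := hKc.completeSpace_coe
  have hΦe : ∀ d, e * Φ d = Φ d := by
    intro d
    rw [← hcor.one, ← map_mul, one_mul]
  have hmemK : ∀ (b : B) (x : H), e * b = b → u b x ∈ K := by
    intro b x hb
    rw [hKmem]
    have := hu.mul e b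
    rw [hb] at this
    conv_rhs => rw [this]
    rfl
  let w : D →ₗ[ℂ] (K →L[ℂ] K) :=
    { toFun := fun d => ((u (Φ d)).comp K.subtypeL).codRestrict K
        fun x => hmemK (Φ d) x (hΦe d)
      map_add' := fun a b => by
        ext x
        simp
      map_smul' := fun r a => by
        ext x
        simp }
  have hwa : ∀ (d : D) (x : K), ((w d x : K) : H) = u (Φ d) x := fun d x => rfl
  have hwhom : IsHom w := by
    constructor
    · intro a b
      ext x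
      rw [hwa, map_mul, hu.mul]
      rfl
    · ext x
      rw [hwa, hcor.one]
      exact (hKmem x).1 x.2
  have hwn : ∀ b, ‖w b‖ ≤ c * ‖b‖ := by
    intro b
    refine ContinuousLinearMap.opNorm_le_bound _ (by positivity) fun x => ?_
    have h1 : ‖w b x‖ = ‖u (Φ b) x‖ := by
      rw [← hwa]; rfl
    rw [h1]
    refine ((u (Φ b)).le_opNorm _).trans ?_
    have h2 := hub (Φ b)
    rw [hcor.norm] at h2
    exact mul_le_mul_of_nonneg_right h2 (norm_nonneg _)
  have hlvl := hw K w hwhom hwn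
  -- the lifted matrix
  have hsurj : ∀ x : B, e * x * e = x → ∃ d, Φ d = x := hcor.surj
  have hZ : ∀ p q : Fin 2 × Fin m, ∃ d, Φ d = V p.1 * X p.2 q.2 * star (V q.1) := by
    intro p q
    apply hsurj
    rw [← mul_assoc, ← mul_assoc, heV, mul_assoc, heVs]
  choose Y hY using hZ
  let Y' : CStarMatrix (Fin 2 × Fin m) (Fin 2 × Fin m) D := CStarMatrix.ofMatrix Y
  have hYn : ‖Y'‖ ≤ ‖X‖ := by
    have h1 : CStarMatrix.mapₙₐ Φ Y' = Psi V hV m X := by
      ext p q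
      exact hY p q
    rw [← map_norm Φ hcor.norm, h1]
    exact psi_norm V hV m X
  have hcard : Fintype.card (Fin 2 × Fin m) ≤ 2 * m := by simp
  have hAY : ‖amp w (Fin 2 × Fin m) Y'‖ ≤ R * ‖X‖ :=
    (hlev D K w (2 * m) R hR hlvl (Fin 2 × Fin m) hcard Y').trans
      (mul_le_mul_of_nonneg_left hYn hR)
  -- the estimate
  refine ContinuousLinearMap.opNorm_le_bound _ (by positivity) fun ξ => ?_
  let η : HH (Fin 2 × Fin m) K :=
    WithLp.toLp 2 fun q => ⟨u (V q.1) (ξ q.2), hmemK _ _ (heV q.1)⟩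
  have hη : ∀ q, ((η q : K) : H) = u (V q.1) (ξ q.2) := fun q => rfl
  let ζ : HH (Fin 2 × Fin m) K := amp w (Fin 2 × Fin m) Y' η
  have hζ : ∀ p, ((ζ p : K) : H) =
      ∑ q : Fin 2 × Fin m, u (V p.1 * X p.2 q.2 * star (V q.1)) (u (V q.1) (ξ q.2)) := by
    intro p
    change ((amp w (Fin 2 × Fin m) Y' η p : K) : H) = _
    rw [amp_apply, Submodule.coe_sum]
    refine Finset.sum_congr rfl fun q _ => ?_
    rw [hwa, hη]
    have : Y' p q = Y p q := rfl
    rw [this, hY]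
  have hc3 : ∀ (a Z b : B) (x : H), u (a * (Z * b)) x = u a (u Z (u b x)) := by
    intro a Z b x
    rw [hu.mul, hu.mul]
    rfl
  have hX : ∀ i, amp u (Fin m) X ξ i = ∑ a, u (star (V a)) ((ζ (a, i) : K) : H) := by
    intro i
    rw [amp_apply]
    have h1 : ∀ a, u (star (V a)) ((ζ (a, i) : K) : H) =
        ∑ q : Fin 2 × Fin m, u (star (V a) * V a * X i q.2 * (star (V q.1) * V q.1)) (ξ q.2) := by
      intro a
      rw [hζ, map_sum]
      refine Finset.sum_congr rfl fun q _ => ?_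
      have h2 : star (V a) * V a * X i q.2 * (star (V q.1) * V q.1) =
          star (V a) * (V a * X i q.2 * star (V q.1) * V q.1) := by
        simp only [mul_assoc]
      rw [h2, hc3]
    rw [Finset.sum_congr rfl fun a _ => h1 a]
    have h3 : ∀ a, ∑ q : Fin 2 × Fin m,
        u (star (V a) * V a * X i q.2 * (star (V q.1) * V q.1)) (ξ q.2) =
        ∑ j, u (star (V a) * V a * X i j) (ξ j) := by
      intro a
      rw [Fintype.sum_prod_type, Finset.sum_comm]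
      refine Finset.sum_congr rfl fun j _ => ?_
      change ∑ x, (u (star (V a) * V a * X i j * (star (V x) * V x))) (ξ j) = _
      rw [← _root_.sum_apply, ← map_sum, ← Finset.mul_sum, hV, mul_one]
    rw [Finset.sum_congr rfl fun a _ => h3 a, Finset.sum_comm]
    refine Finset.sum_congr rfl fun j _ => ?_
    rw [← _root_.sum_apply, ← map_sum, ← Finset.sum_mul, hV, one_mul]
  have hub1 : ∀ b : B, ‖b‖ ≤ 1 → ∀ x : H, ‖u b x‖ ≤ c * ‖x‖ := by
    intro b hb x
    refine ((u b).le_opNorm x).trans (mul_le_mul_of_nonneg_right ?_ (norm_nonneg _))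
    calc ‖u b‖ ≤ c * ‖b‖ := hub b
      _ ≤ c * 1 := mul_le_mul_of_nonneg_left hb hc
      _ = c := mul_one c
  -- norms
  have e1 : ‖amp u (Fin m) X ξ‖ ^ 2 ≤ 2 * c ^ 2 * ‖ζ‖ ^ 2 := by
    rw [PiLp.norm_sq_eq_of_L2, PiLp.norm_sq_eq_of_L2, Fintype.sum_prod_type, Finset.sum_comm,
      Finset.mul_sum]
    refine Finset.sum_le_sum fun i _ => ?_
    rw [hX]
    refine two_sum (fun a => u (star (V a)) ((ζ (a, i) : K) : H)) c (fun a => ‖ζ (a, i)‖)
      fun a => ?_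
    have h1 : ‖star (V a)‖ ≤ 1 := by rw [norm_star]; exact hVn a
    exact hub1 _ h1 _
  have e2 : ‖η‖ ^ 2 ≤ 2 * c ^ 2 * ‖ξ‖ ^ 2 := by
    rw [PiLp.norm_sq_eq_of_L2, PiLp.norm_sq_eq_of_L2, Fintype.sum_prod_type, Finset.sum_comm,
      Finset.mul_sum]
    refine Finset.sum_le_sum fun j _ => ?_
    rw [Fin.sum_univ_two]
    have h1 : ∀ a, ‖η (a, j)‖ ≤ c * ‖ξ j‖ := fun a => hub1 _ (hVn a) (ξ j)
    have h2 := h1 0
    have h3 := h1 1
    have h4 : ‖η (0, j)‖ ^ 2 ≤ (c * ‖ξ j‖) ^ 2 := by gcongr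
    have h5 : ‖η (1, j)‖ ^ 2 ≤ (c * ‖ξ j‖) ^ 2 := by gcongr
    nlinarith
  have e3 : ‖ζ‖ ≤ R * ‖X‖ * ‖η‖ :=
    ((amp w (Fin 2 × Fin m) Y').le_opNorm η).trans
      (mul_le_mul_of_nonneg_right hAY (norm_nonneg _))
  have e4 : ‖ζ‖ ^ 2 ≤ (R * ‖X‖) ^ 2 * ‖η‖ ^ 2 := by
    calc ‖ζ‖ ^ 2 ≤ (R * ‖X‖ * ‖η‖) ^ 2 := by gcongr
      _ = (R * ‖X‖) ^ 2 * ‖η‖ ^ 2 := by ring
  have e5 : ‖amp u (Fin m) X ξ‖ ^ 2 ≤ (2 * c ^ 2 * R * ‖X‖ * ‖ξ‖) ^ 2 := by
    calc ‖amp u (Fin m) X ξ‖ ^ 2 ≤ 2 * c ^ 2 * ‖ζ‖ ^ 2 := e1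
      _ ≤ 2 * c ^ 2 * ((R * ‖X‖) ^ 2 * ‖η‖ ^ 2) := by gcongr
      _ ≤ 2 * c ^ 2 * ((R * ‖X‖) ^ 2 * (2 * c ^ 2 * ‖ξ‖ ^ 2)) := by gcongr
      _ = (2 * c ^ 2 * R * ‖X‖ * ‖ξ‖) ^ 2 := by ring
  exact (sq_le_sq₀ (norm_nonneg _) (by positivity)).1 e5

end H711R2.KG
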