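import Mathlib
import Pool.Agent.H711R2.KG.Props

/-! Task B6 (helper169): traces of projections. -/

open scoped ComplexOrder InnerProductSpace ComplexConjugate
open Finset

noncomputable section

namespace H711R2.KG

open H759R2.Kad

universe u v

namespace P_B6

variable {B : Type u} [CStarAlgebra B]

/-- A partial isometry satisfies `v (v* v) = v`. -/
theorem pi_mul {v p : B} (hp : IsPrj p) (hv : star v * v = p) : v * p = v := by
  have h1 : star (v * p - v) * (v * p - v) = 0 := by
    rw [star_sub, star_mul, hp.1]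
    have e : (p * star v - star v) * (v * p - v) =
        p * (star v * v) * p - p * (star v * v) - (star v * v) * p + star v * v := by
      noncomm_ring
    rw [e, hv, hp.2, hp.2]
    abel
  have h2 := CStarRing.norm_star_mul_self (x := v * p - v)
  rw [h1, norm_zero] at h2
  have h3 : ‖v * p - v‖ = 0 := by
    rcases mul_eq_zero.1 h2.symm with g | g <;> exact g
  exact sub_eq_zero.1 (norm_eq_zero.1 h3)

theorem prj_vv {v p : B} (hp : IsPrj p) (hv : star v * v = p) : IsPrj (v * star v) := by
  refine ⟨by rw [star_mul, star_star], ?_⟩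
  calc v * star v * (v * star v) = v * (star v * v) * star v := by noncomm_ring
    _ = v * star v := by rw [hv, pi_mul hp hv]

/-- complement below -/
theorem prj_sub {q r : B} (hq : IsPrj q) (hr : IsPrj r) (h : q * r = r) : IsPrj (q - r) := by
  have h' : r * q = r := by
    have := congrArg star h
    rw [star_mul, hq.1, hr.1] at this
    exact this
  refine ⟨by rw [star_sub, hq.1, hr.1], ?_⟩
  rw [sub_mul, mul_sub, mul_sub, hq.2, hr.2, h, h']
  abel

theorem prj_one : IsPrj (1 : B) := ⟨star_one B, one_mul 1⟩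

theorem sum_prj {e : B} {I : Type} [Fintype I] {g : I → B} (hg : OrthIn e g) :
    IsPrj (∑ i, g i) := by
  classical
  refine ⟨?_, ?_⟩
  · rw [star_sum]
    exact Finset.sum_congr rfl fun i _ => (hg.1 i).1.1
  · rw [Finset.sum_mul_sum]
    refine Finset.sum_congr rfl fun i _ => ?_
    rw [Finset.sum_eq_single i]
    · exact (hg.1 i).1.2
    · intro j _ hj
      exact hg.2 i j (Ne.symm hj)
    · intro h
      exact absurd (Finset.mem_univ i) h

theorem tau_nonneg {τ : B →ₗ[ℂ] ℂ} (hτ : IsTracialState τ) {p : B} (hp : IsPrj p) :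
    0 ≤ (τ p).re ∧ (τ p).im = 0 := by
  have h := hτ.pos p
  rw [hp.1, hp.2, Complex.le_def] at h
  exact ⟨h.1, h.2.symm⟩

end P_B6

open P_B6

theorem p_T_sub : T_sub.{u} := by
  intro B _ _ _ τ hτ
  refine ⟨?_, ?_, ?_, ?_⟩
  · intro p hp
    refine ⟨(tau_nonneg hτ hp).1, (tau_nonneg hτ hp).2, ?_⟩
    have h := (tau_nonneg hτ (prj_sub prj_one hp (one_mul p))).1
    rw [map_sub, hτ.one, Complex.sub_re, Complex.one_re] at h
    linarith
  · rintro p q hp hq ⟨v, h1, h2⟩
    have hr := prj_vv hp h1
    have hqr : q * (v * star v) = v * star v := by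
      rw [← mul_assoc, h2]
    have h := (tau_nonneg hτ (prj_sub hq hr hqr)).1
    rw [map_sub, Complex.sub_re, hτ.comm, h1] at h
    linarith
  · rintro p q ⟨v, h1, h2⟩
    rw [← h1, ← h2]
    exact hτ.comm _ _
  · intro e I _ g he hg
    have hs := sum_prj hg
    refine ⟨hs, ?_⟩
    have hes : e * ∑ i, g i = ∑ i, g i := by
      rw [Finset.mul_sum]
      exact Finset.sum_congr rfl fun i _ => (hg.1 i).2
    have h := (tau_nonneg hτ (prj_sub he hs hes)).1
    rw [map_sub, map_sum, Complex.sub_re, Complex.re_sum] at h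
    linarith

end H711R2.KG
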